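import Pool.Agent.J4H73.CH.Asm

/-! The assembly. -/

set_option autoImplicit false
set_option maxHeartbeats 4000000

open Finset Filter

namespace Pool.Agent.J4H73.CH

open Pool.Agent.H378R2 Pool.Agent.H378R2.LSBV Pool.Agent.N610.AP Pool.Agent.Y882
open Pool.Agent.J4H73.BV
open Pool.Agent.W23.DC (Mer pr SF)
open Pool.Agent

theorem errs (κ₀ K1 σ : ℝ) (hκ : 0 < κ₀) (hK1 : 0 ≤ K1) (hσ : 0 ≤ σ) : ∀ᶠ X : ℝ in atTop, ∀ φ : ℝ, 0 < φ →
    φ ≤ X ^ (7 / 5000 : ℝ) →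
    22 * (Real.log X) ^ 2 * X ^ (199 / 200 : ℝ) ≤ κ₀ * (X / (φ * (Real.log X) ^ 4)) ∧
    (5 * Real.log X + K1 * (Real.log X) ^ 2) * (X / (φ * (Real.log X) ^ 20)) ≤
      κ₀ * (X / (φ * (Real.log X) ^ 4)) ∧
    σ * (X / (φ * (Real.log X) ^ 10)) ≤ κ₀ * (X / (φ * (Real.log X) ^ 4)) := by
  have t1 := Real.tendsto_log_atTop
  filter_upwards [eventually_ge_atTop 4, t1.eventually_ge_atTop 1, t1.eventually_ge_atTop ((5 + K1) / κ₀),
    t1.eventually_ge_atTop (σ / κ₀), Pool.Agent.H398R2.BV.ev_log (22 / κ₀) 6 (1 / 500) (by norm_num)]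
    with X hX4 hL1 hL2 hL3 hev
  intro φ hφ hφX
  set L := Real.log X with hL
  have hX0 : 0 < X := by linarith
  have hX1 : 1 ≤ X := by linarith
  have hL0 : 0 < L := by linarith
  rw [div_le_iff₀ hκ] at hL2 hL3
  refine ⟨?_, ?_, ?_⟩
  · rw [mul_div_assoc', le_div_iff₀ (by positivity)]
    have h1 : 22 * L ^ 6 ≤ κ₀ * X ^ (1 / 500 : ℝ) := by
      have : 22 / κ₀ * L ^ 6 = 22 * L ^ 6 / κ₀ := by ring
      rw [this, div_le_iff₀ hκ] at hev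
      linarith
    calc 22 * L ^ 2 * X ^ (199 / 200 : ℝ) * (φ * L ^ 4) ≤
        22 * L ^ 2 * X ^ (199 / 200 : ℝ) * (X ^ (7 / 5000 : ℝ) * L ^ 4) := by gcongr
      _ = (22 * L ^ 6) * (X ^ (199 / 200 : ℝ) * X ^ (7 / 5000 : ℝ)) := by ring
      _ ≤ (κ₀ * X ^ (1 / 500 : ℝ)) * (X ^ (199 / 200 : ℝ) * X ^ (7 / 5000 : ℝ)) := by gcongr
      _ = κ₀ * (X ^ (1 / 500 : ℝ) * (X ^ (199 / 200 : ℝ) * X ^ (7 / 5000 : ℝ))) := by ring
      _ ≤ κ₀ * X := by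
          apply mul_le_mul_of_nonneg_left _ hκ.le
          rw [← Real.rpow_add hX0, ← Real.rpow_add hX0]
          calc _ ≤ X ^ (1 : ℝ) := Real.rpow_le_rpow_of_exponent_le hX1 (by norm_num)
            _ = X := Real.rpow_one X
  · have h1 : 5 * L + K1 * L ^ 2 ≤ κ₀ * L ^ 3 := by
      have h2 : 5 * L ≤ 5 * L ^ 2 := by nlinarith
      have h3 : L ^ 3 = L * L ^ 2 := by ring
      have h4 : (5 + K1) * L ^ 2 ≤ (L * κ₀) * L ^ 2 := mul_le_mul_of_nonneg_right hL2 (by positivity)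
      rw [h3]
      linarith
    calc (5 * L + K1 * L ^ 2) * (X / (φ * L ^ 20)) ≤ (κ₀ * L ^ 3) * (X / (φ * L ^ 20)) := by gcongr
      _ = κ₀ * (X / (φ * L ^ 17)) := by
          field_simp
      _ ≤ κ₀ * (X / (φ * L ^ 4)) := by
          gcongr
          norm_num
  · calc σ * (X / (φ * L ^ 10)) ≤ (L * κ₀) * (X / (φ * L ^ 10)) := by gcongr
      _ = κ₀ * (X / (φ * L ^ 9)) := by field_simp
      _ ≤ κ₀ * (X / (φ * L ^ 4)) := by
          gcongr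
          norm_num

theorem fin_num (L M1 ε₁ D a θ σ Bs K E20 E10 Ep c₃ t X9 SW s1 s2 s3 s4 s5 s6 : ℝ)
    (hL : 100 ≤ L) (hEp : 0 < Ep)
    (hlow : M1 * (ε₁ * (a - θ)) - (5 * L * E20 + 10 * L ^ 2 * Ep) ≤ SW)
    (hup : SW ≤ s1 + s2 + s3 + s4 + s5 + s6) (b1 : s1 ≤ 2 * L * t) (b2 : s2 ≤ 8 * L * Ep)
    (b3 : s3 ≤ ε₁ * D / 8 * M1 + Ep) (b4 : s4 ≤ ε₁ * D / 8 * M1 + 2 * c₃ * L ^ 2 * E20)
    (b5 : s5 ≤ Ep) (b6 : s6 ≤ σ * (ε₁ * (Bs + θ) * M1 + E10))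
    (h1 : (1 + σ) * θ = D / 8) (h2 : D = a - σ * Bs) (r1 : 22 * L ^ 2 * Ep ≤ K)
    (r2 : (5 * L + 2 * c₃ * L ^ 2) * E20 ≤ K) (r3 : σ * E10 ≤ K) (hK : K ≤ ε₁ * D / 16 * M1)
    (hX9 : X9 ≤ Ep) (hM : 0 ≤ ε₁ * D * M1) : X9 ≤ t := by
  have hL0 : 0 < L := by linarith
  have g3 : 10 * L ^ 2 * Ep + 8 * L * Ep + Ep + Ep + 2 * L * Ep ≤ 22 * L ^ 2 * Ep := by
    have g4 : L ≤ L ^ 2 := by nlinarith
    have g5 : 1 ≤ L ^ 2 := by nlinarith
    have g6 : L * Ep ≤ L ^ 2 * Ep := mul_le_mul_of_nonneg_right g4 hEp.le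
    have g7 : 1 * Ep ≤ L ^ 2 * Ep := mul_le_mul_of_nonneg_right g5 hEp.le
    linarith
  have hkey : M1 * (ε₁ * (a - θ)) - M1 * (σ * (ε₁ * (Bs + θ))) = ε₁ * D * M1 - ε₁ * (D / 8) * M1 := by
    rw [← h1, h2]
    ring
  have g1 : 2 * L * X9 ≤ 2 * L * Ep := mul_le_mul_of_nonneg_left hX9 (by linarith)
  have hfinal : 2 * L * X9 ≤ 2 * L * t := by
    have g8 : (5 * L + 2 * c₃ * L ^ 2) * E20 = 5 * L * E20 + 2 * c₃ * L ^ 2 * E20 := by ring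
    have g9 : σ * (ε₁ * (Bs + θ) * M1 + E10) = M1 * (σ * (ε₁ * (Bs + θ))) + σ * E10 := by ring
    rw [g8] at r2
    rw [g9] at b6
    have g10 : ε₁ * (D / 8) * M1 = ε₁ * D * M1 / 8 := by ring
    have g11 : ε₁ * D / 8 * M1 = ε₁ * D * M1 / 8 := by ring
    have g12 : ε₁ * D / 16 * M1 = ε₁ * D * M1 / 16 := by ring
    rw [g10] at hkey
    rw [g11] at b3 b4
    rw [g12] at hK
    linarith
  exact le_of_mul_le_mul_left hfinal (by linarith)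

open Classical in
theorem assemble (A0 : ℝ) (F f : ℝ → ℝ) (hSF : SF A0 F f) (τ ζ υ aw bw τ' : ℝ) (hζ10 : 1 / 10 ≤ ζ)
    (h2 : 2 * ζ < τ) (h4 : τ ≤ 4 * ζ) (hτ : τ ≤ 1) (hζυ : ζ ≤ υ) (hυ2 : υ ≤ 1 / 2) (hυτ : υ < τ)
    (ha : 0 ≤ aw) (hb : 0 ≤ bw) (hab : bw * υ ≤ aw)
    (hJ0 : ∫ x in ζ..υ, (aw - bw * x) / (τ - x) / x < Real.log (τ / ζ - 1) / τ)
    (h5 : τ < τ') (h6 : τ' ≤ 497 / 1000) (A N : ℕ) (hA : 20 ≤ A) (hN : 2 ^ (A + 1) + A + 1 ≤ N)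
    (T : ℝ → ℕ → ℝ) (hT0 : ∀ X f, 0 ≤ T X f) (hTT : ∀ X f, TT X f ≤ T X f) (B0 : ℕ) (C0 : ℝ)
    (hT1 : ∀ᶠ X : ℝ in atTop, ∑ f ∈ Icc 2 ⌊X ^ (1 / 50 : ℝ)⌋₊, T X f ≤ C0 * X * (Real.log X) ^ B0)
    (hT2 : ∀ Z' : ℕ, ∀ᶠ X : ℝ in atTop, ∃ fs : ℕ, (fs = 0 ∨ Z' < fs) ∧ ∀ f : ℕ, Squarefree f →
      1 < f → (f : ℝ) ≤ Real.exp ((Real.log (Real.log X)) ^ 6) → f ≠ fs →
        T X f ≤ X * Real.exp (2 * (Real.log (Real.log X)) ^ 6 - (Real.log (Real.log X)) ^ 7))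
    (hT3 : ∀ᶠ X : ℝ in atTop, ∀ F0 F1 : ℕ, 2 ≤ F0 → X ^ (1 / 100 : ℝ) ≤ 2 * F0 →
      (F1 : ℝ) ≤ X ^ (623 / 1250 : ℝ) →
      ∑ f ∈ Icc F0 F1, (1 / (f : ℝ)) * T X f ≤ X ^ (19971 / 20000 : ℝ))
    (Gd Sw : ℝ → ℕ → Prop) (σ Bs : ℝ) (hσ : 0 ≤ σ)
    (hpt : ∀ᶠ X : ℝ in atTop, ∀ N : ℕ, 0 < N → (N : ℝ) ≤ 4 * X → KW.WW ⌊X⌋₊ ζ υ aw bw N ≤
        (if Gd X N then 1 else 0) + σ * (if Sw X N then 1 else 0) +
          (if ∃ q ∈ pr ⌊X⌋₊ ζ υ, q ^ 2 ∣ N then 1 else 0))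
    (hsw : ∀ θ : ℝ, 0 < θ → ∃ ε₀ : ℝ, 0 < ε₀ ∧ ∀ ε₁ : ℝ, 0 < ε₁ → ε₁ ≤ ε₀ → ∃ Zs : ℕ, ∀ᶠ X : ℝ in atTop,
        ∀ (ps : ℕ) (S : Finset ℕ), GoodP Zs ps → GoodS X S →
        ∑ p ∈ pairs X ps ⌊X ^ (497 / 1000 : ℝ)⌋₊ S, LSBV.wt A p.2 * T X (p.1 * p.2) ≤ X / (Real.log X) ^ N →
        ∀ (h r : ℕ), 0 < h → 2 ∣ h → (h : ℝ) ≤ (Real.log X) ^ 2 → r.Coprime (WW X S ps) →
        (r + h).Coprime (WW X S ps) →
        ∑ n ∈ (Icc 1 ⌊3 * X⌋₊).filter (fun n => n ≡ r [MOD WW X S ps] ∧ n.Prime ∧ Sw X (n + h)),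
          Phi (n / X) * ArithmeticFunction.vonMangoldt n ≤
          ε₁ * (Bs + θ) * (LPhi X / (WW X S ps).totient *
            ∏ p ∈ Y882.PZ ⌊X⌋₊ ε₁, (1 - gh (WW X S ps) ps h p)) +
            X / ((WW X S ps).totient * (Real.log X) ^ 10))
    (hfin : σ * Bs < A0 * (Real.log (τ / ζ - 1) / τ - ∫ x in ζ..υ, (aw - bw * x) / (τ - x) / x)) :
    ∀ δ₁ : ℝ, 0 < δ₁ → ∃ c : ℝ, 0 < c ∧ ∀ᶠ X : ℝ in atTop, ∀ h : ℕ, 2 ∣ h → 0 < h → (h : ℝ) ≤ c * RR X →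
      X ^ (9 / 10 : ℝ) ≤ (((Icc 1 ⌊3 * X⌋₊).filter (fun n : ℕ => X < n ∧ n.Prime ∧ Gd X (n + h) ∧
        ∀ z : ℤ, |(z : ℝ)| ≤ c * RR X → z ≠ 0 → z ≠ h →
          ∃ q : ℕ, q.Prime ∧ (q : ℝ) ≤ X ^ δ₁ ∧ (q : ℤ) ∣ n + z)).card : ℝ) := by
  intro δ₁ hδ₁
  have hζ : 0 < ζ := by linarith
  set c₂ : ℝ := Real.log (τ / ζ - 1) / τ - ∫ x in ζ..υ, (aw - bw * x) / (τ - x) / x with hc₂
  obtain ⟨D, hD⟩ : ∃ D : ℝ, D = A0 * c₂ - σ * Bs := ⟨_, rfl⟩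
  have hD0 : 0 < D := by rw [hD]; linarith
  obtain ⟨θ, hθ⟩ : ∃ θ : ℝ, θ = D / (8 * (1 + σ)) := ⟨_, rfl⟩
  have hθ0 : 0 < θ := by rw [hθ]; positivity
  have hθD : (1 + σ) * θ = D / 8 := by
    rw [hθ]
    field_simp
  obtain ⟨ε₀a, hε₀a, HL⟩ := coreL A0 F f hSF 1 τ ζ υ aw bw τ' hζ h2 h4 hτ hζυ hυτ ha hb hab hJ0 h5 θ hθ0
  obtain ⟨ε₀b, hε₀b, HS⟩ := hsw θ hθ0
  obtain ⟨Cs, hCs, HSV⟩ := surv
  obtain ⟨Ce, hCe, HEX⟩ := exc
  obtain ⟨E, hE⟩ : ∃ E : ℕ, E = Cs * Cs + Ce * Ce := ⟨_, rfl⟩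
  have hE1 : 1 ≤ E := by rw [hE]; nlinarith
  have hEr : (1 : ℝ) ≤ E := by exact_mod_cast hE1
  obtain ⟨ε₁, hε₁⟩ : ∃ ε₁ : ℝ, ε₁ = min (min ε₀a ε₀b) (min (min (1 / 4) (δ₁ / 2)) (min (ζ / 4) (1 / (400 * E)))) :=
    ⟨_, rfl⟩
  have hε0 : 0 < ε₁ := by
    rw [hε₁]
    refine lt_min (lt_min hε₀a hε₀b) (lt_min (lt_min (by norm_num) (by positivity)) (lt_min (by positivity) (by positivity)))
  have hεa : ε₁ ≤ ε₀a := by rw [hε₁]; exact (min_le_left _ _).trans (min_le_left _ _)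
  have hεb : ε₁ ≤ ε₀b := by rw [hε₁]; exact (min_le_left _ _).trans (min_le_right _ _)
  have hε4 : ε₁ ≤ 1 / 4 := by
    rw [hε₁]; exact (min_le_right _ _).trans ((min_le_left _ _).trans (min_le_left _ _))
  have hεδ : ε₁ ≤ δ₁ / 2 := by
    rw [hε₁]; exact (min_le_right _ _).trans ((min_le_left _ _).trans (min_le_right _ _))
  have hεζ : ε₁ ≤ ζ / 4 := by
    rw [hε₁]; exact (min_le_right _ _).trans ((min_le_right _ _).trans (min_le_left _ _))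
  have hεE : ε₁ ≤ 1 / (400 * E) := by
    rw [hε₁]; exact (min_le_right _ _).trans ((min_le_right _ _).trans (min_le_right _ _))
  obtain ⟨η, hη, Y1, HL⟩ := HL ε₁ hε0 hεa
  obtain ⟨Zs, HS⟩ := HS ε₁ hε0 hεb
  obtain ⟨C1, hC1, HSV⟩ := HSV A (by omega) (ε₁ / 2) (by positivity)
  obtain ⟨C2, hC2, HEX⟩ := HEX (ε₁ / 2) (by positivity)
  obtain ⟨c₃, hc₃⟩ : ∃ c₃ : ℝ, c₃ = ε₁ * D / (8 * C1) := ⟨_, rfl⟩
  have hc₃0 : 0 < c₃ := by rw [hc₃]; positivity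
  obtain ⟨c, hc, HC⟩ := cover2 c₃ hc₃0
  obtain ⟨Z, hZ⟩ : ∃ Z : ℕ, Z = max (max (max Cs Ce) (max Zs 6)) (⌈8 * C2 / (ε₁ * D)⌉₊ + 1) := ⟨_, rfl⟩
  have hZs : Cs ≤ Z := by rw [hZ]; exact ((le_max_left _ _).trans (le_max_left _ _)).trans (le_max_left _ _)
  have hZe : Ce ≤ Z := by rw [hZ]; exact ((le_max_right _ _).trans (le_max_left _ _)).trans (le_max_left _ _)
  have hZZ : Zs ≤ Z := by rw [hZ]; exact ((le_max_left _ _).trans (le_max_right _ _)).trans (le_max_left _ _)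
  have hZ6 : 6 ≤ Z := by rw [hZ]; exact ((le_max_right _ _).trans (le_max_right _ _)).trans (le_max_left _ _)
  have hZC : 8 * C2 / (ε₁ * D) ≤ Z := by
    refine (Nat.le_ceil _).trans ?_
    have : ⌈8 * C2 / (ε₁ * D)⌉₊ ≤ Z := by
      rw [hZ]
      exact (Nat.le_succ _).trans (le_max_right _ _)
    exact_mod_cast this
  obtain ⟨cG, hcG, HG⟩ := G1_low ε₁
  obtain ⟨κ₀, hκ₀⟩ : ∃ κ₀ : ℝ, κ₀ = ε₁ * D / 16 * (cG / 200) := ⟨_, rfl⟩
  have hκ0 : 0 < κ₀ := by rw [hκ₀]; positivity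
  refine ⟨c, hc, ?_⟩
  have t1 := Real.tendsto_log_atTop
  have t2 : Tendsto (fun y : ℝ => Real.log (Real.log y)) atTop atTop := t1.comp t1
  filter_upwards [good_set A Z N T hT0 B0 C0 hT1 hT2 hT3, HC, floor_facts, eventually_ge_atTop (Y1 : ℝ),
    mer_gh ε₁ υ η hε0 hυ2 hη, mainP A, HSV, HEX, ex_J ε₁ hε0 hε4, HG, squares ζ υ hζ hυ2, hpt, HS,
    LPhi_ge, Pool.Agent.H312R2.RG.ev_ff c hc, errs κ₀ (2 * c₃) σ hκ0 (by positivity) hσ,
    t1.eventually_ge_atTop 100, t2.eventually_ge_atTop 1,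
    Pool.Agent.H398R2.BV.ev_log 1 1 δ₁ hδ₁, eventually_ge_atTop 100,
    Pool.Agent.H398R2.BV.ev_log 2 2 1 (by norm_num)] with
    X HGS HC hfl hXY1 HM HMP HSV HEX HJ HG HSQ hpt HS hLP hff herr hL100 hl1 hLδ hX100 hL2X
  intro h h2h hh0 hhR
  obtain ⟨f1, f2, f3, f4⟩ := hfl
  have hX0 : 0 < X := by linarith
  have hX1 : 1 ≤ X := by linarith
  obtain ⟨ps, S, hps, hS, hpairs⟩ := HGS
  set L := Real.log X with hL
  set l := Real.log L with hl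
  set Y := ⌊X⌋₊ with hY
  have hYr : (100 : ℝ) ≤ Y := by exact_mod_cast f1
  have hL0 : 0 < L := by linarith
  set W := WW X S ps with hW
  have hW0 : 0 < W := H378R2.WW_pos X S ps
  have hφ0 : (0 : ℝ) < W.totient := by exact_mod_cast Nat.totient_pos.2 hW0
  have hφX : (W.totient : ℝ) ≤ X ^ (7 / 5000 : ℝ) := by
    have h1 : (W : ℝ) ≤ X ^ (7 / 5000 : ℝ) :=
      le_trans (by exact_mod_cast Nat.le_of_dvd (primorial_pos _) (WW_dvd_primorial X S ps))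
        (primorial_yy_le' X hX1)
    exact le_trans (by exact_mod_cast Nat.totient_le W) h1
  have hps' : ps = 1 ∨ ps.Prime := by
    rcases hps with h | h
    · exact Or.inl h
    · exact Or.inr h.1
  have hGP : ∀ m : ℕ, m ≤ Z → GoodP m ps := by
    intro m hm
    rcases hps with h | h
    · exact Or.inl h
    · exact Or.inr ⟨h.1, by omega⟩
  -- size of h
  have hRR : c * RR X ≤ L ^ 2 := by
    refine le_trans ?_ hff.1
    apply mul_le_mul_of_nonneg_left _ hc.le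
    unfold RR
    exact div_le_self hff.2.1 hl1
  have hhL : (h : ℝ) ≤ L ^ 2 := hhR.trans hRR
  have hhX : (h : ℝ) ≤ X / 2 := by
    rw [Real.rpow_one] at hL2X
    linarith
  obtain ⟨r, b', U0, hr, hrh, hU0, hU1, hb', hcov⟩ := HC ps S (hGP 2 (by omega)) hS h h2h
  obtain ⟨J, hJ1, hJY, hJX, hJY2, hJX2, hJL⟩ := HJ
  have hpairsTT : ∑ p ∈ pairs X ps ⌊X ^ (497 / 1000 : ℝ)⌋₊ S, LSBV.wt A p.2 * TT X (p.1 * p.2) ≤
      X / L ^ (2 ^ (A + 1) + A + 1) := by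
    refine le_trans (sum_le_sum fun p _ => mul_le_mul_of_nonneg_left (hTT X _) (wt_nonneg A _)) (hpairs.trans ?_)
    apply div_le_div_of_nonneg_left hX0.le (by positivity)
    exact pow_le_pow_right₀ (by linarith) hN
  -- the J conditions
  have hJE : ∀ C0 : ℕ, C0 * C0 ≤ E → ((2 ^ 2 ^ J) ^ (C0 * C0) : ℕ) ≤ ⌊Real.exp (2 * LL X)⌋₊ := by
    intro C0 hC0
    apply Nat.le_floor
    push_cast
    have e1 : Real.exp (2 * LL X) = X ^ (1 / 100 : ℝ) := by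
      rw [Real.rpow_def_of_pos hX0]
      congr 1
      unfold LL
      ring
    rw [e1]
    calc ((2 : ℝ) ^ 2 ^ J) ^ (C0 * C0) ≤ (X ^ (2 * ε₁)) ^ (C0 * C0) := by gcongr
      _ ≤ (X ^ (2 * ε₁)) ^ E := by
          apply pow_le_pow_right₀ _ hC0
          exact Real.one_le_rpow hX1 (by positivity)
      _ = X ^ (2 * ε₁ * E) := by rw [← Real.rpow_natCast, ← Real.rpow_mul hX0.le]
      _ ≤ X ^ (1 / 100 : ℝ) := by
          apply Real.rpow_le_rpow_of_exponent_le hX1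
          rw [le_div_iff₀ (by positivity)] at hεE
          linarith
  set G1 := ∏ p ∈ Y882.PZ Y ε₁, (1 - gh W ps h p) with hG1
  have hPZp : ∀ w : ℝ, ∀ p ∈ Y882.PZ Y w, p.Prime := by
    intro w p hp
    unfold Y882.PZ at hp
    exact (mem_filter.1 hp).2.1
  have hG10 : 0 ≤ G1 := prod_nonneg fun p hp => (gh_le_one W ps h p (hPZp _ p hp)).1
  set PG := ∏ p ∈ N610.AP.PZ X S ps J, (1 - gh W ps h p) with hPG
  have hPG0 : 0 ≤ PG := prod_nonneg fun p hp => (gh_le_one W ps h p (mem_PZ.1 hp).1).1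
  have hPGG : PG ≤ G1 := PG_le_G1 X (by omega) ε₁ S ps J h hJY
  have hLP0 : 0 ≤ LPhi X := by
    have : 0 ≤ X / 200 := by positivity
    linarith
  set M1 := LPhi X / W.totient * G1 with hM1
  have hM10 : 0 ≤ M1 := by positivity
  have hM1P : LPhi X / W.totient * PG ≤ M1 := mul_le_mul_of_nonneg_left hPGG (by positivity)
  obtain ⟨r1, r2, r3⟩ := herr W.totient hφ0 hφX
  set Q := X / ((W.totient : ℝ) * L ^ 4) with hQ
  have hM1low : κ₀ * Q ≤ ε₁ * D / 16 * M1 := by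
    have e1 : cG / 200 * Q ≤ M1 := by
      calc cG / 200 * Q = (X / 200) / W.totient * (cG / L ^ 4) := by rw [hQ]; field_simp
        _ ≤ LPhi X / W.totient * (cG / L ^ 4) := by gcongr
        _ ≤ LPhi X / W.totient * G1 := by
            apply mul_le_mul_of_nonneg_left _ (by positivity)
            exact HG ps S (hGP 6 hZ6) hS h
    calc κ₀ * Q = ε₁ * D / 16 * (cG / 200 * Q) := by rw [hκ₀]; ring
      _ ≤ _ := mul_le_mul_of_nonneg_left e1 (by positivity)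
  have hAL : X / ((W.totient : ℝ) * L ^ A) ≤ X / ((W.totient : ℝ) * L ^ 20) := by
    apply div_le_div_of_nonneg_left hX0.le (by positivity)
    apply mul_le_mul_of_nonneg_left _ hφ0.le
    exact pow_le_pow_right₀ (by linarith) hA
  -- the weights
  obtain ⟨cw, hcw1, hcw2, hcw3, hcw4⟩ := HL Y (Nat.le_floor hXY1)
  have hlogYL : Real.log Y ≤ L := Real.log_le_log (by linarith) f2
  have hlogY0 : 0 < Real.log Y := Real.log_pos (by linarith)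
  have hgh0 : ∀ p ∈ Y882.PZ Y υ, 0 ≤ gh W ps h p := fun p hp => (gh_nn W ps h p (hPZp _ p hp)).1
  have hVlow := hcw4 (gh W ps h) hgh0 (fun p hp => by linarith [(gh_le_one W ps h p (hPZp _ p hp)).1])
    (fun p hp _ => by
      have := (gh_nn W ps h p (hPZp _ p hp)).2
      simpa using this) (HM ps S hps' h hh0 hhL)
  have hmain := HMP ps S hps' hpairsTT h r hr hrh (Y882.PZ Y υ) (hPZp υ) cw (5 * L)
    (fun T => (hcw1 T).trans (by linarith)) (by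
      intro T hT hne
      refine (hcw2 T hT hne).trans ?_
      calc (Y : ℝ) ^ τ' ≤ X ^ τ' := Real.rpow_le_rpow (by positivity) f2 (by linarith)
        _ ≤ X ^ (497 / 1000 : ℝ) := Real.rpow_le_rpow_of_exponent_le hX1 h6)
  set w : ℕ → ℝ := fun n => Phi (n / X) * ArithmeticFunction.vonMangoldt n with hw
  have hw0 : ∀ n, 0 ≤ w n := fun n => mul_nonneg (LSBV.Phi_nonneg _) ArithmeticFunction.vonMangoldt_nonneg
  set Fr := (Icc 1 ⌊3 * X⌋₊).filter (fun n => n ≡ r [MOD W]) with hFr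
  have hℓL : Real.log (3 * X) ≤ 2 * L := by
    rw [Real.log_mul (by norm_num) hX0.ne']
    have : Real.log 3 ≤ Real.log X := Real.log_le_log (by norm_num) (by linarith)
    linarith
  have hℓ0 : 0 ≤ Real.log (3 * X) := Real.log_nonneg (by linarith)
  have hwle : ∀ n ∈ Icc 1 ⌊3 * X⌋₊, w n ≤ 2 * L := by
    intro n hn
    rw [mem_Icc] at hn
    have h1 : ArithmeticFunction.vonMangoldt n ≤ 2 * L := by
      refine ArithmeticFunction.vonMangoldt_le_log.trans (le_trans ?_ hℓL)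
      apply Real.log_le_log (by exact_mod_cast hn.1)
      exact (Nat.le_floor_iff (by linarith)).1 hn.2
    calc w n ≤ 1 * (2 * L) :=
          mul_le_mul (LSBV.Phi_le_one _) h1 ArithmeticFunction.vonMangoldt_nonneg zero_le_one
      _ = _ := one_mul _
  -- lower bound
  set SW := ∑ n ∈ Fr, w n * KW.WW Y ζ υ aw bw (Np ps (n + h)) with hSW
  have hlow : M1 * (ε₁ * (A0 * c₂ - θ)) - 5 * L * (X / ((W.totient : ℝ) * L ^ 20) +
      X ^ (497 / 1000 : ℝ) * (2 * L)) ≤ SW := by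
    have e1 : ∑ n ∈ Fr, w n * VV (Y882.PZ Y υ) cw (fun p => if p ≠ ps ∧ p ∣ n + h then 1 else 0) ≤ SW := by
      apply sum_le_sum
      intro n hn
      apply mul_le_mul_of_nonneg_left _ (hw0 n)
      refine le_trans (le_of_eq ?_) (hcw3 (Np ps (n + h)))
      apply VV_congr
      intro p hp
      have hpp := hPZp _ p hp
      have hN0 : n + h ≠ 0 := by omega
      have h7 := Np_dvd ps (n + h) p hN0 hpp
      have h8 : (p ≠ ps ∧ p ∣ n + h) ↔ p ∣ Np ps (n + h) := by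
        rw [h7]
        constructor
        · exact fun h => Or.inl h
        · rintro (h | ⟨h, h'⟩)
          · exact h
          · refine ⟨?_, h'⟩
            rintro rfl
            exact h hpp
      by_cases h9 : p ∣ Np ps (n + h)
      · rw [if_pos h9, if_pos (h8.2 h9)]
      · rw [if_neg h9, if_neg (fun h => h9 (h8.1 h))]
    have e2 := (abs_le.1 hmain).1
    have e3 : M1 * (ε₁ * (A0 * c₂ - θ)) ≤ LPhi X / W.totient * VV (Y882.PZ Y υ) cw (gh W ps h) := by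
      calc M1 * (ε₁ * (A0 * c₂ - θ)) = LPhi X / W.totient * (ε₁ * (A0 * c₂ - θ) * G1) := by rw [hM1]; ring
        _ ≤ _ := mul_le_mul_of_nonneg_left hVlow (by positivity)
    have e4 : 5 * L * (X / ((W.totient : ℝ) * L ^ A) + X ^ (497 / 1000 : ℝ) * Real.log (3 * X)) ≤
        5 * L * (X / ((W.totient : ℝ) * L ^ 20) + X ^ (497 / 1000 : ℝ) * (2 * L)) := by gcongr
    linarith only [e1, e2, e3, e4]
  -- the six sums
  set tgt := (Icc 1 ⌊3 * X⌋₊).filter (fun n : ℕ => X < n ∧ n.Prime ∧ Gd X (n + h) ∧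
        ∀ z : ℤ, |(z : ℝ)| ≤ c * RR X → z ≠ 0 → z ≠ h →
          ∃ q : ℕ, q.Prime ∧ (q : ℝ) ≤ X ^ δ₁ ∧ (q : ℤ) ∣ n + z) with htgt
  have hJζ : ((2 ^ 2 ^ J : ℕ) : ℝ) < (Y : ℝ) ^ ζ := by
    push_cast
    refine lt_of_le_of_lt hJY2 ?_
    apply Real.rpow_lt_rpow_of_exponent_lt (by linarith)
    linarith
  have hJδ : ((2 ^ 2 ^ J : ℕ) : ℝ) ≤ X ^ δ₁ := by
    push_cast
    refine hJX2.trans (Real.rpow_le_rpow_of_exponent_le hX1 (by linarith))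
  have hyδ : (yy X : ℝ) ≤ X ^ δ₁ := by
    have e1 : (yy X : ℝ) ≤ L / 1000 := Nat.floor_le (by positivity)
    rw [pow_one, one_mul] at hLδ
    linarith
  have hup : SW ≤ ∑ n ∈ Fr, w n * ((if n.Prime ∧ Gd X (n + h) ∧
        (∀ z : ℤ, |(z : ℝ)| ≤ c * RR X → z ≠ 0 → z ≠ h → ∃ q : ℕ, q.Prime ∧ (q : ℝ) ≤ X ^ δ₁ ∧ (q : ℤ) ∣ n + z)
        then 1 else 0) + (if ¬ n.Prime then 1 else 0) +
      (if ps.Prime ∧ ps ∣ n + h ∧ n.Prime ∧ ∀ p ∈ N610.AP.PZ X S ps J, ¬ p ∣ n + h then 1 else 0) +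
      (∑ k ∈ U0, if ∀ p ∈ N610.AP.PZ X S ps J, ¬ p ∣ n + h ∧ ¬ (p : ℤ) ∣ n + (b' + k) then 1 else 0) +
      (if ∃ q ∈ pr Y ζ υ, q ^ 2 ∣ n + h then 1 else 0) +
      σ * (if n.Prime ∧ Sw X (n + h) then 1 else 0)) := by
    apply sum_le_sum
    intro n hn
    rw [hFr, mem_filter] at hn
    by_cases hPhi : Phi (n / X) = 0
    · have : w n = 0 := by simp only [hw]; rw [hPhi, zero_mul]
      rw [this, zero_mul, zero_mul]
    · apply mul_le_mul_of_nonneg_left _ (hw0 n)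
      exact pointwise X (by linarith) ζ υ aw bw σ hσ hb hab Gd Sw c δ₁ hpt ps S J hJζ (by linarith) hJδ hyδ h r hhX
        b' U0 hcov n hn.1 hn.2 (Phi_supp X hX0 n hPhi)
  simp only [mul_add, sum_add_distrib] at hup
  -- (1)
  have b1 : ∑ n ∈ Fr, w n * (if n.Prime ∧ Gd X (n + h) ∧
        (∀ z : ℤ, |(z : ℝ)| ≤ c * RR X → z ≠ 0 → z ≠ h → ∃ q : ℕ, q.Prime ∧ (q : ℝ) ≤ X ^ δ₁ ∧ (q : ℤ) ∣ n + z)
        then 1 else 0) ≤ 2 * L * tgt.card := by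
    have e1 : ∑ n ∈ Fr, w n * (if n.Prime ∧ Gd X (n + h) ∧
        (∀ z : ℤ, |(z : ℝ)| ≤ c * RR X → z ≠ 0 → z ≠ h → ∃ q : ℕ, q.Prime ∧ (q : ℝ) ≤ X ^ δ₁ ∧ (q : ℤ) ∣ n + z)
        then 1 else 0) ≤ ∑ n ∈ Fr, (if n ∈ tgt then 2 * L else 0) := by
      apply sum_le_sum
      intro n hn
      rw [hFr, mem_filter] at hn
      split_ifs with h7 h8 h8
      · rw [mul_one]; exact hwle n hn.1
      · rw [mul_one]
        have hPhi : Phi (n / X) = 0 := by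
          by_contra hc'
          apply h8
          rw [htgt, mem_filter]
          exact ⟨hn.1, Phi_supp X hX0 n hc', h7⟩
        simp only [hw]
        rw [hPhi, zero_mul]
      · rw [mul_zero]; positivity
      · rw [mul_zero]
    refine e1.trans ?_
    rw [← sum_filter, sum_const, nsmul_eq_mul, mul_comm]
    apply mul_le_mul_of_nonneg_left _ (by positivity)
    exact_mod_cast card_le_card (fun n hn => (mem_filter.1 hn).2)
  -- (2)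
  have b2 : ∑ n ∈ Fr, w n * (if ¬ n.Prime then 1 else 0) ≤ 8 * L * X ^ (199 / 200 : ℝ) := by
    have e1 : ∑ n ∈ Fr, w n * (if ¬ n.Prime then (1 : ℝ) else 0) ≤
        ∑ n ∈ (Icc 1 ⌊3 * X⌋₊).filter (fun n => ¬ n.Prime), ArithmeticFunction.vonMangoldt n := by
      rw [hFr, sum_filter, sum_filter]
      apply sum_le_sum
      intro n _
      have h7 : w n ≤ ArithmeticFunction.vonMangoldt n := by
        calc w n ≤ 1 * ArithmeticFunction.vonMangoldt n :=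
              mul_le_mul_of_nonneg_right (LSBV.Phi_le_one _) ArithmeticFunction.vonMangoldt_nonneg
          _ = _ := one_mul _
      have h8 : (0 : ℝ) ≤ ArithmeticFunction.vonMangoldt n := ArithmeticFunction.vonMangoldt_nonneg
      by_cases h9 : n ≡ r [MOD W]
      · by_cases h10 : n.Prime
        · rw [if_pos h9, if_neg (not_not.2 h10), mul_zero, if_neg (not_not.2 h10)]
        · rw [if_pos h9, if_pos h10, mul_one, if_pos h10]
          exact h7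
      · rw [if_neg h9]
        split_ifs
        · exact le_rfl
        · exact h8
    refine e1.trans ((Pool.Agent.H378R2.sum_nonprime_le (3 * X) (by linarith)).trans ?_)
    have e2 : Real.sqrt (3 * X) ≤ 2 * X ^ (199 / 200 : ℝ) := by
      have h7 : Real.sqrt (3 * X) ≤ Real.sqrt (4 * X) := Real.sqrt_le_sqrt (by linarith)
      have h8 : Real.sqrt (4 * X) = 2 * X ^ (1 / 2 : ℝ) := by
        rw [Real.sqrt_mul (by norm_num), ← Real.sqrt_eq_rpow, show (4 : ℝ) = 2 ^ 2 by norm_num,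
          Real.sqrt_sq (by norm_num)]
      have h9 : X ^ (1 / 2 : ℝ) ≤ X ^ (199 / 200 : ℝ) := Real.rpow_le_rpow_of_exponent_le hX1 (by norm_num)
      rw [h8] at h7
      linarith only [h7, h9]
    calc 2 * Real.sqrt (3 * X) * Real.log (3 * X) ≤ 2 * (2 * X ^ (199 / 200 : ℝ)) * (2 * L) := by gcongr
      _ = _ := by ring
  -- (3)
  have b3 : ∑ n ∈ Fr, w n * (if ps.Prime ∧ ps ∣ n + h ∧ n.Prime ∧
      ∀ p ∈ N610.AP.PZ X S ps J, ¬ p ∣ n + h then 1 else 0) ≤ ε₁ * D / 8 * M1 + X ^ (199 / 200 : ℝ) := by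
    by_cases hpp : ps.Prime
    · have e1 := HEX ps S (hGP Ce hZe) hS hpp J hJ1 hJX (hJE Ce (by rw [hE]; omega)) hJL r h hhL
      have e2 : ∑ n ∈ Fr, w n * (if ps.Prime ∧ ps ∣ n + h ∧ n.Prime ∧
          ∀ p ∈ N610.AP.PZ X S ps J, ¬ p ∣ n + h then 1 else 0) =
          ∑ n ∈ (Icc 1 ⌊3 * X⌋₊).filter (fun n => n ≡ r [MOD W] ∧ ps ∣ n + h ∧ n.Prime ∧
            ∀ p ∈ N610.AP.PZ X S ps J, ¬ p ∣ n + h), Phi (n / X) * ArithmeticFunction.vonMangoldt n := by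
        rw [hFr, sum_filter, sum_filter]
        apply sum_congr rfl
        intro n _
        by_cases h7 : n ≡ r [MOD W]
        · by_cases h8 : ps ∣ n + h ∧ n.Prime ∧ ∀ p ∈ N610.AP.PZ X S ps J, ¬ p ∣ n + h
          · rw [if_pos h7, if_pos ⟨hpp, h8⟩, if_pos ⟨h7, h8⟩, mul_one]
          · rw [if_pos h7, if_neg (fun h => h8 h.2), if_neg (fun h => h8 h.2), mul_zero]
        · rw [if_neg h7, if_neg (fun h => h7 h.1)]
      rw [e2]
      refine e1.trans ?_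
      apply add_le_add_left
      have hpsZ : (Z : ℝ) ≤ ps := by
        rcases hps with h | h
        · rw [h] at hpp; exact absurd hpp Nat.not_prime_one
        · exact_mod_cast h.2.le
      have hps0 : (0 : ℝ) < ps := by exact_mod_cast hpp.pos
      have e3 : C2 / ps ≤ ε₁ * D / 8 := by
        rw [div_le_iff₀ hps0]
        have : 8 * C2 / (ε₁ * D) ≤ ps := hZC.trans hpsZ
        rw [div_le_iff₀ (by positivity)] at this
        linarith only [this]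
      exact mul_le_mul e3 hM1P (by positivity) (by positivity)
    · have e1 : ∑ n ∈ Fr, w n * (if ps.Prime ∧ ps ∣ n + h ∧ n.Prime ∧
          ∀ p ∈ N610.AP.PZ X S ps J, ¬ p ∣ n + h then (1 : ℝ) else 0) = 0 := by
        apply sum_eq_zero
        intro n _
        rw [if_neg (fun h => hpp h.1), mul_zero]
      rw [e1]
      positivity
  -- (4)
  have b4 : ∑ n ∈ Fr, w n * (∑ k ∈ U0, if ∀ p ∈ N610.AP.PZ X S ps J, ¬ p ∣ n + h ∧ ¬ (p : ℤ) ∣ n + (b' + k)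
      then 1 else 0) ≤ ε₁ * D / 8 * M1 + 2 * c₃ * L ^ 2 * (X / ((W.totient : ℝ) * L ^ 20)) := by
    simp_rw [mul_sum]
    rw [sum_comm]
    have e1 : ∀ k ∈ U0, ∑ n ∈ Fr, w n * (if ∀ p ∈ N610.AP.PZ X S ps J, ¬ p ∣ n + h ∧ ¬ (p : ℤ) ∣ n + (b' + k)
        then (1 : ℝ) else 0) ≤ C1 * (l / L) * M1 + 2 * L * (X / ((W.totient : ℝ) * L ^ 20)) := by
      intro k hk
      obtain ⟨g1, g2, g3⟩ := hU1 k hk
      have e2 := HSV ps S (hGP Cs hZs) hS hpairsTT J hJ1 hJX (hJE Cs (by rw [hE]; omega)) hJL r h (b' + k) hr hhL (by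
        push_cast
        have := abs_add_le (b' : ℝ) (k : ℝ)
        rw [abs_of_nonneg (Nat.cast_nonneg k : (0 : ℝ) ≤ (k : ℝ))] at this
        have h7 : 0 ≤ L ^ 2 := by positivity
        linarith only [this, h7, g1, hb']) g2 g3
      have e3 : ∑ n ∈ Fr, w n * (if ∀ p ∈ N610.AP.PZ X S ps J, ¬ p ∣ n + h ∧ ¬ (p : ℤ) ∣ n + (b' + k)
        then (1 : ℝ) else 0) = ∑ n ∈ (Icc 1 ⌊3 * X⌋₊).filter (fun n => n ≡ r [MOD W] ∧
        ∀ p ∈ N610.AP.PZ X S ps J, ¬ p ∣ n + h ∧ ¬ (p : ℤ) ∣ n + (b' + k)),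
        Phi (n / X) * ArithmeticFunction.vonMangoldt n := by
        rw [hFr, sum_filter, sum_filter]
        apply sum_congr rfl
        intro n _
        by_cases h7 : n ≡ r [MOD W]
        · by_cases h8 : ∀ p ∈ N610.AP.PZ X S ps J, ¬ p ∣ n + h ∧ ¬ (p : ℤ) ∣ n + (b' + k)
          · rw [if_pos h7, if_pos h8, if_pos ⟨h7, h8⟩, mul_one]
          · rw [if_pos h7, if_neg h8, if_neg (fun h => h8 h.2), mul_zero]
        · rw [if_neg h7, if_neg (fun h => h7 h.1)]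
      rw [e3]
      refine e2.trans ?_
      have hl0 : 0 < l := by linarith
      apply add_le_add
      · exact mul_le_mul_of_nonneg_left hM1P (by positivity)
      · exact mul_le_mul_of_nonneg_left hAL (by positivity)
    refine (sum_le_sum e1).trans ?_
    rw [sum_const, nsmul_eq_mul]
    have hl0 : 0 < l := by linarith
    have e4 : (U0.card : ℝ) ≤ c₃ * L := by
      refine hU0.trans ?_
      exact div_le_self (by positivity) hl1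
    calc (U0.card : ℝ) * (C1 * (l / L) * M1 + 2 * L * (X / ((W.totient : ℝ) * L ^ 20))) =
        (U0.card : ℝ) * (C1 * (l / L) * M1) + (U0.card : ℝ) * (2 * L * (X / ((W.totient : ℝ) * L ^ 20))) := by ring
      _ ≤ (c₃ * L / l) * (C1 * (l / L) * M1) + (c₃ * L) * (2 * L * (X / ((W.totient : ℝ) * L ^ 20))) := by gcongr
      _ = c₃ * C1 * M1 + 2 * c₃ * L ^ 2 * (X / ((W.totient : ℝ) * L ^ 20)) := by
          field_simp
      _ = ε₁ * D / 8 * M1 + 2 * c₃ * L ^ 2 * (X / ((W.totient : ℝ) * L ^ 20)) := by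
          have : c₃ * C1 = ε₁ * D / 8 := by
            rw [hc₃]
            field_simp
          rw [this]
  -- (5)
  have b5 : ∑ n ∈ Fr, w n * (if ∃ q ∈ pr Y ζ υ, q ^ 2 ∣ n + h then 1 else 0) ≤ X ^ (199 / 200 : ℝ) := by
    have e1 : ∑ n ∈ Fr, w n * (if ∃ q ∈ pr Y ζ υ, q ^ 2 ∣ n + h then (1 : ℝ) else 0) ≤
        ∑ n ∈ (Icc 1 ⌊3 * X⌋₊).filter (fun n => ∃ q ∈ pr Y ζ υ, q ^ 2 ∣ n + h),
          Phi (n / X) * ArithmeticFunction.vonMangoldt n := by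
      rw [hFr, sum_filter, sum_filter]
      apply sum_le_sum
      intro n _
      have := hw0 n
      by_cases h7 : ∃ q ∈ pr Y ζ υ, q ^ 2 ∣ n + h
      · rw [if_pos h7, if_pos h7, mul_one]
        split_ifs
        · exact le_rfl
        · exact this
      · rw [if_neg h7, if_neg h7, mul_zero, ite_self]
    refine e1.trans ((HSQ h hhL).trans ?_)
    apply Real.rpow_le_rpow_of_exponent_le hX1
    linarith
  -- (6)
  have b6 : ∑ n ∈ Fr, w n * (σ * (if n.Prime ∧ Sw X (n + h) then 1 else 0)) ≤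
      σ * (ε₁ * (Bs + θ) * M1 + X / ((W.totient : ℝ) * L ^ 10)) := by
    have e1 := HS ps S (hGP Zs hZZ) hS hpairs h r hh0 h2h hhL hr hrh
    have e2 : ∑ n ∈ Fr, w n * (σ * (if n.Prime ∧ Sw X (n + h) then (1 : ℝ) else 0)) =
        σ * ∑ n ∈ (Icc 1 ⌊3 * X⌋₊).filter (fun n => n ≡ r [MOD W] ∧ n.Prime ∧ Sw X (n + h)),
          Phi (n / X) * ArithmeticFunction.vonMangoldt n := by
      rw [hFr, sum_filter, sum_filter, mul_sum]
      apply sum_congr rfl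
      intro n _
      by_cases h7 : n ≡ r [MOD W]
      · by_cases h8 : n.Prime ∧ Sw X (n + h)
        · rw [if_pos h7, if_pos h8, if_pos ⟨h7, h8⟩]
          simp only [hw]
          ring
        · rw [if_pos h7, if_neg h8, if_neg (fun h => h8 h.2)]
          ring
      · rw [if_neg h7, if_neg (fun h => h7 h.1), mul_zero]
    rw [e2]
    exact mul_le_mul_of_nonneg_left e1 hσ
  -- conclusion
  have hXe : X ^ (497 / 1000 : ℝ) ≤ X ^ (199 / 200 : ℝ) := Real.rpow_le_rpow_of_exponent_le hX1 (by norm_num)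
  have hXe2 : X ^ (9 / 10 : ℝ) ≤ X ^ (199 / 200 : ℝ) := Real.rpow_le_rpow_of_exponent_le hX1 (by norm_num)
  have hEp0 : 0 < X ^ (199 / 200 : ℝ) := by positivity
  have hE1' : 5 * L * (X / ((W.totient : ℝ) * L ^ 20) + X ^ (497 / 1000 : ℝ) * (2 * L)) ≤
      5 * L * (X / ((W.totient : ℝ) * L ^ 20)) + 10 * L ^ 2 * X ^ (199 / 200 : ℝ) := by
    have h7 : X ^ (497 / 1000 : ℝ) * (10 * L ^ 2) ≤ X ^ (199 / 200 : ℝ) * (10 * L ^ 2) :=
      mul_le_mul_of_nonneg_right hXe (by positivity)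
    rw [mul_add]
    apply add_le_add le_rfl
    calc 5 * L * (X ^ (497 / 1000 : ℝ) * (2 * L)) = X ^ (497 / 1000 : ℝ) * (10 * L ^ 2) := by ring
      _ ≤ _ := h7
      _ = _ := by ring
  have hg2 : 0 ≤ ε₁ * D * M1 := by positivity
  exact fin_num L M1 ε₁ D (A0 * c₂) θ σ Bs (κ₀ * Q) (X / ((W.totient : ℝ) * L ^ 20))
    (X / ((W.totient : ℝ) * L ^ 10)) (X ^ (199 / 200 : ℝ)) c₃ (tgt.card : ℝ) (X ^ (9 / 10 : ℝ)) SW _ _ _ _ _ _
    hL100 hEp0 (by linarith only [hlow, hE1']) hup b1 b2 b3 b4 b5 b6 hθD hD r1 r2 r3 hM1low hXe2 hg2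

end Pool.Agent.J4H73.CH
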