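import Pool.Agent.J4H73.CH.Asm2
import Pool.Agent.Y882.KW.Alm
import Pool.Agent.Y882.KW.Num

/-! Primes `p` such that `p + h` has at most three prime factors, and all other integers near `p` have small
prime factors. -/

set_option autoImplicit false

open Finset Filter

namespace Pool.Agent.J4H73.CH

open Pool.Agent.H378R2 Pool.Agent.H378R2.LSBV Pool.Agent.N610.AP Pool.Agent.Y882
open Pool.Agent.J4H73.BV
open Pool.Agent.W23.DC (Mer pr SF)
open Pool.Agent

/-- at most `k` prime factors, all of them `≥ X ^ ω` -/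
def AP (k : ℕ) (ω : ℝ) (X : ℝ) (N : ℕ) : Prop :=
  N.primeFactorsList.length ≤ k ∧ ∀ p : ℕ, p.Prime → p ∣ N → X ^ ω ≤ p

open Classical in
theorem p3 : ∀ δ₁ : ℝ, 0 < δ₁ → ∃ c : ℝ, 0 < c ∧ ∀ᶠ X : ℝ in atTop, ∀ h : ℕ, 2 ∣ h → 0 < h → (h : ℝ) ≤ c * RR X →
      X ^ (9 / 10 : ℝ) ≤ (((Icc 1 ⌊3 * X⌋₊).filter (fun n : ℕ => X < n ∧ n.Prime ∧ AP 3 (19 / 100) X (n + h) ∧
        ∀ z : ℤ, |(z : ℝ)| ≤ c * RR X → z ≠ 0 → z ≠ h →
          ∃ q : ℕ, q.Prime ∧ (q : ℝ) ≤ X ^ δ₁ ∧ (q : ℤ) ∣ n + z)).card : ℝ) := by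
  obtain ⟨A0, F, f, hSF⟩ := Pool.Agent.W366.DC.SFX
  obtain ⟨C0, hT1⟩ := TT_h1
  have hlam : (31 : ℝ) / 20 ≤ 1 / (20 / 31) := by norm_num
  have hJ := KW.cond_B (62 / 125) (20 / 31) (by norm_num) (by norm_num) hlam
  have e1 : (2 / 5 * (62 / 125) : ℝ) = 124 / 625 := by norm_num
  have e2 : (9 / 10 * (62 / 125) : ℝ) = 279 / 625 := by norm_num
  rw [e1, e2] at hJ
  refine assemble A0 F f hSF (62 / 125) (124 / 625) (279 / 625) (20 / 31) (20 / 31 / (279 / 625)) (497 / 1000)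
    (by norm_num) (by norm_num) (by norm_num) (by norm_num) (by norm_num) (by norm_num) (by norm_num)
    (by norm_num) (by norm_num) (by norm_num) hJ (by norm_num) le_rfl 20 _ le_rfl le_rfl TT TT_nonneg
    (fun _ _ => le_rfl) 8 C0 hT1 ?_ ?_ (AP 3 (19 / 100)) (fun _ _ => False) 0 0 le_rfl ?_ ?_ ?_
  · intro Z'
    filter_upwards [TT_h2 Z', eventually_ge_atTop 0] with X hX hX0
    obtain ⟨fs, h1, h2⟩ := hX
    refine ⟨fs, h1, fun f g1 g2 g3 g4 => (h2 f g1 g2 g3 g4).trans ?_⟩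
    apply mul_le_mul_of_nonneg_left _ hX0
    apply Real.exp_le_exp.2
    have : 0 ≤ (Real.log (Real.log X)) ^ 6 := Even.pow_nonneg (by decide) _
    linarith
  · filter_upwards [TT_large, eventually_ge_atTop 1] with X hX hX1
    intro F0 F1 h1 h2 h3
    exact (hX F0 F1 h1 h2 h3).trans (Real.rpow_le_rpow_of_exponent_le hX1 (by norm_num))
  · have ev1 : ∀ᶠ X : ℝ in atTop, 8 ≤ X ^ (1 / 25 : ℝ) :=
      (tendsto_rpow_atTop (by norm_num)).eventually_ge_atTop 8
    have ev2 : ∀ᶠ X : ℝ in atTop, 2 ≤ X ^ (1 / 1000 : ℝ) :=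
      (tendsto_rpow_atTop (by norm_num)).eventually_ge_atTop 2
    filter_upwards [floor_facts, eventually_ge_atTop 4, ev1, ev2] with X hf hX4 hev1 hev2
    obtain ⟨f1, f2, f3, f4⟩ := hf
    intro N hN0 hNX
    have hX0 : 0 < X := by linarith
    have hX1 : 1 ≤ X := by linarith
    have n1 : (0 : ℝ) ≤ (if AP 3 (19 / 100) X N then 1 else 0) := by split_ifs <;> norm_num
    have n3 : (0 : ℝ) ≤ (if ∃ q ∈ pr ⌊X⌋₊ (124 / 625) (279 / 625), q ^ 2 ∣ N then 1 else 0) := by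
      split_ifs <;> norm_num
    rw [zero_mul, add_zero]
    by_cases hW : KW.WW ⌊X⌋₊ (124 / 625) (279 / 625) (20 / 31) (20 / 31 / (279 / 625)) N ≤ 0
    · linarith
    push Not at hW
    have hle := KW.WW_le_one ⌊X⌋₊ (124 / 625) (279 / 625) (20 / 31) (20 / 31 / (279 / 625)) (by norm_num)
      (by norm_num) N
    by_cases hsq : ∃ q ∈ pr ⌊X⌋₊ (124 / 625) (279 / 625), q ^ 2 ∣ N
    · rw [if_pos hsq]
      linarith
    · have hYr : (100 : ℝ) ≤ (⌊X⌋₊ : ℝ) := by exact_mod_cast f1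
      have hYhalf : X ^ (999 / 1000 : ℝ) ≤ (⌊X⌋₊ : ℝ) := by
        have h1 : X ^ (999 / 1000 : ℝ) * 2 ≤ X ^ (999 / 1000 : ℝ) * X ^ (1 / 1000 : ℝ) := by gcongr
        rw [← Real.rpow_add hX0] at h1
        norm_num at h1
        linarith
      have h1 := KW.almost ⌊X⌋₊ (by omega) (124 / 625) (279 / 625) (20 / 31) (21 / 20) 3 (by norm_num)
        (by norm_num) (by norm_num) (by norm_num) (by norm_num) N (by omega) (by
          refine hNX.trans ?_
          have h2 : X ^ (25 / 24 : ℝ) ≤ (⌊X⌋₊ : ℝ) ^ (21 / 20 : ℝ) := by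
            calc X ^ (25 / 24 : ℝ) ≤ X ^ (999 / 1000 * (21 / 20) : ℝ) :=
                  Real.rpow_le_rpow_of_exponent_le hX1 (by norm_num)
              _ = (X ^ (999 / 1000 : ℝ)) ^ (21 / 20 : ℝ) := by rw [Real.rpow_mul hX0.le]
              _ ≤ _ := Real.rpow_le_rpow (by positivity) hYhalf (by norm_num)
          refine le_trans ?_ h2
          calc 4 * X ≤ X ^ (1 / 25 : ℝ) * X := by
                apply mul_le_mul_of_nonneg_right _ hX0.le
                linarith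
            _ = X ^ (1 / 25 + 1 : ℝ) := by rw [Real.rpow_add hX0, Real.rpow_one]
            _ ≤ X ^ (25 / 24 : ℝ) := Real.rpow_le_rpow_of_exponent_le hX1 (by norm_num)) hW
        (by push Not at hsq; exact hsq)
      have h2 : AP 3 (19 / 100) X N := by
        refine ⟨h1.1, fun p hp hpN => le_trans ?_ (h1.2 p hp hpN)⟩
        calc X ^ (19 / 100 : ℝ) ≤ X ^ (999 / 1000 * (124 / 625) : ℝ) :=
              Real.rpow_le_rpow_of_exponent_le hX1 (by norm_num)
          _ = (X ^ (999 / 1000 : ℝ)) ^ (124 / 625 : ℝ) := by rw [Real.rpow_mul hX0.le]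
          _ ≤ _ := Real.rpow_le_rpow (by positivity) hYhalf (by norm_num)
      rw [if_pos h2]
      linarith
  · intro θ hθ
    refine ⟨1, one_pos, fun ε₁ hε₁ _ => ⟨0, ?_⟩⟩
    filter_upwards [eventually_ge_atTop 4, LPhi_ge] with X hX4 hLP
    intro ps S _ _ _ h r _ _ _ _ _
    have hX0 : 0 < X := by linarith
    have hLP0 : 0 ≤ LPhi X := by
      have : 0 ≤ X / 200 := by positivity
      linarith
    have hL0 : 0 < Real.log X := Real.log_pos (by linarith)
    have hprod : 0 ≤ ∏ p ∈ Y882.PZ ⌊X⌋₊ ε₁, (1 - gh (H378R2.WW X S ps) ps h p) := by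
      apply prod_nonneg
      intro p hp
      unfold Y882.PZ at hp
      exact (gh_le_one _ ps h p (mem_filter.1 hp).2.1).1
    refine le_trans (le_of_eq (sum_eq_zero ?_)) ?_
    · intro n hn
      simp only [and_false, filter_false, notMem_empty] at hn
    · positivity
  · have h1 : A0 > 0 := hSF.pos
    have h2 : 0 < Real.log (62 / 125 / (124 / 625) - 1) / (62 / 125) -
      ∫ x in (124 / 625 : ℝ)..(279 / 625), (20 / 31 - 20 / 31 / (279 / 625) * x) / (62 / 125 - x) / x := by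
      linarith
    rw [zero_mul]
    positivity

end Pool.Agent.J4H73.CH
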