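import Pool.Agent.J4H73.CH.Exc
import Pool.Agent.J4H73.CH.CoreL

/-! Preparations for the assembly. -/

set_option autoImplicit false

open Finset Filter

namespace Pool.Agent.J4H73.CH

open Pool.Agent.H378R2 Pool.Agent.H378R2.LSBV Pool.Agent.N610.AP Pool.Agent.Y882
open Pool.Agent.J4H73.BV
open Pool.Agent.W23.DC (Mer pr)
open Pool.Agent

theorem floor_facts : ∀ᶠ X : ℝ in atTop, 100 ≤ ⌊X⌋₊ ∧ (⌊X⌋₊ : ℝ) ≤ X ∧ X ≤ 2 * (⌊X⌋₊ : ℝ) ∧
    X ^ (1 / 2 : ℝ) ≤ (⌊X⌋₊ : ℝ) := by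
  filter_upwards [eventually_ge_atTop (101 : ℝ)] with X hX
  have h1 : 100 ≤ ⌊X⌋₊ := Nat.le_floor (by push_cast; linarith)
  have h2 : (⌊X⌋₊ : ℝ) ≤ X := Nat.floor_le (by linarith)
  have h3 : X < (⌊X⌋₊ : ℝ) + 1 := Nat.lt_floor_add_one X
  have h4 : (100 : ℝ) ≤ (⌊X⌋₊ : ℝ) := by exact_mod_cast h1
  refine ⟨h1, h2, by linarith, ?_⟩
  have h5 : X ^ (1 / 2 : ℝ) ≤ X / 2 := by
    rw [← Real.sqrt_eq_rpow, Real.sqrt_le_left (by linarith)]
    nlinarith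
  linarith

theorem mer_gh (ε₁ υ η : ℝ) (hε : 0 < ε₁) (hυ : υ ≤ 1 / 2) (hη : 0 < η) : ∀ᶠ X : ℝ in atTop,
    ∀ (ps : ℕ) (S : Finset ℕ), (ps = 1 ∨ ps.Prime) → ∀ h : ℕ, 0 < h → (h : ℝ) ≤ (Real.log X) ^ 2 →
      Mer (pr ⌊X⌋₊ ε₁ υ) (W23.DC.tt ⌊X⌋₊) (gh (WW X S ps) ps h) ε₁ υ η := by
  classical
  obtain ⟨Y0, H⟩ := mer_gn ε₁ υ η hε (by linarith) hη
  filter_upwards [floor_facts, eventually_ge_atTop (Y0 : ℝ), eventually_ge_atTop 4,
    Pool.Agent.H398R2.BV.ev_log 1 2 (1 / 4) (by norm_num)] with X hf hXY0 hX4 hev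
  intro ps S hps h hh hhL
  obtain ⟨f1, f2, f3, f4⟩ := hf
  have hX0 : 0 < X := by linarith
  have hX1 : 1 ≤ X := by linarith
  set Y := ⌊X⌋₊ with hY
  have hYY0 : Y0 ≤ Y := Nat.le_floor hXY0
  have hYr : (100 : ℝ) ≤ Y := by exact_mod_cast f1
  set W := WW X S ps with hW
  have hW0 : 0 < W := H378R2.WW_pos X S ps
  set ps' : ℕ := if ps.Prime ∧ (ps : ℝ) ≤ (Y : ℝ) ^ (1 / 2 : ℝ) then ps else 1 with hps'
  have hps'0 : 0 < ps' := by
    rw [hps']
    split_ifs with h1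
    · exact h1.1.pos
    · exact one_pos
  have hps'Y : (ps' : ℝ) ≤ (Y : ℝ) ^ (1 / 2 : ℝ) := by
    rw [hps']
    split_ifs with h1
    · exact h1.2
    · push_cast
      exact Real.one_le_rpow (by linarith) (by norm_num)
  have hWX : (W : ℝ) ≤ X ^ (7 / 5000 : ℝ) :=
    le_trans (by exact_mod_cast Nat.le_of_dvd (primorial_pos _) (WW_dvd_primorial X S ps))
      (primorial_yy_le' X hX1)
  set n := W * h * ps' with hn
  have hn1 : 1 ≤ n := Nat.mul_pos (Nat.mul_pos hW0 hh) hps'0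
  have hnY : n ≤ 2 * Y := by
    have h1 : (n : ℝ) ≤ 2 * Y := by
      rw [hn]
      push_cast
      have h2 : (ps' : ℝ) ≤ X ^ (1 / 2 : ℝ) :=
        hps'Y.trans (Real.rpow_le_rpow (by positivity) f2 (by norm_num))
      have h3 : (h : ℝ) ≤ X ^ (1 / 4 : ℝ) := by linarith
      calc (W : ℝ) * h * ps' ≤ X ^ (7 / 5000 : ℝ) * X ^ (1 / 4 : ℝ) * X ^ (1 / 2 : ℝ) := by gcongr
        _ = X ^ (7 / 5000 + 1 / 4 + 1 / 2 : ℝ) := by rw [← Real.rpow_add hX0, ← Real.rpow_add hX0]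
        _ ≤ X ^ (1 : ℝ) := Real.rpow_le_rpow_of_exponent_le hX1 (by norm_num)
        _ = X := Real.rpow_one X
        _ ≤ _ := f3
    exact_mod_cast h1
  have hM := H Y hYY0 n hn1 hnY
  intro a b ha hab hb
  have h1 := hM a b ha hab hb
  have h2 : ∑ p ∈ (pr Y ε₁ υ).filter (fun p => a ≤ W23.DC.tt Y p ∧ W23.DC.tt Y p < b), gn n p =
      ∑ p ∈ (pr Y ε₁ υ).filter (fun p => a ≤ W23.DC.tt Y p ∧ W23.DC.tt Y p < b), gh W ps h p := by
    apply sum_congr rfl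
    intro p hp
    have hp1 := (mem_filter.1 hp).1
    unfold pr at hp1
    rw [mem_filter] at hp1
    obtain ⟨_, hpp, _, hpυ⟩ := hp1
    have hpY : (p : ℝ) < (Y : ℝ) ^ (1 / 2 : ℝ) := by
      refine ((tt_lt Y p υ (by omega) hpp.pos).1 hpυ).trans_le ?_
      exact Real.rpow_le_rpow_of_exponent_le (by linarith) hυ
    have hiff : p ∣ n ↔ (p ∣ W ∨ p = ps ∨ p ∣ h) := by
      rw [hn, hpp.dvd_mul, hpp.dvd_mul]
      have h3 : p ∣ ps' ↔ p = ps := by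
        rw [hps']
        split_ifs with h4
        · exact Nat.prime_dvd_prime_iff_eq hpp h4.1
        · constructor
          · intro h5
            exact absurd (Nat.dvd_one.1 h5) hpp.one_lt.ne'
          · intro h5
            exfalso
            apply h4
            rw [← h5]
            exact ⟨hpp, hpY.le⟩
      rw [h3]
      tauto
    unfold gn gh
    by_cases h3 : p ∣ n
    · rw [if_pos h3, if_pos (hiff.1 h3)]
    · rw [if_neg h3, if_neg (fun h4 => h3 (hiff.2 h4))]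
  rw [h2] at h1
  exact h1

theorem ex_J (ε₁ : ℝ) (hε : 0 < ε₁) (hε1 : ε₁ ≤ 1 / 4) : ∀ᶠ X : ℝ in atTop, ∃ J : ℕ, 1 ≤ J ∧
    (⌊X⌋₊ : ℝ) ^ ε₁ ≤ 2 ^ 2 ^ J ∧ X ^ (ε₁ / 2) ≤ 2 ^ 2 ^ J ∧ (2 : ℝ) ^ 2 ^ J ≤ (⌊X⌋₊ : ℝ) ^ (2 * ε₁) ∧
    (2 : ℝ) ^ 2 ^ J ≤ X ^ (2 * ε₁) ∧
    (J : ℝ) + 2 ≤ 2 * Real.log X := by
  obtain ⟨Y0, H⟩ := exJ ε₁ hε
  filter_upwards [floor_facts, eventually_ge_atTop (Y0 : ℝ), eventually_ge_atTop 100,
    (tendsto_rpow_atTop (show 0 < ε₁ / 2 by linarith)).eventually_ge_atTop 3,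
    Real.tendsto_log_atTop.eventually_ge_atTop 10] with X hf hXY0 hX100 h3 hL
  obtain ⟨f1, f2, f3, f4⟩ := hf
  obtain ⟨J, hJ1, hJ2⟩ := H ⌊X⌋₊ (Nat.le_floor hXY0)
  have hX0 : 0 < X := by linarith
  have hXJ : X ^ (ε₁ / 2) ≤ (2 : ℝ) ^ 2 ^ J := by
    refine le_trans ?_ hJ1
    calc X ^ (ε₁ / 2) = (X ^ (1 / 2 : ℝ)) ^ ε₁ := by
          rw [← Real.rpow_mul hX0.le]
          congr 1
          ring
      _ ≤ _ := Real.rpow_le_rpow (by positivity) f4 hε.le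
  have hJX : (2 : ℝ) ^ 2 ^ J ≤ X ^ (2 * ε₁) :=
    hJ2.trans (Real.rpow_le_rpow (by positivity) f2 (by linarith))
  refine ⟨J, ?_, hJ1, hXJ, hJ2, hJX, ?_⟩
  · by_contra h
    have : J = 0 := by omega
    rw [this] at hXJ
    norm_num at hXJ
    linarith
  · have h1 : (2 : ℝ) ^ J * Real.log 2 ≤ 2 * ε₁ * Real.log X := by
      have h6 := Real.log_le_log (by positivity) hJX
      rw [Real.log_rpow hX0, Real.log_pow] at h6
      push_cast at h6
      exact h6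
    have h2 : (J : ℝ) ≤ 2 ^ J := by exact_mod_cast Nat.lt_two_pow_self.le
    have h4 : (2 : ℝ) ^ J * 0.69 ≤ (2 : ℝ) ^ J * Real.log 2 :=
      mul_le_mul_of_nonneg_left (by linarith [Real.log_two_gt_d9]) (by positivity)
    have h5 : ε₁ * Real.log X ≤ 1 / 4 * Real.log X := mul_le_mul_of_nonneg_right hε1 (by linarith)
    linarith

theorem G1_low (ε₁ : ℝ) : ∃ c : ℝ, 0 < c ∧ ∀ᶠ X : ℝ in atTop,
    ∀ (ps : ℕ) (S : Finset ℕ), GoodP 6 ps → GoodS X S → ∀ h : ℕ,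
      c / (Real.log X) ^ 4 ≤ ∏ p ∈ Y882.PZ ⌊X⌋₊ ε₁, (1 - gh (WW X S ps) ps h p) := by
  classical
  obtain ⟨c, hc, H⟩ := prod_lower 1
  refine ⟨c, hc, ?_⟩
  have t1 := Real.tendsto_log_atTop
  have t2 : Tendsto (fun y : ℝ => Real.log (Real.log y)) atTop atTop := t1.comp t1
  filter_upwards [floor_facts, eventually_ge_atTop 100, t1.eventually_ge_atTop 6000,
    t2.eventually_ge_atTop 7] with X hf hX hL hL2
  obtain ⟨f1, f2, f3, f4⟩ := hf
  intro ps S hps hS h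
  set W := WW X S ps with hW
  have hmem : ∀ p ∈ Y882.PZ ⌊X⌋₊ ε₁, p.Prime ∧ p ≤ ⌊X⌋₊ := by
    intro p hp
    unfold Y882.PZ at hp
    rw [mem_filter, mem_Icc] at hp
    exact ⟨hp.2.1, hp.1.2⟩
  have hsplit : ∏ p ∈ Y882.PZ ⌊X⌋₊ ε₁, (1 - gh W ps h p) =
      ∏ p ∈ (Y882.PZ ⌊X⌋₊ ε₁).filter (fun p => 6 < p), (1 - gh W ps h p) := by
    rw [prod_filter]
    apply prod_congr rfl
    intro p hp
    split_ifs with h1
    · rfl
    · have h2 : p ∈ PW X S ps := Pool.Agent.TH101.RG.small_mem_PW (z := 6) (Z := 6)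
        (by push_cast; linarith) (by push_cast; linarith) hps le_rfl hS (hmem p hp).1 (by omega)
      have h3 : p ∣ W := (prime_dvd_WW (hmem p hp).1).2 h2
      unfold gh
      rw [if_pos (Or.inl h3), sub_zero]
  rw [hsplit]
  have h1 := H ⌊X⌋₊ ((Y882.PZ ⌊X⌋₊ ε₁).filter (fun p => 6 < p)) (fun _ => 1) (by omega) (by
    intro p hp
    rw [mem_filter] at hp
    exact ⟨(hmem p hp.1).1, by omega, (hmem p hp.1).2⟩) (fun p _ => le_rfl)
  have hlogf : 0 < Real.log ⌊X⌋₊ := Real.log_pos (by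
    have : (100 : ℝ) ≤ ⌊X⌋₊ := by exact_mod_cast f1
    linarith)
  have hlogle : Real.log ⌊X⌋₊ ≤ Real.log X := Real.log_le_log (by
    have : (100 : ℝ) ≤ ⌊X⌋₊ := by exact_mod_cast f1
    linarith) f2
  calc c / (Real.log X) ^ 4 ≤ c / (Real.log ⌊X⌋₊) ^ (4 * 1) := by
        rw [mul_one]
        gcongr
    _ ≤ _ := h1
    _ ≤ _ := by
        apply Finset.prod_le_prod
        · intro p hp
          rw [mem_filter] at hp
          have : (6 : ℝ) < p := by exact_mod_cast hp.2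
          rw [Nat.cast_one, one_mul, sub_nonneg, div_le_one (by linarith)]
          linarith
        · intro p hp
          rw [mem_filter] at hp
          rw [Nat.cast_one, one_mul]
          linarith [(gh_nn W ps h p (hmem p hp.1).1).2]

/-- the product over the sieving primes -/
theorem PG_le_G1 (X : ℝ) (hX : 2 ≤ ⌊X⌋₊) (ε₁ : ℝ) (S : Finset ℕ) (ps J h : ℕ)
    (hJ : (⌊X⌋₊ : ℝ) ^ ε₁ ≤ 2 ^ 2 ^ J) :
    ∏ p ∈ N610.AP.PZ X S ps J, (1 - gh (WW X S ps) ps h p) ≤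
      ∏ p ∈ Y882.PZ ⌊X⌋₊ ε₁, (1 - gh (WW X S ps) ps h p) := by
  classical
  set W := WW X S ps with hW
  have hmem : ∀ p ∈ Y882.PZ ⌊X⌋₊ ε₁, p.Prime ∧ (p : ℝ) < (⌊X⌋₊ : ℝ) ^ ε₁ := by
    intro p hp
    unfold Y882.PZ at hp
    rw [mem_filter, mem_Icc] at hp
    exact ⟨hp.2.1, (tt_lt ⌊X⌋₊ p ε₁ hX hp.2.1.pos).1 hp.2.2⟩
  have h1 : ∏ p ∈ Y882.PZ ⌊X⌋₊ ε₁, (1 - gh W ps h p) =
      ∏ p ∈ (Y882.PZ ⌊X⌋₊ ε₁).filter (fun p => p ∈ N610.AP.PZ X S ps J), (1 - gh W ps h p) := by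
    rw [prod_filter]
    apply prod_congr rfl
    intro p hp
    split_ifs with h1
    · rfl
    · obtain ⟨hpp, hpY⟩ := hmem p hp
      have h2 : p ∣ W ∨ p = ps := by
        by_contra hc
        push Not at hc
        apply h1
        rw [mem_PZ]
        refine ⟨hpp, ?_, fun h => hc.1 ((prime_dvd_WW hpp).2 h), hc.2⟩
        have : (p : ℝ) ≤ ((2 ^ 2 ^ J : ℕ) : ℝ) := by
          push_cast
          linarith
        exact_mod_cast this
      unfold gh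
      rw [if_pos, sub_zero]
      rcases h2 with h2 | h2
      · exact Or.inl h2
      · exact Or.inr (Or.inl h2)
  rw [h1]
  have hsub : (Y882.PZ ⌊X⌋₊ ε₁).filter (fun p => p ∈ N610.AP.PZ X S ps J) ⊆ N610.AP.PZ X S ps J := by
    intro p hp
    exact (mem_filter.1 hp).2
  rw [← prod_sdiff hsub]
  calc _ ≤ 1 * ∏ p ∈ (Y882.PZ ⌊X⌋₊ ε₁).filter (fun p => p ∈ N610.AP.PZ X S ps J), (1 - gh W ps h p) := by
        apply mul_le_mul_of_nonneg_right
        · apply prod_le_one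
          · intro p hp
            exact (gh_le_one W ps h p (mem_PZ.1 (mem_sdiff.1 hp).1).1).1
          · intro p hp
            exact (gh_le_one W ps h p (mem_PZ.1 (mem_sdiff.1 hp).1).1).2
        · exact prod_nonneg fun p hp => (gh_le_one W ps h p (mem_PZ.1 (hsub hp)).1).1
    _ = _ := one_mul _

open Classical in
/-- the squares -/
theorem squares (ζ υ : ℝ) (hζ : 0 < ζ) (hυ : υ ≤ 1 / 2) : ∀ᶠ X : ℝ in atTop, ∀ h : ℕ,
    (h : ℝ) ≤ (Real.log X) ^ 2 →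
    ∑ n ∈ (Icc 1 ⌊3 * X⌋₊).filter (fun n => ∃ q ∈ pr ⌊X⌋₊ ζ υ, q ^ 2 ∣ n + h),
      Phi (n / X) * ArithmeticFunction.vonMangoldt n ≤ X ^ (1 - ζ / 4) := by
  filter_upwards [floor_facts, eventually_ge_atTop 100,
    Pool.Agent.H398R2.BV.ev_log 16 1 (ζ / 4) (by positivity),
    Pool.Agent.H398R2.BV.ev_log 1 2 1 (by norm_num)] with X hf hX100 hev hev2
  obtain ⟨f1, f2, f3, f4⟩ := hf
  intro h hh
  have hX0 : 0 < X := by linarith
  have hX1 : 1 ≤ X := by linarith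
  set L := Real.log X with hL
  have hL0 : 0 < L := Real.log_pos (by linarith)
  set Y := ⌊X⌋₊ with hY
  have hYr : (100 : ℝ) ≤ Y := by exact_mod_cast f1
  have hℓL : Real.log (3 * X) ≤ 2 * L := by
    rw [Real.log_mul (by norm_num) hX0.ne']
    have : Real.log 3 ≤ Real.log X := Real.log_le_log (by norm_num) (by linarith)
    linarith
  set F := (Icc 1 ⌊3 * X⌋₊).filter (fun n => ∃ q ∈ pr Y ζ υ, q ^ 2 ∣ n + h) with hF
  have h1 : ∀ n ∈ F, Phi (n / X) * ArithmeticFunction.vonMangoldt n ≤ 2 * L := by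
    intro n hn
    rw [hF, mem_filter, mem_Icc] at hn
    have h1 : ArithmeticFunction.vonMangoldt n ≤ 2 * L := by
      refine ArithmeticFunction.vonMangoldt_le_log.trans (le_trans ?_ hℓL)
      apply Real.log_le_log (by exact_mod_cast hn.1.1)
      exact (Nat.le_floor_iff (by linarith)).1 hn.1.2
    calc Phi (n / X) * ArithmeticFunction.vonMangoldt n ≤ 1 * (2 * L) :=
          mul_le_mul (LSBV.Phi_le_one _) h1 ArithmeticFunction.vonMangoldt_nonneg zero_le_one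
      _ = _ := one_mul _
  refine (sum_le_sum h1).trans ?_
  rw [sum_const, nsmul_eq_mul]
  have hq : ∀ q ∈ pr Y ζ υ, q.Prime ∧ (Y : ℝ) ^ ζ ≤ q := by
    intro q hq
    unfold pr at hq
    rw [mem_filter] at hq
    refine ⟨hq.2.1, ?_⟩
    by_contra hc
    push Not at hc
    have := (tt_lt Y q ζ (by omega) hq.2.1.pos).2 hc
    linarith [hq.2.2.1]
  have hcard : (F.card : ℝ) ≤ ∑ q ∈ pr Y ζ υ, 4 * X / (q : ℝ) ^ 2 := by
    have e1 : F ⊆ (pr Y ζ υ).biUnion (fun q => (Icc 1 ⌊3 * X⌋₊).filter (fun n => q ^ 2 ∣ n + h)) := by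
      intro n hn
      rw [hF, mem_filter] at hn
      rw [mem_biUnion]
      obtain ⟨q, hq1, hq2⟩ := hn.2
      exact ⟨q, hq1, by rw [mem_filter]; exact ⟨hn.1, hq2⟩⟩
    have e2 := (card_le_card e1).trans card_biUnion_le
    have e3 : (F.card : ℝ) ≤ ∑ q ∈ pr Y ζ υ, (((Icc 1 ⌊3 * X⌋₊).filter (fun n => q ^ 2 ∣ n + h)).card : ℝ) := by
      exact_mod_cast e2
    refine e3.trans (sum_le_sum ?_)
    intro q hq1
    have hq0 : 0 < q := (hq q hq1).1.pos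
    have h2 : ((Icc 1 ⌊3 * X⌋₊).filter (fun n => q ^ 2 ∣ n + h)).card ≤ (⌊3 * X⌋₊ + h) / q ^ 2 := by
      have h3 : ((Icc 1 ⌊3 * X⌋₊).filter (fun n => q ^ 2 ∣ n + h)).card ≤
          ((Ioc 0 (⌊3 * X⌋₊ + h)).filter (fun m => q ^ 2 ∣ m)).card := by
        apply card_le_card_of_injOn (fun n => n + h)
        · intro n hn
          rw [mem_coe, mem_filter, mem_Icc] at hn
          rw [mem_coe, mem_filter, mem_Ioc]
          refine ⟨⟨?_, ?_⟩, hn.2⟩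
          · show 0 < n + h
            omega
          · show n + h ≤ ⌊3 * X⌋₊ + h
            omega
        · intro a _ b _ hab
          have : a + h = b + h := hab
          omega
      rwa [Nat.Ioc_filter_dvd_card_eq_div] at h3
    have e4 : ((⌊3 * X⌋₊ + h : ℕ) : ℝ) ≤ 4 * X := by
      push_cast
      have h1 : (⌊3 * X⌋₊ : ℝ) ≤ 3 * X := Nat.floor_le (by linarith)
      rw [Real.rpow_one, one_mul] at hev2
      linarith
    calc (((Icc 1 ⌊3 * X⌋₊).filter (fun n => q ^ 2 ∣ n + h)).card : ℝ) ≤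
        (((⌊3 * X⌋₊ + h) / q ^ 2 : ℕ) : ℝ) := by exact_mod_cast h2
      _ ≤ ((⌊3 * X⌋₊ + h : ℕ) : ℝ) / ((q ^ 2 : ℕ) : ℝ) := Nat.cast_div_le
      _ ≤ 4 * X / (q : ℝ) ^ 2 := by
          push_cast at e4 ⊢
          gcongr
  have hsum : ∑ q ∈ pr Y ζ υ, 4 * X / (q : ℝ) ^ 2 ≤ 4 * X * (2 / (Y : ℝ) ^ ζ) := by
    have hYζ : (1 : ℝ) ≤ (Y : ℝ) ^ ζ := Real.one_le_rpow (by linarith) hζ.le
    set k := ⌈(Y : ℝ) ^ ζ⌉₊ with hk
    have hk1 : 1 ≤ k := Nat.one_le_iff_ne_zero.2 (by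
      rw [hk]
      intro h0
      rw [Nat.ceil_eq_zero] at h0
      linarith)
    have hsub : pr Y ζ υ ⊆ Ioc (k - 1) Y := by
      intro q hq1
      rw [mem_Ioc]
      have h2 := (hq q hq1).2
      have h3 : k ≤ q := Nat.ceil_le.2 h2
      unfold pr at hq1
      rw [mem_filter, mem_Icc] at hq1
      omega
    have e1 : ∑ q ∈ pr Y ζ υ, 4 * X / (q : ℝ) ^ 2 = 4 * X * ∑ q ∈ pr Y ζ υ, 1 / (q : ℝ) ^ 2 := by
      rw [mul_sum]
      apply sum_congr rfl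
      intro q _
      ring
    rw [e1]
    apply mul_le_mul_of_nonneg_left _ (by positivity)
    -- telescoping
    have e2 : ∀ q ∈ pr Y ζ υ, 1 / (q : ℝ) ^ 2 ≤ 1 / ((q : ℝ) - 1) - 1 / (q : ℝ) := by
      intro q hq1
      have h2 : (2 : ℝ) ≤ q := by exact_mod_cast (hq q hq1).1.two_le
      have h3 : (0 : ℝ) < (q : ℝ) - 1 := by linarith
      rw [div_sub_div _ _ h3.ne' (by linarith), div_le_div_iff₀ (by positivity) (by positivity)]
      nlinarith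
    have e3 : ∀ m : ℕ, 1 ≤ m → ∀ M : ℕ, m ≤ M → ∑ q ∈ Ioc m M, (1 / ((q : ℝ) - 1) - 1 / (q : ℝ)) =
        1 / (m : ℝ) - 1 / (M : ℝ) := by
      intro m hm M hM
      induction M, hM using Nat.le_induction with
      | base => simp
      | succ M hM ih =>
        rw [Finset.sum_Ioc_succ_top (by omega), ih]
        push_cast
        ring
    by_cases hk2 : k - 1 = 0
    · -- then Y^ζ ≤ 1
      have h2 : k = 1 := by omega
      have h3 : (Y : ℝ) ^ ζ ≤ 1 := by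
        have := Nat.le_ceil ((Y : ℝ) ^ ζ)
        rw [← hk, h2] at this
        simpa using this
      have h4 : (Y : ℝ) ^ ζ = 1 := le_antisymm h3 hYζ
      rw [h4]
      have e4 : ∑ q ∈ pr Y ζ υ, 1 / (q : ℝ) ^ 2 ≤ ∑ q ∈ Ioc 1 Y, (1 / ((q : ℝ) - 1) - 1 / (q : ℝ)) := by
        refine (sum_le_sum e2).trans ?_
        apply sum_le_sum_of_subset_of_nonneg
        · intro q hq1
          have := hsub hq1
          rw [mem_Ioc] at this ⊢
          exact ⟨(hq q hq1).1.one_lt, this.2⟩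
        · intro q hq1 _
          rw [mem_Ioc] at hq1
          have h2 : (2 : ℝ) ≤ q := by exact_mod_cast hq1.1
          rw [sub_nonneg]
          apply one_div_le_one_div_of_le <;> linarith
      rw [e3 1 le_rfl Y (by omega)] at e4
      have h5 : 0 ≤ ((Y : ℝ))⁻¹ := by positivity
      norm_num at e4 ⊢
      linarith
    · have hk1' : 1 ≤ k - 1 := by omega
      have hkY : k - 1 ≤ Y ∨ Y < k - 1 := by omega
      have e4 : ∑ q ∈ pr Y ζ υ, 1 / (q : ℝ) ^ 2 ≤ 1 / ((k - 1 : ℕ) : ℝ) := by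
        rcases hkY with hkY | hkY
        · have e5 : ∑ q ∈ pr Y ζ υ, 1 / (q : ℝ) ^ 2 ≤ ∑ q ∈ Ioc (k - 1) Y, (1 / ((q : ℝ) - 1) - 1 / (q : ℝ)) := by
            refine (sum_le_sum e2).trans ?_
            apply sum_le_sum_of_subset_of_nonneg hsub
            intro q hq1 _
            rw [mem_Ioc] at hq1
            have h2 : (2 : ℝ) ≤ q := by exact_mod_cast (by omega : 2 ≤ q)
            rw [sub_nonneg]
            apply one_div_le_one_div_of_le <;> linarith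
          rw [e3 (k - 1) hk1' Y hkY] at e5
          have : 0 ≤ 1 / (Y : ℝ) := by positivity
          linarith
        · have : pr Y ζ υ = ∅ := by
            rw [← subset_empty]
            refine hsub.trans ?_
            rw [Ioc_eq_empty (by omega)]
          rw [this, sum_empty]
          positivity
      refine e4.trans ?_
      have h2 : (Y : ℝ) ^ ζ ≤ k := Nat.le_ceil _
      have h3 : (2 : ℝ) ≤ k := by exact_mod_cast (by omega : 2 ≤ k)
      have h4 : ((k - 1 : ℕ) : ℝ) = (k : ℝ) - 1 := by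
        rw [Nat.cast_sub hk1, Nat.cast_one]
      rw [h4, div_le_div_iff₀ (by linarith) (by positivity)]
      linarith
  have hYX : X ^ (ζ / 2) ≤ (Y : ℝ) ^ ζ := by
    calc X ^ (ζ / 2) = (X ^ (1 / 2 : ℝ)) ^ ζ := by
          rw [← Real.rpow_mul hX0.le]
          congr 1
          ring
      _ ≤ _ := Real.rpow_le_rpow (by positivity) f4 hζ.le
  have hc1 : (F.card : ℝ) ≤ 8 * X ^ (1 - ζ / 2) := by
    calc (F.card : ℝ) ≤ 4 * X * (2 / (Y : ℝ) ^ ζ) := hcard.trans hsum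
      _ ≤ 4 * X * (2 / X ^ (ζ / 2)) := by gcongr
      _ = 8 * (X / X ^ (ζ / 2)) := by ring
      _ = 8 * X ^ (1 - ζ / 2) := by
          rw [Real.rpow_sub hX0, Real.rpow_one]
  rw [pow_one] at hev
  calc (F.card : ℝ) * (2 * L) ≤ 8 * X ^ (1 - ζ / 2) * (2 * L) := by gcongr
    _ = (16 * L) * X ^ (1 - ζ / 2) := by ring
    _ ≤ X ^ (ζ / 4) * X ^ (1 - ζ / 2) := by gcongr
    _ = X ^ (1 - ζ / 4) := by
        rw [← Real.rpow_add hX0]
        congr 1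
        ring

end Pool.Agent.J4H73.CH
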