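import Pool.Agent.J4H73.CH.Cov

set_option autoImplicit false

/-! # The covering for two points -/

namespace Pool.Agent.J4H73.CH

open Finset Filter
open Pool.Agent.H378R2
open Pool.Agent.TH101.RG

theorem cover2 (c₃ : ℝ) (hc₃ : 0 < c₃) : ∃ c : ℝ, 0 < c ∧
    ∀ᶠ X : ℝ in atTop, ∀ (ps : ℕ) (S : Finset ℕ), GoodP 2 ps → GoodS X S →
    ∀ h : ℕ, 2 ∣ h →
    ∃ (r : ℕ) (b' : ℤ) (U0 : Finset ℕ), r.Coprime (WW X S ps) ∧ (r + h).Coprime (WW X S ps) ∧
      (U0.card : ℝ) ≤ c₃ * Real.log X / Real.log (Real.log X) ∧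
      (∀ k ∈ U0, (k : ℝ) ≤ (Real.log X) ^ 2 ∧ b' + k ≠ 0 ∧ b' + k ≠ h) ∧
      |(b' : ℝ)| ≤ (Real.log X) ^ 2 ∧
      ∀ m : ℤ, |(m : ℝ)| ≤ c * RR X → m ≠ 0 → m ≠ h → (∃ k ∈ U0, m = b' + k) ∨
        (∃ p : ℕ, p.Prime ∧ p ≤ yy X ∧
          ∀ n : ℕ, n ≡ r [MOD WW X S ps] → (p : ℤ) ∣ n + m) := by
  obtain ⟨c, hc, H⟩ := coverR 2 0 0 le_rfl c₃ hc₃
  refine ⟨c, hc, ?_⟩
  filter_upwards [H, eventually_ge_atTop 4] with X H hX4
  intro ps S hps hS h h2
  obtain ⟨r, b', U0, g1, g2, g3, g4, -, g6⟩ := H ps S hps hS 1 1 one_ne_zero (by norm_num) (by simp)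
    (by simp) 0 ![0, h] (fun p => if p ∣ h + 1 then 2 else 1) (by
      intro p hp _ j hd
      fin_cases j
      · simp only [Fin.zero_eta, Matrix.cons_val_zero, add_zero] at hd
        split_ifs at hd with h1
        · have h3 := (Nat.prime_dvd_prime_iff_eq hp Nat.prime_two).1 hd
          subst h3
          omega
        · exact hp.one_lt.ne' (Nat.dvd_one.1 hd)
      · simp only [Fin.mk_one, Matrix.cons_val_one] at hd
        simp only [Matrix.cons_val_fin_one] at hd
        split_ifs at hd with h1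
        · have h3 : p ∣ 1 := by
            have := (Nat.dvd_sub hd h1)
            have e : (2 + h) - (h + 1) = 1 := by omega
            rwa [e] at this
          exact hp.one_lt.ne' (Nat.dvd_one.1 h3)
        · exact h1 (by rw [add_comm]; exact hd))
  refine ⟨r, b', U0, ?_, ?_, g2, ?_, ?_, ?_⟩
  · have := g1 0
    simpa using this
  · have := g1 1
    simpa using this
  · intro k hk
    obtain ⟨a1, a2⟩ := g3 k hk
    refine ⟨a1, ?_, ?_⟩
    · have := a2 0
      simpa using this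
    · have := a2 1
      simpa using this
  · simpa using g4
  · intro m hm hm0 hmh
    rcases g6 m hm (by
      intro j
      fin_cases j
      · simpa using hm0
      · simpa using hmh) with ⟨k, hk, h1⟩ | ⟨p, hp, hpy, -, h1⟩
    · left
      exact ⟨k, hk, by simpa using h1⟩
    · right
      refine ⟨p, hp, hpy, fun n hn => ?_⟩
      have := h1 n hn
      simpa using this

end Pool.Agent.J4H73.CH
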