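import Pool.Agent.J4H73.CH.Pre
import Pool.Agent.J4H73.CH.Cov2
import Pool.Agent.Y882.KW.Core4

/-! The assembly. -/

set_option autoImplicit false
set_option maxHeartbeats 4000000

open Finset Filter

namespace Pool.Agent.J4H73.CH

open Pool.Agent.H378R2 Pool.Agent.H378R2.LSBV Pool.Agent.N610.AP Pool.Agent.Y882
open Pool.Agent.J4H73.BV
open Pool.Agent.W23.DC (Mer pr SF)
open Pool.Agent

/-- the number without its exceptional part -/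
def Np (ps N : ℕ) : ℕ := if ps.Prime then N / ps ^ N.factorization ps else N

theorem Np_dvd (ps N p : ℕ) (hN : N ≠ 0) (hp : p.Prime) : p ∣ Np ps N ↔ (p ≠ ps ∧ p ∣ N) ∨ (¬ ps.Prime ∧ p ∣ N) := by
  unfold Np
  split_ifs with h
  · have h1 := Nat.ordProj_mul_ordCompl_eq_self N ps
    constructor
    · intro h2
      left
      refine ⟨?_, ?_⟩
      · rintro rfl
        exact Nat.not_dvd_ordCompl h hN h2
      · rw [← h1]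
        exact h2.mul_left _
    · rintro (⟨h2, h3⟩ | ⟨h2, _⟩)
      · rw [← h1] at h3
        rcases (Nat.Prime.dvd_mul hp).1 h3 with h4 | h4
        · exact absurd ((Nat.prime_dvd_prime_iff_eq hp h).1 (hp.dvd_of_dvd_pow h4)) h2
        · exact h4
      · exact absurd h h2
  · constructor
    · intro h2
      exact Or.inr ⟨h, h2⟩
    · rintro (⟨_, h2⟩ | ⟨_, h2⟩)
      · exact h2
      · exact h2

theorem Np_eq (ps N : ℕ) (h : ps.Prime → ¬ ps ∣ N) : Np ps N = N := by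
  unfold Np
  split_ifs with h1
  · rw [Nat.factorization_eq_zero_of_not_dvd (h h1), pow_zero, Nat.div_one]
  · rfl

open Classical in
/-- the pointwise inequality -/
theorem pointwise (X : ℝ) (hX0 : 2 ≤ X) (ζ υ aw bw σ : ℝ) (hσ : 0 ≤ σ) (hb : 0 ≤ bw) (hab : bw * υ ≤ aw)
    (Gd Sw : ℝ → ℕ → Prop) (c δ₁ : ℝ)
    (hpt : ∀ N : ℕ, 0 < N → (N : ℝ) ≤ 4 * X → KW.WW ⌊X⌋₊ ζ υ aw bw N ≤
        (if Gd X N then 1 else 0) + σ * (if Sw X N then 1 else 0) +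
          (if ∃ q ∈ pr ⌊X⌋₊ ζ υ, q ^ 2 ∣ N then 1 else 0))
    (ps : ℕ) (S : Finset ℕ) (J : ℕ) (hJζ : ((2 ^ 2 ^ J : ℕ) : ℝ) < (⌊X⌋₊ : ℝ) ^ ζ)
    (hζ1 : ζ ≤ 1)
    (hJδ : ((2 ^ 2 ^ J : ℕ) : ℝ) ≤ X ^ δ₁) (hyδ : (yy X : ℝ) ≤ X ^ δ₁)
    (h r : ℕ) (hh : (h : ℝ) ≤ X / 2) (b' : ℤ) (U0 : Finset ℕ)
    (hcov : ∀ m : ℤ, |(m : ℝ)| ≤ c * RR X → m ≠ 0 → m ≠ h → (∃ k ∈ U0, m = b' + k) ∨
        (∃ p : ℕ, p.Prime ∧ p ≤ yy X ∧ ∀ n : ℕ, n ≡ r [MOD WW X S ps] → (p : ℤ) ∣ n + m))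
    (n : ℕ) (hn : n ∈ Icc 1 ⌊3 * X⌋₊) (hnr : n ≡ r [MOD WW X S ps]) (hXn : X < n) :
    KW.WW ⌊X⌋₊ ζ υ aw bw (Np ps (n + h)) ≤
      (if n.Prime ∧ Gd X (n + h) ∧
        (∀ z : ℤ, |(z : ℝ)| ≤ c * RR X → z ≠ 0 → z ≠ h → ∃ q : ℕ, q.Prime ∧ (q : ℝ) ≤ X ^ δ₁ ∧ (q : ℤ) ∣ n + z)
        then 1 else 0) + (if ¬ n.Prime then 1 else 0) +
      (if ps.Prime ∧ ps ∣ n + h ∧ n.Prime ∧ ∀ p ∈ N610.AP.PZ X S ps J, ¬ p ∣ n + h then 1 else 0) +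
      (∑ k ∈ U0, if ∀ p ∈ N610.AP.PZ X S ps J, ¬ p ∣ n + h ∧ ¬ (p : ℤ) ∣ n + (b' + k) then 1 else 0) +
      (if ∃ q ∈ pr ⌊X⌋₊ ζ υ, q ^ 2 ∣ n + h then 1 else 0) +
      σ * (if n.Prime ∧ Sw X (n + h) then 1 else 0) := by
  rw [mem_Icc] at hn
  have hfl : 2 ≤ ⌊X⌋₊ := Nat.le_floor (by push_cast; exact hX0)
  have hflr : (2 : ℝ) ≤ ⌊X⌋₊ := by exact_mod_cast hfl
  have hNh : n + h ≠ 0 := by omega
  have hNX : ((n + h : ℕ) : ℝ) ≤ 4 * X := by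
    have : (n : ℝ) ≤ 3 * X := (Nat.le_floor_iff (by linarith)).1 hn.2
    push_cast
    linarith
  -- nonnegativity
  have n1 : (0 : ℝ) ≤ (if n.Prime ∧ Gd X (n + h) ∧
        (∀ z : ℤ, |(z : ℝ)| ≤ c * RR X → z ≠ 0 → z ≠ h → ∃ q : ℕ, q.Prime ∧ (q : ℝ) ≤ X ^ δ₁ ∧ (q : ℤ) ∣ n + z)
        then 1 else 0) := by split_ifs <;> norm_num
  have n2 : (0 : ℝ) ≤ (if ¬ n.Prime then 1 else 0) := by split_ifs <;> norm_num
  have n3 : (0 : ℝ) ≤ (if ps.Prime ∧ ps ∣ n + h ∧ n.Prime ∧ ∀ p ∈ N610.AP.PZ X S ps J, ¬ p ∣ n + h then 1 else 0) := by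
    split_ifs <;> norm_num
  have n4 : (0 : ℝ) ≤ (∑ k ∈ U0, if ∀ p ∈ N610.AP.PZ X S ps J, ¬ p ∣ n + h ∧ ¬ (p : ℤ) ∣ n + (b' + k) then 1 else 0) :=
    sum_nonneg fun k _ => by split_ifs <;> norm_num
  have n5 : (0 : ℝ) ≤ (if ∃ q ∈ pr ⌊X⌋₊ ζ υ, q ^ 2 ∣ n + h then 1 else 0) := by split_ifs <;> norm_num
  have n6 : (0 : ℝ) ≤ σ * (if n.Prime ∧ Sw X (n + h) then 1 else 0) := by
    apply mul_nonneg hσ
    split_ifs <;> norm_num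
  by_cases hW : KW.WW ⌊X⌋₊ ζ υ aw bw (Np ps (n + h)) ≤ 0
  · linarith
  push Not at hW
  have hle1 := KW.WW_le_one ⌊X⌋₊ ζ υ aw bw hb hab (Np ps (n + h))
  have hrough : ∀ p ∈ Y882.PZ ⌊X⌋₊ ζ, ¬ p ∣ Np ps (n + h) := by
    by_contra hc
    unfold KW.WW at hW
    rw [if_neg hc, zero_mul] at hW
    exact lt_irrefl _ hW
  have hRA : ∀ p ∈ N610.AP.PZ X S ps J, ¬ p ∣ n + h := by
    intro p hp hd
    obtain ⟨hpp, hp1, hp2, hp3⟩ := mem_PZ.1 hp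
    have hpY : (p : ℝ) < (⌊X⌋₊ : ℝ) ^ ζ := lt_of_le_of_lt (by exact_mod_cast hp1) hJζ
    apply hrough p
    · unfold Y882.PZ
      rw [mem_filter, mem_Icc]
      refine ⟨⟨hpp.one_lt.le, ?_⟩, hpp, (tt_lt ⌊X⌋₊ p ζ hfl hpp.pos).2 hpY⟩
      have h1 : (⌊X⌋₊ : ℝ) ^ ζ ≤ ⌊X⌋₊ := by
        calc (⌊X⌋₊ : ℝ) ^ ζ ≤ (⌊X⌋₊ : ℝ) ^ (1 : ℝ) := Real.rpow_le_rpow_of_exponent_le (by linarith) hζ1
          _ = _ := Real.rpow_one _
      exact_mod_cast (hpY.le.trans h1)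
    · rw [Np_dvd ps (n + h) p hNh hpp]
      exact Or.inl ⟨hp3, hd⟩
  by_cases hpr : n.Prime
  · by_cases hpsd : ps.Prime ∧ ps ∣ n + h
    · rw [if_pos (show ps.Prime ∧ ps ∣ n + h ∧ n.Prime ∧ ∀ p ∈ N610.AP.PZ X S ps J, ¬ p ∣ n + h from
        ⟨hpsd.1, hpsd.2, hpr, hRA⟩)]
      linarith
    · have hN' : Np ps (n + h) = n + h := Np_eq ps (n + h) (fun h1 h2 => hpsd ⟨h1, h2⟩)
      rw [hN'] at hle1 hrough hW ⊢
      by_cases hsv : ∃ k ∈ U0, ∀ p ∈ N610.AP.PZ X S ps J, ¬ p ∣ n + h ∧ ¬ (p : ℤ) ∣ n + (b' + k)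
      · obtain ⟨k, hk, hk2⟩ := hsv
        have h7 : (1 : ℝ) ≤ ∑ k ∈ U0, if ∀ p ∈ N610.AP.PZ X S ps J, ¬ p ∣ n + h ∧ ¬ (p : ℤ) ∣ n + (b' + k) then 1 else 0 := by
          have h8 := single_le_sum (f := fun k : ℕ => (if ∀ p ∈ N610.AP.PZ X S ps J, ¬ p ∣ n + h ∧
            ¬ (p : ℤ) ∣ n + (b' + k) then (1 : ℝ) else 0)) (fun j _ => by split_ifs <;> norm_num) hk
          rw [if_pos hk2] at h8
          exact h8
        linarith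
      · have hwin : ∀ z : ℤ, |(z : ℝ)| ≤ c * RR X → z ≠ 0 → z ≠ h →
            ∃ q : ℕ, q.Prime ∧ (q : ℝ) ≤ X ^ δ₁ ∧ (q : ℤ) ∣ n + z := by
          intro z hz hz0 hzh
          rcases hcov z hz hz0 hzh with ⟨k, hk, hzk⟩ | ⟨p, hpp, hpy, hpd⟩
          · push Not at hsv
            obtain ⟨p, hp, hpc⟩ := hsv k hk
            have hpz := mem_PZ.1 hp
            refine ⟨p, hpz.1, ?_, ?_⟩
            · refine le_trans ?_ hJδ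
              exact_mod_cast hpz.2.1
            · rw [hzk]
              exact hpc (hRA p hp)
          · refine ⟨p, hpp, ?_, hpd n hnr⟩
            refine le_trans ?_ hyδ
            exact_mod_cast hpy
        have h1 := hpt (n + h) (Nat.pos_of_ne_zero hNh) hNX
        have e1 : (if n.Prime ∧ Gd X (n + h) ∧
            (∀ z : ℤ, |(z : ℝ)| ≤ c * RR X → z ≠ 0 → z ≠ h → ∃ q : ℕ, q.Prime ∧ (q : ℝ) ≤ X ^ δ₁ ∧ (q : ℤ) ∣ n + z)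
            then (1 : ℝ) else 0) = if Gd X (n + h) then 1 else 0 := by
          by_cases hg : Gd X (n + h)
          · rw [if_pos ⟨hpr, hg, hwin⟩, if_pos hg]
          · rw [if_neg (fun h => hg h.2.1), if_neg hg]
        have e2 : (if n.Prime ∧ Sw X (n + h) then (1 : ℝ) else 0) = if Sw X (n + h) then 1 else 0 := by
          by_cases hg : Sw X (n + h)
          · rw [if_pos ⟨hpr, hg⟩, if_pos hg]
          · rw [if_neg (fun h => hg h.2), if_neg hg]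
        rw [e1] at n1 ⊢
        rw [e2] at n6 ⊢
        linarith
  · rw [if_pos hpr]
    linarith

end Pool.Agent.J4H73.CH
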