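import Pool.Agent.J4H73.CH.Lsw

/-! Universal weights of the upper bound linear sieve, with the constants. -/

set_option autoImplicit false

open Finset Filter

namespace Pool.Agent.J4H73.CH

open Pool.Agent.W23.DC Pool.Agent.Y882 Pool.Agent.Y882.KW

open Classical in
/-- universal weights of the upper bound linear sieve -/
theorem coreU (A0 : ℝ) (F f : ℝ → ℝ) (hSF : SF A0 F f) (κ : ℕ) (τ υ τ' : ℝ) (hυ0 : 0 < υ)
    (h3 : τ ≤ 3 * υ) (hυτ : υ ≤ τ) (hτ : τ ≤ 1) (h5 : τ < τ') (θ : ℝ) (hθ : 0 < θ) :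
    ∃ ε₀ : ℝ, 0 < ε₀ ∧ ∀ ε₁ : ℝ, 0 < ε₁ → ε₁ ≤ ε₀ → ∃ η : ℝ, 0 < η ∧
      ∃ Y0 : ℕ, ∀ Y : ℕ, Y0 ≤ Y → ∃ c : Finset ℕ → ℝ,
      (∀ T, |c T| ≤ 1) ∧
      (∀ T ⊆ PZ Y υ, c T ≠ 0 → ((∏ p ∈ T, p : ℕ) : ℝ) ≤ (Y : ℝ) ^ τ') ∧
      (∀ N : ℕ, (if ∀ p ∈ PZ Y υ, ¬ p ∣ N then 1 else 0) ≤
        VV (PZ Y υ) c (fun p => if p ∣ N then 1 else 0)) ∧
      ∀ h : ℕ → ℝ, (∀ p ∈ PZ Y υ, 0 ≤ h p) → (∀ p ∈ PZ Y ε₁, h p ≤ 1) →
        (∀ p ∈ PZ Y ε₁, κ < p → h p ≤ κ / ((p : ℝ) - 1)) →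
        Mer (pr Y ε₁ υ) (tt Y) h ε₁ υ η →
          VV (PZ Y υ) c h ≤ (ε₁ * (A0 / τ + θ)) * ∏ p ∈ PZ Y ε₁, (1 - h p) := by
  obtain ⟨C, hC1, HF⟩ := flw
  have hA0 := hSF.pos
  have hτ0 : 0 < τ := by linarith
  obtain ⟨b, hb1, hb2⟩ : ∃ b : ℕ, C * (κ + 1) ≤ b ∧ (1 / 2 : ℝ) ^ b * (A0 / τ + θ / 2) ≤ θ / 2 := by
    obtain ⟨m, hm⟩ := exists_pow_lt_of_lt_one (show 0 < (θ / 2) / (A0 / τ + θ / 2) by positivity)
      (show (1 / 2 : ℝ) < 1 by norm_num)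
    refine ⟨max m (C * (κ + 1)), le_max_right _ _, ?_⟩
    have h6 : (1 / 2 : ℝ) ^ (max m (C * (κ + 1))) ≤ (1 / 2) ^ m :=
      pow_le_pow_of_le_one (by norm_num) (by norm_num) (le_max_left _ _)
    have h7 := h6.trans hm.le
    rwa [le_div_iff₀ (by positivity)] at h7
  have hb0 : 1 ≤ b := le_trans (Nat.mul_pos hC1 (by omega)) hb1
  have hCb : (1 : ℝ) ≤ C * b := by
    have : 1 ≤ C * b := Nat.mul_pos hC1 (by omega)
    exact_mod_cast this
  refine ⟨min υ ((τ' - τ) / (4 * (C * b))), lt_min hυ0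
    (div_pos (by linarith) (by linarith)), fun ε₁ hε0 hεle => ?_⟩
  have hευ : ε₁ ≤ υ := hεle.trans (min_le_left _ _)
  have hεb : 2 * ε₁ * (C * b) ≤ (τ' - τ) / 2 := by
    have h6 : ε₁ ≤ (τ' - τ) / (4 * (C * b)) := hεle.trans (min_le_right _ _)
    rw [le_div_iff₀ (by linarith)] at h6
    linarith
  have hε1 : ε₁ ≤ 1 := by linarith
  obtain ⟨K, hK⟩ := exists_nat_ge (τ / ε₁)
  have hKτ : τ ≤ (K + 2) * ε₁ := by
    rw [div_le_iff₀ hε0] at hK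
    nlinarith
  obtain ⟨η, hη, HM⟩ := Pool.Agent.W505.DC.MT Pool.Agent.W505.DC.MI A0 F f hSF ε₁
    (ε₁ * (θ / 2)) K hε0 hε1 (by positivity)
  obtain ⟨Y2, hJ⟩ := exJ ε₁ hε0
  set z0 : ℕ := C * (κ + 1) with hz0
  set B : ℕ := ∏ p ∈ (Icc 1 z0), p with hB
  have hB1 : 1 ≤ B := by
    rw [hB]
    exact Nat.pos_of_ne_zero (prod_ne_zero_iff.2 fun p hp => by
      have := (mem_Icc.1 hp).1
      omega)
  have ev1 : ∀ᶠ Y : ℕ in atTop, (B : ℝ) ≤ (Y : ℝ) ^ ((τ' - τ) / 2) :=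
    tendsto_natCast_atTop_atTop.eventually
      ((tendsto_rpow_atTop (by linarith)).eventually_ge_atTop _)
  obtain ⟨Y3, hY3⟩ := eventually_atTop.1 (ev1.and (eventually_ge_atTop 3))
  refine ⟨η, hη, max Y2 Y3, ?_⟩
  intro Y hY
  have hYY2 : Y2 ≤ Y := (le_max_left _ _).trans hY
  obtain ⟨e1, e4⟩ := hY3 Y ((le_max_right _ _).trans hY)
  obtain ⟨J, hJ1, hJ2⟩ := hJ Y hYY2
  have hYr : (3 : ℝ) ≤ Y := by exact_mod_cast e4
  have hY1r : (1 : ℝ) ≤ Y := by linarith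
  have hlY : 0 < Real.log Y := Real.log_pos (by linarith)
  -- the three sets of primes
  set P0 : Finset ℕ := (PZ Y ε₁).filter (fun p => p ≤ z0) with hP0
  set P1 : Finset ℕ := (PZ Y ε₁).filter (fun p => ¬ p ≤ z0) with hP1
  set P2 : Finset ℕ := pr Y ε₁ υ with hP2
  have hQ : P0 ∪ P1 = PZ Y ε₁ := filter_union_filter_not_eq _ _
  have hd01 : Disjoint P0 P1 := disjoint_filter_filter_not _ _ _
  have hPZ : ∀ p, p ∈ PZ Y ε₁ → p.Prime ∧ p ≤ Y ∧ (p : ℝ) < (Y : ℝ) ^ ε₁ := by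
    intro p hp
    unfold PZ at hp
    rw [mem_filter, mem_Icc] at hp
    exact ⟨hp.2.1, hp.1.2, (tt_lt Y p ε₁ (by omega) hp.2.1.pos).1 hp.2.2⟩
  have hd2 : Disjoint (PZ Y ε₁) P2 := by
    rw [disjoint_left]
    intro p hp hp'
    unfold PZ at hp
    rw [hP2] at hp'
    unfold pr at hp'
    rw [mem_filter] at hp hp'
    linarith [hp.2.2, hp'.2.2.1]
  have hPall : PZ Y ε₁ ∪ P2 = PZ Y υ := by
    ext p
    rw [mem_union, hP2]
    unfold PZ pr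
    rw [mem_filter, mem_filter, mem_filter]
    constructor
    · rintro (⟨h6, h7, h8⟩ | ⟨h6, h7, h8, h9⟩)
      · exact ⟨h6, h7, h8.trans_le hευ⟩
      · exact ⟨h6, h7, h9⟩
    · rintro ⟨h6, h7, h8⟩
      rcases lt_or_ge (tt Y p) ε₁ with h9 | h9
      · exact Or.inl ⟨h6, h7, h9⟩
      · exact Or.inr ⟨h6, h7, h9, h8⟩
  have hlt2 : ∀ p ∈ PZ Y ε₁, p < 2 ^ 2 ^ J := by
    intro p hp
    have h6 := (hPZ p hp).2.2.trans_le hJ1
    exact_mod_cast h6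
  have hmem2 : ∀ p ∈ P2, p.Prime ∧ ε₁ ≤ tt Y p ∧ tt Y p < υ := by
    intro p hp
    rw [hP2] at hp
    unfold pr at hp
    rw [mem_filter] at hp
    exact hp.2
  have hsiz : Siz P2 (tt Y) := by
    refine ⟨fun p hp => (hmem2 p hp).1, fun p hp => lt_of_lt_of_le hε0 (hmem2 p hp).2.1, ?_⟩
    intro p hp q hq
    have hp0 : (0 : ℝ) < p := by exact_mod_cast (hmem2 p hp).1.pos
    unfold tt
    rw [div_lt_div_iff_of_pos_right hlY, Real.log_lt_log_iff hp0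
      (by exact_mod_cast (hmem2 q hq).1.pos)]
    exact Nat.cast_lt
  have ht0 : ∀ p, 0 ≤ tt Y p := by
    intro p
    unfold tt
    exact div_nonneg (Real.log_natCast_nonneg p) hlY.le
  -- the weights
  obtain ⟨cU, cL, g1, g2, g3, g4⟩ := HF κ b J z0 P1 hb1 le_rfl (by
    intro p hp
    rw [hP1, mem_filter] at hp
    exact ⟨(hPZ p hp.1).1, by omega, (hlt2 p hp.1).le⟩)
  set yU : Finset ℕ → ℝ := lc P2 (tt Y) K true τ υ with hyU
  set W : (Finset ℕ → ℝ) → (Finset ℕ → ℝ) → Finset ℕ → ℝ := fun α β T =>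
    (fun U => (-1) ^ (U ∩ P0).card * α (U ∩ P1)) (T ∩ PZ Y ε₁) * β (T ∩ P2) with hW
  have hVW : ∀ (α β : Finset ℕ → ℝ) (h : ℕ → ℝ), VV (PZ Y υ) (W α β) h =
      (∏ p ∈ P0, (1 - h p)) * VV P1 α h * VV P2 β h := by
    intro α β h
    rw [← hPall]
    have h6 := VV_union (PZ Y ε₁) P2 hd2 (fun U => (-1) ^ (U ∩ P0).card * α (U ∩ P1)) β h
    simp only [hW]
    rw [h6]
    congr 1
    have h7 := VV_union P0 P1 hd01 (fun U => (-1) ^ U.card) α h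
    rw [VV_mu, hQ] at h7
    exact h7
  have hWle : ∀ (α β : Finset ℕ → ℝ) (T : Finset ℕ), |W α β T| =
      |α ((T ∩ PZ Y ε₁) ∩ P1)| * |β (T ∩ P2)| := by
    intro α β T
    simp only [hW]
    rw [abs_mul, abs_mul, abs_neg_one_pow, one_mul]
  refine ⟨W cU yU, ?_, ?_, ?_, ?_⟩
  · intro T
    rw [hWle]
    calc |cU ((T ∩ PZ Y ε₁) ∩ P1)| * |yU (T ∩ P2)| ≤ 1 * 1 := by
          apply mul_le_mul (g1 _).1 (lc_le _ _ hsiz K true τ υ hτ0.le (fun h => by simp at h) _)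
            (abs_nonneg _) (by positivity)
      _ = 1 := mul_one _
  · intro T hT hne
    have hne1 : cU ((T ∩ PZ Y ε₁) ∩ P1) ≠ 0 := by
      intro hc
      apply hne
      simp only [hW, hc]
      ring
    have hne2 : yU (T ∩ P2) ≠ 0 := by
      intro hc
      apply hne
      simp only [hW, hc]
      ring
    have h6 := g2 _ inter_subset_right (Or.inl hne1)
    have h7 : ((∏ p ∈ T ∩ P2, p : ℕ) : ℝ) ≤ (Y : ℝ) ^ τ := by
      have hE := lc_EE _ _ hsiz K true τ υ hτ0.le (fun h => by simp at h) _ hne2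
      have h5 := EE_sz _ _ hsiz ht0 τ υ hτ0.le _ hE
      unfold sz at h5
      rw [Nat.primeFactors_prod (fun p hp => (hmem2 p (inter_subset_right hp)).1)] at h5
      unfold tt at h5
      rw [← sum_div, div_le_iff₀ hlY] at h5
      have hp0 : ∀ p ∈ T ∩ P2, (p : ℝ) ≠ 0 := by
        intro p hp
        have := (hmem2 p (inter_subset_right hp)).1.ne_zero
        exact_mod_cast this
      have h6 : Real.log ((∏ p ∈ T ∩ P2, p : ℕ) : ℝ) = ∑ p ∈ T ∩ P2, Real.log p := by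
        push_cast
        rw [Real.log_prod hp0]
      rw [← h6] at h5
      have hpos : (0 : ℝ) < ((∏ p ∈ T ∩ P2, p : ℕ) : ℝ) := by
        have : 0 < ∏ p ∈ T ∩ P2, p := prod_pos fun p hp => (hmem2 p (inter_subset_right hp)).1.pos
        exact_mod_cast this
      rw [← Real.log_le_log_iff hpos (by positivity), Real.log_rpow (by linarith)]
      exact h5
    have h8 : T = ((T ∩ P0) ∪ ((T ∩ PZ Y ε₁) ∩ P1)) ∪ (T ∩ P2) := by
      ext p
      simp only [mem_union, mem_inter]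
      constructor
      · intro hp
        have h9 := hT hp
        rw [← hPall, mem_union] at h9
        rcases h9 with h9 | h9
        · have h10 := h9
          rw [← hQ, mem_union] at h10
          rcases h10 with h10 | h10
          · exact Or.inl (Or.inl ⟨hp, h10⟩)
          · exact Or.inl (Or.inr ⟨⟨hp, h9⟩, h10⟩)
        · exact Or.inr ⟨hp, h9⟩
      · rintro ((h | h) | h)
        · exact h.1
        · exact h.1.1
        · exact h.1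
    have hpos : ∀ S ⊆ T, 1 ≤ ∏ p ∈ S, p := by
      intro S hS
      refine Nat.pos_of_ne_zero (prod_ne_zero_iff.2 fun p hp => ?_)
      have := hT (hS hp)
      unfold PZ at this
      rw [mem_filter] at this
      exact this.2.1.ne_zero
    have h9 : ∏ p ∈ T, p ≤ ((∏ p ∈ T ∩ P0, p) * ∏ p ∈ (T ∩ PZ Y ε₁) ∩ P1, p) *
        ∏ p ∈ T ∩ P2, p := by
      conv_lhs => rw [h8]
      have u1 : ∏ p ∈ ((T ∩ P0) ∪ ((T ∩ PZ Y ε₁) ∩ P1)) ∪ (T ∩ P2), p ≤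
          (∏ p ∈ ((T ∩ P0) ∪ ((T ∩ PZ Y ε₁) ∩ P1)), p) * ∏ p ∈ (T ∩ P2), p := by
        rw [← prod_union_inter]
        apply Nat.le_mul_of_pos_right
        exact hpos _ (inter_subset_right.trans inter_subset_left)
      have u2 : ∏ p ∈ ((T ∩ P0) ∪ ((T ∩ PZ Y ε₁) ∩ P1)), p ≤
          (∏ p ∈ (T ∩ P0), p) * ∏ p ∈ ((T ∩ PZ Y ε₁) ∩ P1), p := by
        rw [← prod_union_inter]
        apply Nat.le_mul_of_pos_right
        exact hpos _ (inter_subset_left.trans inter_subset_left)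
      exact u1.trans (Nat.mul_le_mul_right _ u2)
    have h10 : ∏ p ∈ T ∩ P0, p ≤ B := by
      rw [hB]
      apply prod_le_prod_of_subset_of_one_le'
      · intro p hp
        have h11 := (mem_inter.1 hp).2
        rw [hP0, mem_filter] at h11
        exact mem_Icc.2 ⟨(hPZ p h11.1).1.pos, h11.2⟩
      · intro p hp _
        exact (mem_Icc.1 hp).1
    have h11 : ((∏ p ∈ T, p : ℕ) : ℝ) ≤ ((B : ℝ) * ((2 : ℝ) ^ 2 ^ J) ^ (C * b)) *
        ((∏ p ∈ T ∩ P2, p : ℕ) : ℝ) := by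
      have h12 : ∏ p ∈ T, p ≤ (B * (2 ^ 2 ^ J) ^ (C * b)) * ∏ p ∈ T ∩ P2, p :=
        h9.trans (Nat.mul_le_mul_right _ (Nat.mul_le_mul h10 h6))
      exact_mod_cast h12
    refine h11.trans ?_
    calc ((B : ℝ) * ((2 : ℝ) ^ 2 ^ J) ^ (C * b)) * ((∏ p ∈ T ∩ P2, p : ℕ) : ℝ) ≤
        ((Y : ℝ) ^ ((τ' - τ) / 2) * ((Y : ℝ) ^ (2 * ε₁)) ^ (C * b)) * (Y : ℝ) ^ τ := by
          gcongr
      _ ≤ ((Y : ℝ) ^ ((τ' - τ) / 2) * (Y : ℝ) ^ ((τ' - τ) / 2)) * (Y : ℝ) ^ τ := by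
          gcongr
          rw [← Real.rpow_natCast, ← Real.rpow_mul (by linarith)]
          apply Real.rpow_le_rpow_of_exponent_le hY1r
          push_cast
          exact hεb
      _ = (Y : ℝ) ^ τ' := by
          rw [← Real.rpow_add (by linarith), ← Real.rpow_add (by linarith)]
          congr 1
          ring
  · intro N
    rw [hVW]
    obtain ⟨a1, a2⟩ := g3 N
    have a3 := lc_ind_up P2 (tt Y) hsiz K τ υ hτ0.le N
    set h : ℕ → ℝ := fun p => if p ∣ N then 1 else 0 with hh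
    have hX0 : ∏ p ∈ P0, (1 - h p) = if ∀ p ∈ P0, ¬ p ∣ N then 1 else 0 := by
      have : ∀ p ∈ P0, 1 - h p = if ¬ p ∣ N then 1 else 0 := by
        intro p _
        simp only [hh]
        split_ifs <;> norm_num
      rw [prod_congr rfl this, Finset.prod_ite_zero]
      simp
    rw [hX0]
    set x : ℝ := if ∀ p ∈ P1, ¬ p ∣ N then 1 else 0 with hx
    set y : ℝ := if ∀ p ∈ P2, ¬ p ∣ N then 1 else 0 with hy
    have hx0 : 0 ≤ x := by rw [hx]; split_ifs <;> norm_num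
    have hy0 : 0 ≤ y := by rw [hy]; split_ifs <;> norm_num
    set U := VV P1 cU h
    set u := VV P2 yU h
    have hxy : x * y ≤ U * u := mul_le_mul a2 a3 hy0 (hx0.trans a2)
    by_cases hc0 : ∀ p ∈ P0, ¬ p ∣ N
    · rw [if_pos hc0, one_mul]
      refine le_trans ?_ hxy
      by_cases hc : ∀ p ∈ PZ Y υ, ¬ p ∣ N
      · rw [if_pos hc, hx, hy, if_pos, if_pos, mul_one]
        · intro p hp
          exact hc p (by rw [← hPall]; exact mem_union_right _ hp)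
        · intro p hp
          exact hc p (by rw [← hPall, ← hQ]; exact mem_union_left _ (mem_union_right _ hp))
      · rw [if_neg hc]
        exact mul_nonneg hx0 hy0
    · rw [if_neg hc0, if_neg]
      · simp
      · intro hc
        exact hc0 fun p hp => hc p (by rw [← hPall, ← hQ]; exact mem_union_left _ (mem_union_left _ hp))
  · intro h hh0 hh1 hhκ hMer
    rw [hVW]
    have hsub1 : ∀ p ∈ PZ Y ε₁, p ∈ PZ Y υ := fun p hp => by
      rw [← hPall]; exact mem_union_left _ hp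
    have hzκ : κ ≤ z0 := by
      rw [hz0]
      calc κ ≤ 1 * (κ + 1) := by omega
        _ ≤ C * (κ + 1) := Nat.mul_le_mul_right _ hC1
    have hgn0 : ∀ p ∈ P1, 0 ≤ h p ∧ h p ≤ (κ : ℝ) / ((p : ℝ) - 1) := by
      intro p hp
      rw [hP1, mem_filter] at hp
      exact ⟨hh0 p (hsub1 p hp.1), hhκ p hp.1 (by omega)⟩
    have hgn2 : ∀ p ∈ P2, 0 ≤ h p := by
      intro p hp
      exact hh0 p (by rw [← hPall]; exact mem_union_right _ hp)
    obtain ⟨a1, a2, a3, a4⟩ := g4 h hgn0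
    have hMM := (HM P2 (tt Y) h υ (by linarith) hgn2 (fun p hp => (hmem2 p hp).2.1) hMer K le_rfl
      τ υ hKτ hευ le_rfl hυτ hτ).1
    rw [← lc_V _ _ hsiz K true τ υ hτ0.le (fun h => by simp at h),
      hSF.F3 (τ / υ) (by rw [le_div_iff₀ hυ0]; linarith) (by rw [div_le_iff₀ hυ0]; linarith)] at hMM
    have e2 : ε₁ / υ * (A0 / (τ / υ)) + ε₁ * (θ / 2) = ε₁ * (A0 / τ + θ / 2) := by
      field_simp
    rw [e2] at hMM
    have hVV : ∏ p ∈ PZ Y ε₁, (1 - h p) = (∏ p ∈ P0, (1 - h p)) * ∏ p ∈ P1, (1 - h p) := by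
      rw [← hQ, prod_union hd01]
    rw [hVV]
    set V0 := ∏ p ∈ P0, (1 - h p)
    set V1 := ∏ p ∈ P1, (1 - h p)
    have hfac : ∀ p ∈ PZ Y ε₁, 0 ≤ 1 - h p := fun p hp => by linarith [hh1 p hp]
    have hV0 : 0 ≤ V0 := prod_nonneg fun p hp => hfac p (by rw [← hQ]; exact mem_union_left _ hp)
    have hV1 : 0 ≤ V1 := prod_nonneg fun p hp => hfac p (by rw [← hQ]; exact mem_union_right _ hp)
    set U := VV P1 cU h
    set u := VV P2 yU h
    have key : U * u ≤ V1 * (ε₁ * (A0 / τ + θ)) := by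
      have b1 : U * u ≤ U * (ε₁ * (A0 / τ + θ / 2)) := mul_le_mul_of_nonneg_left hMM (hV1.trans a3)
      have b2 : U ≤ (1 + (1 / 2) ^ b) * V1 := by linarith
      have b3 : U * (ε₁ * (A0 / τ + θ / 2)) ≤ ((1 + (1 / 2) ^ b) * V1) * (ε₁ * (A0 / τ + θ / 2)) :=
        mul_le_mul_of_nonneg_right b2 (by positivity)
      have b4 : ((1 + (1 / 2) ^ b) * V1) * (ε₁ * (A0 / τ + θ / 2)) =
          V1 * ε₁ * (A0 / τ + θ / 2) + V1 * ε₁ * ((1 / 2) ^ b * (A0 / τ + θ / 2)) := by ring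
      have b5 : V1 * ε₁ * ((1 / 2) ^ b * (A0 / τ + θ / 2)) ≤ V1 * ε₁ * (θ / 2) :=
        mul_le_mul_of_nonneg_left hb2 (by positivity)
      have b6 : V1 * (ε₁ * (A0 / τ + θ)) = V1 * ε₁ * (A0 / τ + θ / 2) + V1 * ε₁ * (θ / 2) := by ring
      linarith
    calc V0 * U * u = V0 * (U * u) := by ring
      _ ≤ V0 * (V1 * (ε₁ * (A0 / τ + θ))) := mul_le_mul_of_nonneg_left key hV0
      _ = ε₁ * (A0 / τ + θ) * (V0 * V1) := by ring

end Pool.Agent.J4H73.CH
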