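import Pool.Agent.TH101.RG.Cov

set_option autoImplicit false
set_option maxHeartbeats 4000000

/-! # The covering for windows at Rankin's scale (after `Pool.Agent.TH101.RG.Cov`) -/

namespace Pool.Agent.J4H73.CH

open Finset Filter Pool.Agent.H398R2.RK
open Pool.Agent.H378R2
open Pool.Agent.H312R2.RG (cov_ev ev_ff)
open Pool.Agent.H256R2.SC (ff)
open Pool.Agent.TH101.RG

open scoped Classical

/-- Rankin's function -/
noncomputable def RR (X : ℝ) : ℝ := ff X / Real.log (Real.log X)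

theorem ev_sq (c : ℝ) (hc : 0 < c) : ∀ᶠ t : ℝ in atTop, (Real.log t) ^ 2 ≤ c * t := by
  have h := (Real.isLittleO_pow_log_id_atTop (n := 2)).def hc
  filter_upwards [h, eventually_ge_atTop (1 : ℝ)] with t ht h1
  simp only [id, Real.norm_eq_abs, abs_of_nonneg (sq_nonneg (Real.log t)),
    abs_of_nonneg (by linarith : (0 : ℝ) ≤ t)] at ht
  exact ht

/-- the covering -/
theorem coverR (K D : ℕ) (A0 : ℝ) (hA0 : 0 ≤ A0) (c₃ : ℝ) (hc₃ : 0 < c₃) : ∃ c : ℝ, 0 < c ∧
    ∀ᶠ X : ℝ in atTop, ∀ (ps : ℕ) (S : Finset ℕ), GoodP 2 ps → GoodS X S → ∀ (a : ℤ) (g : ℕ), g ≠ 0 →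
    a ∣ g → ∑ p ∈ g.primeFactors, (1 : ℝ) / p ≤ A0 → (g : ℝ) ≤ (Real.log X) ^ D →
    ∀ (b : ℤ) (t : Fin K → ℕ) (u : ℕ → ℕ), (∀ p, p.Prime → p ≤ yy X → ∀ j, ¬ p ∣ u p + t j) →
    ∃ (r : ℕ) (b' : ℤ) (U0 : Finset ℕ), (∀ j, (r + t j).Coprime (WW X S ps)) ∧
      (U0.card : ℝ) ≤ c₃ * Real.log X / Real.log (Real.log X) ∧
      (∀ k ∈ U0, (k : ℝ) ≤ (Real.log X) ^ 2 ∧ ∀ j, b' + k ≠ a * t j) ∧
      |((b' - b : ℤ) : ℝ)| ≤ (Real.log X) ^ 2 ∧
      (∀ p ∈ PW X S ps, p ∣ g → r ≡ u p [MOD p]) ∧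
      ∀ m : ℤ, |(m : ℝ)| ≤ c * RR X → (∀ j, b + m ≠ a * t j) → (∃ k ∈ U0, b + m = b' + k) ∨
        (∃ p : ℕ, p.Prime ∧ p ≤ yy X ∧ ¬ p ∣ g ∧
          ∀ n : ℕ, n ≡ r [MOD WW X S ps] → (p : ℤ) ∣ a * n + b + m) := by
  obtain ⟨C, hC, y₀, hrs⟩ := rsurvK K (A0 + 2 + 3 * K * K) (8 + 3 * K * K) (by positivity)
  obtain ⟨y₂, hsh⟩ := shift_exK K
  set c₂ : ℝ := min (1 / 8000) (c₃ / (8 * C)) with hc₂
  have hc₂0 : 0 < c₂ := lt_min (by norm_num) (by positivity)
  have hc₂1 : c₂ ≤ 1 / 8000 := min_le_left _ _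
  have hc₂2 : c₂ ≤ c₃ / (8 * C) := min_le_right _ _
  obtain ⟨A₀, hev⟩ := cov_ev (c₂ / 10) (by positivity)
  obtain ⟨y₃, hv⟩ := eventually_atTop.1 vfacts
  refine ⟨c₂ / 4, by positivity, ?_⟩
  have t1 := Real.tendsto_log_atTop
  have t2 : Tendsto (fun y : ℝ => Real.log (Real.log y)) atTop atTop := t1.comp t1
  filter_upwards [t2.eventually_ge_atTop A₀, t1.eventually_ge_atTop (2000 * ((y₀ : ℝ) + 2)),
    t1.eventually_ge_atTop (2000 * ((y₂ : ℝ) + 2)), t1.eventually_ge_atTop (2000 * (|y₃| + 2)),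
    t2.eventually_ge_atTop (8 * (D + 1)), ev_ff c₂ hc₂0, eventually_gt_atTop 0,
    t2.eventually (ev_sq (c₂ / 10) (by positivity))] with X e1 e2 e3 e4 e5 e6 hX0 a8
  intro ps S hps hS a g hg0 hag hgS hgD b t u hu
  set T := Real.log X with hT
  have hT0 : 0 < T := by
    have : (0 : ℝ) ≤ y₀ := Nat.cast_nonneg _
    linarith
  set A := Real.log T with hA
  obtain ⟨a1, a2, a3, a4, a5, a6, a7, -, a9⟩ := hev A e1
  have hTe : T = Real.exp A := by rw [hA, Real.exp_log hT0]
  set B := Real.log A with hB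
  set D' := Real.log B with hD
  have hff0' : ff X = T * A ^ 2 * D' / B ^ 2 := by
    unfold Pool.Agent.H256R2.SC.ff
    rfl
  have hA0' : 0 < A := by linarith
  have hB0 : 0 < B := by linarith
  have hD0 : 0 < D' := by linarith
  have hff : RR X = T * A * D' / B ^ 2 := by
    unfold RR
    rw [hff0', ← hA]
    field_simp
  have hRle : c₂ * RR X ≤ c₂ * ff X := by
    apply mul_le_mul_of_nonneg_left _ hc₂0.le
    rw [hff, hff0']
    have : A ≤ A ^ 2 := by nlinarith
    gcongr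
  -- y
  set y := yy X with hy
  have hyT : (y : ℝ) ≤ T / 1000 := Nat.floor_le (by positivity)
  have hyT2 : T / 2000 ≤ y := by
    have h1 : T / 1000 < (y : ℝ) + 1 := Nat.lt_floor_add_one _
    have h2 : 1 ≤ T / 2000 := by
      rw [le_div_iff₀ (by norm_num), hTe]; linarith
    linarith [show T / 1000 = T / 2000 + T / 2000 by ring]
  have hyy0 : y₀ ≤ y := by
    have : (y₀ : ℝ) ≤ y := by linarith
    exact_mod_cast this
  have hyy2 : y₂ ≤ y := by
    have : (y₂ : ℝ) ≤ y := by linarith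
    exact_mod_cast this
  have hyy3 : y₃ ≤ y := by
    have := le_abs_self y₃
    linarith
  obtain ⟨hv1, hv2, hv3⟩ := hv y hyy3
  have hy0 : (0 : ℝ) < y := by
    have : (0 : ℝ) ≤ y₀ := Nat.cast_nonneg _
    linarith
  have hly1 : Real.log y ≤ A := by
    rw [hA]; apply Real.log_le_log hy0; linarith
  have hly2 : A / 2 ≤ Real.log y := by
    have h1 : Real.log (T / 2000) ≤ Real.log y := Real.log_le_log (by positivity) hyT2
    rw [Real.log_div hT0.ne' (by norm_num)] at h1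
    linarith
  have hly0 : 0 < Real.log y := by linarith
  have hl2y1 : Real.log (Real.log y) ≤ B := Real.log_le_log hly0 hly1
  have hl2y2 : B / 2 ≤ Real.log (Real.log y) := by
    have h1 : Real.log (A / 2) ≤ Real.log (Real.log y) := Real.log_le_log (by positivity) hly2
    rw [Real.log_div hA0'.ne' (by norm_num)] at h1
    linarith
  have hl2y0 : 0 < Real.log (Real.log y) := by linarith
  have hl3y2 : D' / 2 ≤ Real.log (Real.log (Real.log y)) := by
    have h1 : Real.log (B / 2) ≤ Real.log (Real.log (Real.log y)) := Real.log_le_log (by positivity) hl2y2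
    rw [Real.log_div hB0.ne' (by norm_num)] at h1
    linarith
  -- H
  set H : ℕ := ⌊c₂ * RR X⌋₊ with hH
  have hff0 : 0 ≤ c₂ * RR X := by rw [hff]; positivity
  have hHle : (H : ℝ) ≤ c₂ * RR X := Nat.floor_le hff0
  have hT1 : 10 * T ≤ c₂ * RR X := by
    rw [hff, mul_div_assoc', le_div_iff₀ (by positivity)]
    have h1 : 10 * T * B ^ 2 ≤ 10 * T * (c₂ / 10 * A) := by gcongr
    have h2 : T * (c₂ * A) ≤ T * (c₂ * A) * D' := by
      have : 0 ≤ T * (c₂ * A) := by positivity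
      nlinarith
    linarith [show c₂ * (T * A * D') = T * (c₂ * A) * D' by ring,
      show 10 * T * (c₂ / 10 * A) = T * (c₂ * A) by ring]
  have hT2000 : 2000 ≤ T := by rw [hTe]; exact a9
  have hyH : y ≤ H := by
    rw [hH]
    apply Nat.le_floor
    have : (y : ℝ) ≤ T := by linarith
    linarith
  have hHy : (H : ℝ) ≤ y * (Real.log y) ^ 2 := by
    refine (hHle.trans hRle).trans ?_
    have h1 : T / 2000 * (A / 2) ^ 2 ≤ y * (Real.log y) ^ 2 := by gcongr
    refine le_trans ?_ h1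
    rw [hff0', mul_div_assoc', div_le_iff₀ (by positivity)]
    have h2 : D' ≤ B ^ 2 := by nlinarith
    have h3 : c₂ * (T * A ^ 2 * D') ≤ 1 / 8000 * (T * A ^ 2 * B ^ 2) := by gcongr
    linarith [show T / 2000 * (A / 2) ^ 2 * B ^ 2 = 1 / 8000 * (T * A ^ 2 * B ^ 2) by ring]
  -- the shift
  set N : ℕ := H / 3 with hN
  have hHlow : c₂ * RR X < (H : ℝ) + 1 := Nat.lt_floor_add_one _
  have hNlow : (H : ℝ) ≤ 3 * N + 2 := by
    have : H ≤ 3 * N + 2 := by omega
    exact_mod_cast this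
  have hNc : c₂ / 4 * RR X ≤ N := by linarith
  have hyN : y ≤ N := by
    have : (y : ℝ) ≤ N := by linarith
    exact_mod_cast this
  obtain ⟨s, hsN, hs12⟩ := hsh y hyy2 N hyN (fun j => b - N - a * t j)
  set b' : ℤ := b - N - s with hb'
  have hbj : ∀ j, b - N - a * t j - s = b' - a * t j := fun j => by rw [hb']; ring
  simp only [hbj] at hs12
  -- the set F
  set F : Finset ℕ := (Icc 1 y).filter (fun p : ℕ => p.Prime ∧ (p ∈ S ∨ p = ps ∨ p ∣ g ∨
    ∃ j, (p : ℤ) ∣ b' - a * t j)) with hF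
  have hFmem : ∀ p : ℕ, p ∈ F ↔ (p ≤ y ∧ p.Prime ∧ (p ∈ S ∨ p = ps ∨ p ∣ g ∨
      ∃ j, (p : ℤ) ∣ b' - a * t j)) := by
    intro p
    rw [hF, mem_filter, mem_Icc]
    constructor
    · rintro ⟨⟨_, h1⟩, h2⟩; exact ⟨h1, h2⟩
    · rintro ⟨h1, h2⟩; exact ⟨⟨h2.1.pos, h1⟩, h2⟩
  have hpos : ∀ i : ℕ, 0 ≤ (1 : ℝ) / (i : ℝ) := fun i => by positivity
  set Ps : Finset ℕ := if ps.Prime then {ps} else ∅ with hPs
  have hPs2 : ∀ q ∈ Ps, q = ps ∧ ps.Prime := by
    intro q hq
    rw [hPs] at hq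
    split_ifs at hq with h
    · exact ⟨mem_singleton.1 hq, h⟩
    · simp at hq
  have hFsub : F ⊆ ((S ∪ Ps) ∪ g.primeFactors) ∪
      univ.biUnion (fun j => (Icc 1 y).filter (fun p : ℕ => p.Prime ∧ (p : ℤ) ∣ b' - a * t j)) := by
    intro p hp
    rw [hFmem] at hp
    obtain ⟨h1, h2, h3⟩ := hp
    rw [mem_union, mem_union, mem_union]
    rcases h3 with h | h | h | h
    · exact Or.inl (Or.inl (Or.inl h))
    · left; left; right
      rw [hPs, ← h, if_pos h2]
      simp
    · left; right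
      rw [Nat.mem_primeFactors]
      exact ⟨h2, h, hg0⟩
    · right
      obtain ⟨j, h⟩ := h
      rw [mem_biUnion]
      refine ⟨j, mem_univ _, ?_⟩
      rw [mem_filter, mem_Icc]
      exact ⟨⟨h2.pos, h1⟩, h2, h⟩
  have hSsum : ∑ q ∈ S, (1 : ℝ) / q ≤ 6 / A ^ 2 := hS.2
  have hA100 : 100 ≤ A := by linarith
  have hFsum : ∑ q ∈ F, (1 : ℝ) / q ≤ A0 + 2 + 3 * K * K := by
    have h1 : ∑ q ∈ F, (1 : ℝ) / q ≤ ((∑ q ∈ S, (1 : ℝ) / q + ∑ q ∈ Ps, (1 : ℝ) / q) +
        ∑ q ∈ g.primeFactors, (1 : ℝ) / q) +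
        ∑ q ∈ univ.biUnion (fun j => (Icc 1 y).filter (fun p : ℕ => p.Prime ∧ (p : ℤ) ∣ b' - a * t j)),
          (1 : ℝ) / q := by
      refine (sum_le_sum_of_subset_of_nonneg hFsub (fun i _ _ => hpos i)).trans ?_
      refine (sum_union_le' _ hpos).trans ?_
      apply add_le_add_left
      refine (sum_union_le' _ hpos).trans ?_
      apply add_le_add_left
      exact sum_union_le' _ hpos
    have h2 : ∑ q ∈ Ps, (1 : ℝ) / q ≤ 1 := by
      rw [hPs]
      split_ifs with h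
      · rw [sum_singleton, div_le_one (by exact_mod_cast h.pos)]
        exact_mod_cast h.one_lt.le
      · simp
    have h3 : ∑ q ∈ S, (1 : ℝ) / q ≤ 1 := by
      refine hSsum.trans ?_
      rw [div_le_one (by positivity)]
      nlinarith
    have h4 : ∑ q ∈ univ.biUnion (fun j => (Icc 1 y).filter (fun p : ℕ => p.Prime ∧ (p : ℤ) ∣ b' - a * t j)),
        (1 : ℝ) / q ≤ 3 * K * K := by
      refine (sum_biUnion_le' _ _ _ hpos).trans ?_
      refine (sum_le_card_nsmul _ _ _ (fun j _ => (hs12 j).1)).trans (le_of_eq ?_)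
      rw [card_univ, Fintype.card_fin, nsmul_eq_mul]
      ring
    linarith
  have hFtail : ∑ q ∈ F.filter (fun q : ℕ => V0 y < Real.log q), (1 : ℝ) / q ≤ (8 + 3 * K * K) / Real.log y := by
    have hV0' : Real.exp (-(V0 y)) ≤ 1 / (Real.log y) ^ 4 := by
      rw [Real.exp_neg, ← one_div]
      exact one_div_le_one_div_of_le (by positivity) hv2
    have hbig : ∀ q : ℕ, 0 < q → V0 y < Real.log q → (1 : ℝ) / q ≤ 1 / (Real.log y) ^ 4 := by
      intro q hq0 hq
      have hq0' : (0 : ℝ) < q := by exact_mod_cast hq0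
      refine le_trans ?_ hV0'
      rw [Real.exp_neg, ← one_div]
      exact one_div_le_one_div_of_le (Real.exp_pos _) ((Real.lt_log_iff_exp_lt hq0').1 hq).le
    have h1 : ∑ q ∈ F.filter (fun q : ℕ => V0 y < Real.log q), (1 : ℝ) / q ≤
        ((∑ q ∈ S, (1 : ℝ) / q + ∑ q ∈ Ps.filter (fun q : ℕ => V0 y < Real.log q), (1 : ℝ) / q) +
        ∑ q ∈ g.primeFactors.filter (fun q : ℕ => V0 y < Real.log q), (1 : ℝ) / q) +
        ∑ q ∈ univ.biUnion (fun j => (Icc 1 y).filter (fun p : ℕ => p.Prime ∧ (p : ℤ) ∣ b' - a * t j ∧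
          V0 y < Real.log p)), (1 : ℝ) / q := by
      have hsub : F.filter (fun q : ℕ => V0 y < Real.log q) ⊆
          ((S ∪ Ps.filter (fun q : ℕ => V0 y < Real.log q)) ∪
            g.primeFactors.filter (fun q : ℕ => V0 y < Real.log q)) ∪
          univ.biUnion (fun j => (Icc 1 y).filter (fun p : ℕ => p.Prime ∧ (p : ℤ) ∣ b' - a * t j ∧
            V0 y < Real.log p)) := by
        intro p hp
        rw [mem_filter] at hp
        have h2 := hFsub hp.1
        rw [mem_union, mem_union, mem_union] at h2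
        rw [mem_union, mem_union, mem_union, mem_filter, mem_filter]
        rcases h2 with ((h | h) | h) | h
        · exact Or.inl (Or.inl (Or.inl h))
        · exact Or.inl (Or.inl (Or.inr ⟨h, hp.2⟩))
        · exact Or.inl (Or.inr ⟨h, hp.2⟩)
        · right
          rw [mem_biUnion] at h ⊢
          obtain ⟨j, hj, h⟩ := h
          refine ⟨j, hj, ?_⟩
          rw [mem_filter] at h ⊢
          exact ⟨h.1, h.2.1, h.2.2, hp.2⟩
      refine (sum_le_sum_of_subset_of_nonneg hsub (fun i _ _ => hpos i)).trans ?_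
      refine (sum_union_le' _ hpos).trans ?_
      apply add_le_add_left
      refine (sum_union_le' _ hpos).trans ?_
      apply add_le_add_left
      exact sum_union_le' _ hpos
    have hl4 : 1 / (Real.log y) ^ 4 ≤ 1 / Real.log y := by
      apply one_div_le_one_div_of_le hly0
      calc Real.log y = (Real.log y) ^ 1 := (pow_one _).symm
        _ ≤ (Real.log y) ^ 4 := pow_le_pow_right₀ (by linarith) (by norm_num)
    have h2 : ∑ q ∈ Ps.filter (fun q : ℕ => V0 y < Real.log q), (1 : ℝ) / q ≤ 1 / Real.log y := by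
      refine le_trans ?_ hl4
      have h3 : (Ps.filter (fun q : ℕ => V0 y < Real.log q)).card ≤ 1 := by
        refine (card_le_card (filter_subset _ _)).trans ?_
        rw [hPs]
        split_ifs <;> simp
      have h4 : ∑ q ∈ Ps.filter (fun q : ℕ => V0 y < Real.log q), (1 : ℝ) / q ≤
          (Ps.filter (fun q : ℕ => V0 y < Real.log q)).card • (1 / (Real.log y) ^ 4) := by
        apply sum_le_card_nsmul
        intro q hq
        rw [mem_filter] at hq
        obtain ⟨h5, h6⟩ := hPs2 q hq.1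
        exact hbig q (by rw [h5]; exact h6.pos) hq.2
      rw [nsmul_eq_mul] at h4
      have h5 : ((Ps.filter (fun q : ℕ => V0 y < Real.log q)).card : ℝ) ≤ 1 := by exact_mod_cast h3
      have h6 : 0 ≤ 1 / (Real.log y) ^ 4 := by positivity
      nlinarith
    have h3 : ∑ q ∈ g.primeFactors.filter (fun q : ℕ => V0 y < Real.log q), (1 : ℝ) / q ≤ 1 / Real.log y := by
      have h4 : ∑ q ∈ g.primeFactors.filter (fun q : ℕ => V0 y < Real.log q), (1 : ℝ) / q ≤
          (g.primeFactors.filter (fun q : ℕ => V0 y < Real.log q)).card • (1 / (Real.log y) ^ 4) := by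
        apply sum_le_card_nsmul
        intro q hq
        rw [mem_filter] at hq
        exact hbig q (Nat.prime_of_mem_primeFactors hq.1).pos hq.2
      rw [nsmul_eq_mul] at h4
      have ha1 : 1 ≤ g := Nat.pos_of_ne_zero hg0
      have h5 : ((g.primeFactors.filter (fun q : ℕ => V0 y < Real.log q)).card : ℝ) ≤ 2 * (D * A) := by
        have h6 : ((g.primeFactors.filter (fun q : ℕ => V0 y < Real.log q)).card : ℝ) ≤
          (g.primeFactors.card : ℝ) := by exact_mod_cast card_le_card (filter_subset _ _)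
        have h7 := card_primeFactors_le g ha1
        have h8 : Real.log (g : ℝ) ≤ D * A := by
          have : Real.log (g : ℝ) ≤ Real.log (T ^ D) :=
            Real.log_le_log (by exact_mod_cast ha1) hgD
          rwa [Real.log_pow] at this
        linarith
      have h6 : (0 : ℝ) ≤ 1 / (Real.log y) ^ 4 := by positivity
      refine h4.trans ((mul_le_mul_of_nonneg_right h5 h6).trans ?_)
      have h7 : A ≤ 2 * Real.log y := by linarith
      have hD4 : 4 * (D : ℝ) ≤ Real.log y := by linarith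
      have hD0 : (0 : ℝ) ≤ D := Nat.cast_nonneg D
      rw [mul_one_div, div_le_div_iff₀ (by positivity) hly0, one_mul]
      calc 2 * ((D : ℝ) * A) * Real.log y ≤ 2 * (D * (2 * Real.log y)) * Real.log y := by gcongr
        _ = 4 * D * (Real.log y) ^ 2 := by ring
        _ ≤ Real.log y * (Real.log y) ^ 2 := by gcongr
        _ = (Real.log y) ^ 3 := by ring
        _ ≤ (Real.log y) ^ 4 := pow_le_pow_right₀ (by linarith) (by norm_num)
    have h4 : ∑ q ∈ S, (1 : ℝ) / q ≤ 6 / Real.log y := by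
      refine hSsum.trans ?_
      apply div_le_div_of_nonneg_left (by norm_num) hly0
      nlinarith
    have h5 : ∑ q ∈ univ.biUnion (fun j => (Icc 1 y).filter (fun p : ℕ => p.Prime ∧ (p : ℤ) ∣ b' - a * t j ∧
          V0 y < Real.log p)), (1 : ℝ) / q ≤ 3 * K * K / Real.log y := by
      refine (sum_biUnion_le' _ _ _ hpos).trans ?_
      refine (sum_le_card_nsmul _ _ _ (fun j _ => (hs12 j).2)).trans (le_of_eq ?_)
      rw [card_univ, Fintype.card_fin, nsmul_eq_mul]
      ring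
    have h6 : (8 + 3 * K * K) / Real.log y = 6 / Real.log y + 1 / Real.log y + 1 / Real.log y +
      3 * K * K / Real.log y := by ring
    linarith
  obtain ⟨β, hβ1, hβ2⟩ := hrs y hyy0 F (fun q hq => ((hFmem q).1 hq).2.1) hFsum hFtail H hyH hHy
    (fun j p => ((a * t j - b') % (p : ℤ)).toNat) (by
      intro j p hp hpy hpF _ hd
      apply hpF
      rw [hFmem]
      refine ⟨hpy, hp, Or.inr (Or.inr (Or.inr ⟨j, ?_⟩))⟩
      have hp' : (p : ℤ) ≠ 0 := by exact_mod_cast hp.ne_zero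
      have h1 : (p : ℤ) ∣ (a * t j - b') % (p : ℤ) := by
        have h2 : (p : ℤ) ∣ (((a * t j - b') % (p : ℤ)).toNat : ℤ) := by exact_mod_cast hd
        rwa [Int.toNat_of_nonneg (Int.emod_nonneg _ hp')] at h2
      have h2 : (p : ℤ) ∣ a * t j - b' := (Int.dvd_iff_emod_eq_zero).2 (by
        have := Int.emod_eq_zero_of_dvd h1
        rwa [Int.emod_emod_of_dvd _ (dvd_refl _)] at this)
      have h3 : b' - a * t j = -(a * t j - b') := by ring
      rw [h3]
      exact (dvd_neg.2 h2))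
  have hcardle : C * H * (Real.log (Real.log y)) ^ 2 /
        ((Real.log y) ^ 2 * Real.log (Real.log (Real.log y))) ≤ c₃ * T / A := by
    calc C * H * (Real.log (Real.log y)) ^ 2 /
        ((Real.log y) ^ 2 * Real.log (Real.log (Real.log y)))
        ≤ C * (c₂ * RR X) * B ^ 2 / ((A / 2) ^ 2 * (D' / 2)) := by gcongr
      _ = 8 * C * c₂ * (T / A) := by
          rw [hff]
          field_simp
          ring
      _ ≤ 8 * C * (c₃ / (8 * C)) * (T / A) := by gcongr
      _ = c₃ * T / A := by field_simp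
  -- residues
  have hρ : ∀ p : ℕ, ∃ ρ : ℕ, p ∈ PW X S ps → ((∀ j, ¬ p ∣ ρ + t j) ∧ (p ∈ F → ρ = u p) ∧
      (p ∉ F → (p : ℤ) ∣ a * ρ + (b' + β p))) := by
    intro p
    by_cases hp : p ∈ PW X S ps
    · obtain ⟨hpy, hpp, hpS, hpps⟩ := mem_PW.1 hp
      by_cases hpF : p ∈ F
      · exact ⟨u p, fun _ => ⟨hu p hpp hpy, fun _ => rfl, fun h => absurd hpF h⟩⟩
      · have hpa : ¬ (p : ℤ) ∣ a := fun h => hpF ((hFmem p).2 ⟨hpy, hpp, Or.inr (Or.inr (Or.inl
          (by exact_mod_cast h.trans hag)))⟩)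
        obtain ⟨ρ, hρ⟩ := solve p hpp a (b' + β p) hpa
        refine ⟨ρ, fun _ => ⟨?_, fun h => absurd h hpF, fun _ => hρ⟩⟩
        intro j hd
        have h1 : (p : ℤ) ∣ a * (ρ + t j) := by
          have : (p : ℤ) ∣ ((ρ + t j : ℕ) : ℤ) := Int.natCast_dvd_natCast.2 hd
          push_cast at this
          exact this.mul_left a
        have h2 : (p : ℤ) ∣ (b' + β p) - a * t j := by
          have := dvd_sub hρ h1
          have e : a * (ρ : ℤ) + (b' + β p) - a * (ρ + t j) = (b' + β p) - a * t j := by ring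
          rwa [e] at this
        apply (hβ1 p hpp hpy hpF).2 j
        have hp' : (p : ℤ) ≠ 0 := by exact_mod_cast hpp.ne_zero
        rw [← Int.natCast_modEq_iff]
        show (((((a * t j - b') % (p : ℤ)).toNat : ℕ) : ℤ)) ≡ (β p : ℤ) [ZMOD p]
        rw [Int.toNat_of_nonneg (Int.emod_nonneg _ hp')]
        refine (Int.mod_modEq _ _).trans ?_
        rw [Int.modEq_iff_dvd]
        have h3 : (β p : ℤ) - (a * t j - b') = (b' + β p) - a * t j := by ring
        rw [h3]
        exact h2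
    · exact ⟨0, fun h => absurd h hp⟩
  choose ρ hρ using hρ
  obtain ⟨r, hr⟩ := Nat.chineseRemainderOfFinset ρ (fun p => p) (PW X S ps)
    (fun p hp => (mem_PW.1 hp).2.1.ne_zero)
    (fun p hp q hq hpq => (Nat.coprime_primes (mem_PW.1 (by simpa using hp)).2.1
      (mem_PW.1 (by simpa using hq)).2.1).2 hpq)
  refine ⟨r, b', (range (H + 1)).filter (fun k : ℕ => (∀ j, b' + k ≠ a * t j) ∧ ∀ p : ℕ, p.Prime → p ≤ y →
        p ∉ F → ¬ k ≡ β p [MOD p]), ?_, ?_, ?_, ?_, ?_, ?_⟩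
  · intro j
    unfold WW
    rw [Nat.coprime_prod_right_iff]
    intro p hp
    have hpp := (mem_PW.1 hp).2.1
    rw [Nat.coprime_comm, Nat.Prime.coprime_iff_not_dvd hpp]
    intro hd
    apply (hρ p hp).1 j
    have h1 : r + t j ≡ ρ p + t j [MOD p] := (hr p hp).add_right (t j)
    exact (Nat.modEq_zero_iff_dvd).1 (h1.symm.trans ((Nat.modEq_zero_iff_dvd).2 hd))
  · refine le_trans ?_ (hβ2.trans hcardle)
    apply Nat.cast_le.2
    apply card_le_card
    intro k hk
    rw [mem_filter] at hk ⊢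
    exact ⟨hk.1, hk.2.2⟩
  · intro k hk
    rw [mem_filter, mem_range] at hk
    refine ⟨?_, hk.2.1⟩
    have h1 : (k : ℝ) ≤ H := by exact_mod_cast (by omega : k ≤ H)
    exact h1.trans ((hHle.trans hRle).trans e6.1)
  · have h1 : ((b' - b : ℤ) : ℝ) = -((N : ℝ) + s) := by
      rw [hb']
      push_cast
      ring
    rw [h1, abs_neg, abs_of_nonneg (by positivity)]
    have h2 : (s : ℝ) ≤ N := by exact_mod_cast hsN.le
    have h3 : 3 * (N : ℝ) ≤ H := by
      have : 3 * N ≤ H := by omega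
      exact_mod_cast this
    have h4 : (0 : ℝ) ≤ N := Nat.cast_nonneg N
    linarith [e6.1, hRle, hHle]
  · intro p hp hpg
    have hpF : p ∈ F := (hFmem p).2 ⟨(mem_PW.1 hp).1, (mem_PW.1 hp).2.1, Or.inr (Or.inr (Or.inl hpg))⟩
    have h1 := hr p hp
    rwa [(hρ p hp).2.1 hpF] at h1
  · intro m hm hbm
    have hmN : |m| ≤ (N : ℤ) := by
      have h1 : ((|m| : ℤ) : ℝ) ≤ N := by
        push_cast
        linarith
      exact_mod_cast h1
    have hm1 := abs_le.1 hmN
    have hk0 : 0 ≤ m + N + s := by linarith [hm1.1, (Nat.cast_nonneg s : (0 : ℤ) ≤ s)]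
    set k : ℕ := (m + N + s).toNat with hk
    have hkz : (k : ℤ) = m + N + s := Int.toNat_of_nonneg hk0
    have hbk : b + m = b' + k := by
      rw [hkz, hb']
      ring
    by_cases hkU : k ∈ (range (H + 1)).filter (fun k : ℕ => (∀ j, b' + k ≠ a * t j) ∧ ∀ p : ℕ, p.Prime →
        p ≤ y → p ∉ F → ¬ k ≡ β p [MOD p])
    · exact Or.inl ⟨k, hkU, hbk⟩
    · right
      have hkH : k < H + 1 := by
        have h1 : (k : ℤ) ≤ H := by
          rw [hkz]
          have h2 : (s : ℤ) < N := by exact_mod_cast hsN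
          have h3 : 3 * (N : ℤ) ≤ H := by
            have : 3 * N ≤ H := by omega
            exact_mod_cast this
          linarith [hm1.2]
        have : k ≤ H := by exact_mod_cast h1
        omega
      rw [mem_filter, mem_range] at hkU
      push Not at hkU
      obtain ⟨p, hpp, hpy, hpF, hpk⟩ := hkU hkH (fun j => by rw [← hbk]; exact hbm j)
      refine ⟨p, hpp, hpy, fun h => hpF ((hFmem p).2 ⟨hpy, hpp, Or.inr (Or.inr (Or.inl h))⟩), ?_⟩
      intro n hn
      have hpPW : p ∈ PW X S ps := mem_PW.2 ⟨hpy, hpp, fun h => hpF ((hFmem p).2 ⟨hpy, hpp, Or.inl h⟩),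
        fun h => hpF ((hFmem p).2 ⟨hpy, hpp, Or.inr (Or.inl h)⟩)⟩
      have h1 : n ≡ ρ p [MOD p] := (hn.of_dvd ((prime_dvd_WW hpp).2 hpPW)).trans (hr p hpPW)
      have h2 := (hρ p hpPW).2.2 hpF
      have h3 : (p : ℤ) ∣ (n : ℤ) - ρ p := (Nat.modEq_iff_dvd.1 h1.symm)
      have h4 : (p : ℤ) ∣ (k : ℤ) - β p := (Nat.modEq_iff_dvd.1 hpk.symm)
      have h5 : a * n + b + m = a * (n - ρ p) + (a * ρ p + (b' + β p)) + (k - β p) := by
        have : a * (n : ℤ) + b + m = a * n + (b + m) := by ring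
        rw [this, hbk]
        ring
      rw [h5]
      exact dvd_add (dvd_add (h3.mul_left a) h2) h4

end Pool.Agent.J4H73.CH
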