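import Pool.Agent.J4H73.CH.MainP
import Pool.Agent.N610.AP.Fin
import Pool.Agent.H318R2.Cr.Prod

/-! Products over the sieving primes. -/

set_option autoImplicit false

open Finset Filter

namespace Pool.Agent.J4H73.CH

open Pool.Agent.H378R2 Pool.Agent.H378R2.LSBV Pool.Agent.N610.AP Pool.Agent.Y882
open Pool.Agent.J4H73.BV

theorem fac_nn {p : ℕ} (hp : p.Prime) : (0 : ℝ) ≤ 1 - 1 / (p : ℝ) ∧ 1 - 1 / (p : ℝ) ≤ 1 := by
  have h1 : (1 : ℝ) ≤ p := by exact_mod_cast hp.one_lt.le
  constructor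
  · rw [sub_nonneg, div_le_one (by linarith)]
    exact h1
  · have : 0 ≤ 1 / (p : ℝ) := by positivity
    linarith

theorem gh_nn (W ps h p : ℕ) (hp : p.Prime) : 0 ≤ gh W ps h p ∧ gh W ps h p ≤ 1 / ((p : ℝ) - 1) := by
  have h1 : (2 : ℝ) ≤ p := by exact_mod_cast hp.two_le
  have h2 : 0 ≤ 1 / ((p : ℝ) - 1) := by apply div_nonneg <;> linarith
  unfold gh
  split_ifs
  · exact ⟨le_rfl, h2⟩
  · exact ⟨h2, le_rfl⟩

theorem gh_le_one (W ps h p : ℕ) (hp : p.Prime) : 0 ≤ 1 - gh W ps h p ∧ 1 - gh W ps h p ≤ 1 := by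
  have h0 := gh_nn W ps h p hp
  have h1 : (2 : ℝ) ≤ p := by exact_mod_cast hp.two_le
  have h2 : 1 / ((p : ℝ) - 1) ≤ 1 := by
    rw [div_le_one (by linarith)]
    linarith
  constructor <;> linarith [h0.1, h0.2]

/-- `W / φ(W) ≤ C log log X` -/
theorem W_phi : ∃ C : ℝ, 0 < C ∧ ∀ᶠ X : ℝ in atTop, ∀ (ps : ℕ) (S : Finset ℕ),
    (WW X S ps : ℝ) ≤ C * Real.log (Real.log X) * (WW X S ps).totient := by
  obtain ⟨c₁, c₂, hc₁, -, hV⟩ := Pool.Agent.H318R2.Cr.cz_bounds
  refine ⟨1 / c₁, by positivity, ?_⟩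
  filter_upwards [Real.tendsto_log_atTop.eventually_ge_atTop 4000] with X hL
  intro ps S
  set L := Real.log X with hLd
  set y := yy X with hy
  have hy2 : 2 ≤ y := by
    apply Nat.le_floor
    push_cast
    linarith
  have hyL : (y : ℝ) ≤ L := by
    have : (y : ℝ) ≤ L / 1000 := Nat.floor_le (by positivity)
    linarith
  have hyr : (2 : ℝ) ≤ y := by exact_mod_cast hy2
  have hlogy : 0 < Real.log y := Real.log_pos (by linarith)
  have hlog : Real.log y ≤ Real.log L := Real.log_le_log (by linarith) hyL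
  have h1 := (hV y hy2).1
  have hWt := totient_prod (PW X S ps) (fun p hp => (mem_PW.1 hp).2.1)
  have hWd : (∏ p ∈ PW X S ps, p) = WW X S ps := rfl
  rw [hWd] at hWt
  have h2 : Pool.Agent.H318R2.Cr.V y ≤ ∏ p ∈ PW X S ps, (1 - 1 / (p : ℝ)) := by
    unfold Pool.Agent.H318R2.Cr.V
    have hsub : PW X S ps ⊆ Pool.Agent.H318R2.Cr.Pz y := by
      intro p hp
      unfold Pool.Agent.H318R2.Cr.Pz
      rw [mem_filter, mem_Ioc]
      have := mem_PW.1 hp
      exact ⟨⟨this.2.1.pos, this.1⟩, this.2.1⟩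
    rw [← prod_sdiff hsub]
    have hpr : ∀ p ∈ Pool.Agent.H318R2.Cr.Pz y, p.Prime := fun p hp => by
      unfold Pool.Agent.H318R2.Cr.Pz at hp
      exact (mem_filter.1 hp).2
    calc (∏ p ∈ Pool.Agent.H318R2.Cr.Pz y \ PW X S ps, (1 - 1 / (p : ℝ))) *
        ∏ p ∈ PW X S ps, (1 - 1 / (p : ℝ)) ≤ 1 * ∏ p ∈ PW X S ps, (1 - 1 / (p : ℝ)) := by
          apply mul_le_mul_of_nonneg_right
          · apply prod_le_one
            · intro p hp
              exact (fac_nn (hpr p (mem_sdiff.1 hp).1)).1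
            · intro p hp
              exact (fac_nn (hpr p (mem_sdiff.1 hp).1)).2
          · exact prod_nonneg fun p hp => (fac_nn (mem_PW.1 hp).2.1).1
      _ = _ := one_mul _
  have hW0 : (0 : ℝ) ≤ WW X S ps := Nat.cast_nonneg _
  have h3 : c₁ ≤ (∏ p ∈ PW X S ps, (1 - 1 / (p : ℝ))) * Real.log L := by
    have hpn : 0 ≤ ∏ p ∈ PW X S ps, (1 - 1 / (p : ℝ)) := prod_nonneg fun p hp => (fac_nn (mem_PW.1 hp).2.1).1
    calc c₁ ≤ Pool.Agent.H318R2.Cr.V y * Real.log y := h1
      _ ≤ (∏ p ∈ PW X S ps, (1 - 1 / (p : ℝ))) * Real.log y := mul_le_mul_of_nonneg_right h2 hlogy.le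
      _ ≤ _ := mul_le_mul_of_nonneg_left hlog hpn
  rw [hWt]
  calc (WW X S ps : ℝ) = 1 / c₁ * (WW X S ps * c₁) := by field_simp
    _ ≤ 1 / c₁ * (WW X S ps * ((∏ p ∈ PW X S ps, (1 - 1 / (p : ℝ))) * Real.log L)) := by gcongr
    _ = _ := by ring

/-- the primes dividing a small number do not matter -/
theorem small_div : ∀ᶠ X : ℝ in atTop, ∀ (ps : ℕ) (S : Finset ℕ), GoodS X S → ∀ (J m : ℕ),
    m ≠ 0 → (m : ℝ) ≤ (Real.log X) ^ 6 →
    1 ≤ 3 * ∏ p ∈ (PZ X S ps J).filter (fun p => p ∣ m), (1 - 1 / (p : ℝ)) := by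
  have t1 := Real.tendsto_log_atTop
  have t2 : Tendsto (fun y : ℝ => Real.log (Real.log y)) atTop atTop := t1.comp t1
  have hl : ∀ᶠ t : ℝ in atTop, Real.log t ≤ 1 / 96000 * t := by
    have h := (Real.isLittleO_pow_log_id_atTop (n := 1)).def (show (0 : ℝ) < 1 / 96000 by norm_num)
    filter_upwards [h, eventually_ge_atTop (1 : ℝ)] with t ht h1
    rw [pow_one, Real.norm_eq_abs, abs_of_nonneg (Real.log_nonneg h1), Real.norm_eq_abs, id,
      abs_of_nonneg (by linarith)] at ht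
    exact ht
  filter_upwards [t1.eventually hl, t1.eventually_ge_atTop 4000, t2.eventually_ge_atTop 10] with X h1 h2 h3
  intro ps S hS J m hm hmL
  set L := Real.log X with hL
  set F := (PZ X S ps J).filter (fun p => p ∣ m) with hF
  have hFp : ∀ p ∈ F, p.Prime := fun p hp => (mem_PZ.1 (mem_filter.1 hp).1).1
  have hm1 : 1 ≤ m := Nat.pos_of_ne_zero hm
  have hlogm : Real.log m ≤ 6 * Real.log L := by
    have : Real.log (m : ℝ) ≤ Real.log (L ^ 6) := Real.log_le_log (by exact_mod_cast hm1) hmL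
    rwa [Real.log_pow] at this
  have hsum : ∑ p ∈ F, (1 : ℝ) / p ≤ 1 / 4 := by
    have e1 : ∑ p ∈ F, (1 : ℝ) / p ≤ ∑ p ∈ S, (1 : ℝ) / p + ∑ p ∈ F.filter (fun p => yy X < p), (1 : ℝ) / p := by
      rw [← sum_filter_add_sum_filter_not F (fun p => yy X < p), add_comm]
      apply add_le_add_left
      apply sum_le_sum_of_subset_of_nonneg
      · intro p hp
        rw [mem_filter] at hp
        have h4 := mem_PZ.1 (mem_filter.1 hp.1).1
        by_contra h5
        apply h4.2.2.1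
        rw [mem_PW]
        exact ⟨not_lt.1 hp.2, h4.1, h5, h4.2.2.2⟩
      · intro p _ _
        positivity
    have e2 : ∑ p ∈ S, (1 : ℝ) / p ≤ 1 / 8 := by
      refine hS.2.trans ?_
      rw [div_le_div_iff₀ (by positivity) (by norm_num)]
      nlinarith
    have e3 : ∑ p ∈ F.filter (fun p => yy X < p), (1 : ℝ) / p ≤ 1 / 8 := by
      have e4 : ∑ p ∈ F.filter (fun p => yy X < p), (1 : ℝ) / p ≤
          (F.filter (fun p => yy X < p)).card • (1000 / L) := by
        apply sum_le_card_nsmul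
        intro p hp
        rw [mem_filter] at hp
        have h4 : (yy X : ℝ) + 1 ≤ p := by exact_mod_cast hp.2
        have h5 : L / 1000 < (yy X : ℝ) + 1 := Nat.lt_floor_add_one _
        have h6 : L / 1000 ≤ p := by linarith
        rw [show 1000 / L = 1 / (L / 1000) by field_simp]
        exact one_div_le_one_div_of_le (by positivity) h6
      have e5 : ((F.filter (fun p => yy X < p)).card : ℝ) ≤ 2 * Real.log m := by
        have h4 : (F.filter (fun p => yy X < p)).card ≤ m.primeFactors.card := by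
          apply card_le_card
          intro p hp
          have h5 := (mem_filter.1 hp).1
          exact Nat.mem_primeFactors.2 ⟨hFp p h5, (mem_filter.1 h5).2, hm⟩
        have h5 := Pool.Agent.H398R2.BV.omega_le_log m hm1
        exact le_trans (by exact_mod_cast h4) h5
      rw [nsmul_eq_mul] at e4
      refine e4.trans ?_
      have h6 : (0 : ℝ) ≤ 1000 / L := by positivity
      calc ((F.filter (fun p => yy X < p)).card : ℝ) * (1000 / L) ≤
          (2 * (6 * Real.log L)) * (1000 / L) := by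
            apply mul_le_mul_of_nonneg_right _ h6
            linarith
        _ ≤ (2 * (6 * (1 / 96000 * L))) * (1000 / L) := by
            apply mul_le_mul_of_nonneg_right _ h6
            linarith
        _ = 1 / 8 := by field_simp; norm_num
    linarith
  have e6 : Real.exp (-(2 * ∑ p ∈ F, (1 : ℝ) / p)) ≤ ∏ p ∈ F, (1 - 1 / (p : ℝ)) := by
    rw [mul_sum, ← sum_neg_distrib, Real.exp_sum]
    apply prod_le_prod (fun p _ => (Real.exp_pos _).le)
    intro p hp
    have h4 : (2 : ℝ) ≤ p := by exact_mod_cast (hFp p hp).two_le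
    exact exp_le_one_sub (by positivity) (one_div_le_one_div_of_le (by norm_num) h4)
  have e7 : Real.exp (-1) ≤ ∏ p ∈ F, (1 - 1 / (p : ℝ)) := by
    refine le_trans (Real.exp_le_exp.2 ?_) e6
    linarith
  have e8 : (1 : ℝ) / 3 ≤ Real.exp (-1) := by
    rw [Real.exp_neg, ← one_div]
    apply one_div_le_one_div_of_le (Real.exp_pos _)
    linarith [Real.exp_one_lt_d9]
  linarith

end Pool.Agent.J4H73.CH
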