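import Pool.Agent.J4H73.CH.Surv

/-! The exceptional prime. -/

set_option autoImplicit false

open Finset Filter

namespace Pool.Agent.J4H73.CH

open Pool.Agent.H378R2 Pool.Agent.H378R2.LSBV Pool.Agent.N610.AP Pool.Agent.Y882
open Pool.Agent.J4H73.BV
open Pool.Agent.H312R2.RG (ClassB ClassA tot)

theorem MPhi_triv (X : ℝ) (hX : 0 ≤ X) : 0 ≤ MPhi X ∧ MPhi X ≤ 3 * X := by
  unfold MPhi
  refine ⟨sum_nonneg fun n _ => LSBV.Phi_nonneg _, ?_⟩
  calc ∑ n ∈ Icc 1 ⌊3 * X⌋₊, Phi (n / X) ≤ ∑ n ∈ Icc 1 ⌊3 * X⌋₊, (1 : ℝ) :=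
        sum_le_sum fun n _ => LSBV.Phi_le_one _
    _ = ⌊3 * X⌋₊ := by rw [sum_const, Nat.card_Icc]; simp
    _ ≤ 3 * X := Nat.floor_le (by linarith)

/-- the support of `Phi` -/
theorem Phi_supp (X : ℝ) (hX : 0 < X) (n : ℕ) (h : Phi (n / X) ≠ 0) : X < n := by
  by_contra hn
  push Not at hn
  apply h
  unfold Phi
  apply max_eq_left
  have h1 : (n : ℝ) / X ≤ 1 := by rw [div_le_one hX]; exact hn
  have h2 : Real.log (n / X) ≤ 0 := by
    rcases Nat.eq_zero_or_pos n with h0 | h0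
    · rw [h0]; simp
    · exact Real.log_nonpos (by positivity) h1
  have h3 : 1 / 2 - Real.log (n / X) ≤ |Real.log (n / X) - 1 / 2| := by
    rw [abs_sub_comm]
    exact le_abs_self _
  linarith

open Classical in
theorem exc : ∃ C0 : ℕ, 1 ≤ C0 ∧ ∀ δ : ℝ, 0 < δ → ∃ C : ℝ, 0 < C ∧
    ∀ᶠ X : ℝ in atTop, ∀ (ps : ℕ) (S : Finset ℕ), GoodP C0 ps → GoodS X S → ps.Prime →
    ∀ J : ℕ, 1 ≤ J → X ^ δ ≤ 2 ^ 2 ^ J → ((2 ^ 2 ^ J) ^ (C0 * C0) : ℕ) ≤ ⌊Real.exp (2 * LL X)⌋₊ →
    (J : ℝ) + 2 ≤ 2 * Real.log X →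
    ∀ (r h : ℕ), (h : ℝ) ≤ (Real.log X) ^ 2 →
    ∑ n ∈ (Icc 1 ⌊3 * X⌋₊).filter (fun n => n ≡ r [MOD WW X S ps] ∧ ps ∣ n + h ∧ n.Prime ∧
        ∀ p ∈ N610.AP.PZ X S ps J, ¬ p ∣ n + h),
        Phi (n / X) * ArithmeticFunction.vonMangoldt n ≤
      C / ps * (LPhi X / (WW X S ps).totient *
        ∏ p ∈ N610.AP.PZ X S ps J, (1 - gh (WW X S ps) ps h p)) + X ^ (199 / 200 : ℝ) := by
  obtain ⟨C0, hC0, HA⟩ := siftA 2
  refine ⟨C0, hC0, ?_⟩
  intro δ hδ
  obtain ⟨CM, hCM, Hup⟩ := prod_upper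
  refine ⟨2400 * CM / δ, by positivity, ?_⟩
  have t1 := Real.tendsto_log_atTop
  have t2 : Tendsto (fun y : ℝ => Real.log (Real.log y)) atTop atTop := t1.comp t1
  have t3 : ∀ᶠ X : ℝ in atTop, Real.log X ≤ X ^ δ := by
    have h := (isLittleO_log_rpow_atTop hδ).def (show (0 : ℝ) < 1 by norm_num)
    filter_upwards [h, eventually_ge_atTop (1 : ℝ)] with t ht h1
    rw [Real.norm_eq_abs, abs_of_nonneg (Real.log_nonneg h1), Real.norm_eq_abs,
      abs_of_nonneg (by positivity), one_mul] at ht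
    exact ht
  filter_upwards [LPhi_ge, eventually_ge_atTop 4, t1.eventually_ge_atTop 100,
    t1.eventually_ge_atTop (1000 * C0), t2.eventually_ge_atTop (C0 + 1), t3,
    Pool.Agent.H398R2.BV.ev_log 20 2 (1 / 1000) (by norm_num)] with X hLP hX4 hL100 hLZ hL2Z hyJ' hev
  intro ps S hps hS hpp J hJ1 hJδ hJC hJL r h hh
  set L := Real.log X with hL
  set W := WW X S ps with hW
  have hW0 : 0 < W := H378R2.WW_pos X S ps
  have hWr : (0 : ℝ) < W := by exact_mod_cast hW0
  have hX0 : 0 < X := by linarith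
  have hX1 : 1 ≤ X := by linarith
  have hL0 : 0 < L := by linarith
  have hφ0 : (0 : ℝ) < W.totient := by exact_mod_cast Nat.totient_pos.2 hW0
  have hps0 : (0 : ℝ) < ps := by exact_mod_cast hpp.pos
  set P := N610.AP.PZ X S ps J with hP
  have hPZ : ∀ p ∈ P, C0 < p := by
    intro p hp
    by_contra h
    push Not at h
    exact (mem_PZ.1 hp).2.2.1 (Pool.Agent.TH101.RG.small_mem_PW hLZ hL2Z hps le_rfl hS (mem_PZ.1 hp).1 h)
  set PG := ∏ p ∈ P, (1 - gh W ps h p) with hPG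
  have hPG0 : 0 ≤ PG := prod_nonneg fun p hp => (gh_le_one W ps h p (mem_PZ.1 hp).1).1
  have hLP0 : 0 ≤ LPhi X := by
    have : 0 ≤ X / 200 := by positivity
    linarith
  -- the logarithm
  have hℓL : Real.log (3 * X) ≤ 2 * L := by
    rw [Real.log_mul (by norm_num) hX0.ne']
    have : Real.log 3 ≤ Real.log X := Real.log_le_log (by norm_num) (by linarith)
    linarith
  have hℓ0 : 0 ≤ Real.log (3 * X) := Real.log_nonneg (by linarith)
  set F := (Icc 1 ⌊3 * X⌋₊).filter (fun n => n ≡ r [MOD W] ∧ ps ∣ n + h ∧ n.Prime ∧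
        ∀ p ∈ P, ¬ p ∣ n + h) with hF
  have hlam : ∀ n ∈ F, Phi (n / X) * ArithmeticFunction.vonMangoldt n ≤ 2 * L * Phi (n / X) := by
    intro n hn
    rw [hF, mem_filter, mem_Icc] at hn
    have h1 : ArithmeticFunction.vonMangoldt n ≤ 2 * L := by
      refine ArithmeticFunction.vonMangoldt_le_log.trans (le_trans ?_ hℓL)
      apply Real.log_le_log (by exact_mod_cast hn.1.1)
      exact (Nat.le_floor_iff (by linarith)).1 hn.1.2
    rw [mul_comm]
    exact mul_le_mul_of_nonneg_right h1 (LSBV.Phi_nonneg _)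
  refine (sum_le_sum hlam).trans ?_
  rw [← mul_sum]
  by_cases hpsX : (ps : ℝ) ≤ X ^ (1 / 100 : ℝ)
  · -- the sieve
    have hpsW : ¬ ps ∣ W := fun hd => (mem_PW.1 ((prime_dvd_WW hpp).1 hd)).2.2.2 rfl
    obtain ⟨b₀, hb₀⟩ := crt_class W r {ps} (fun p => dres p 0 h)
      (fun p hp => by rw [mem_singleton] at hp; rw [hp]; exact ⟨hpp, hpsW⟩)
      (fun p hp => by rw [mem_singleton] at hp; rw [hp]; exact dres_lt _ _ _ hpp.pos)
    rw [prod_singleton] at hb₀
    set t : Fin 2 → ℕ := ![0, h] with ht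
    have ht0 : t 0 = 0 := rfl
    have ht1 : t 1 = h := rfl
    have hdv : ∀ p n : ℕ, 0 < p → (n % p = dres p 0 h ↔ p ∣ n + h) := by
      intro p n hp
      rw [mod_eq_dres p 0 h n hp]
      have e : (n : ℤ) + (h : ℤ) - ((0 : ℕ) : ℤ) = ((n + h : ℕ) : ℤ) := by push_cast; ring
      rw [e]
      exact_mod_cast Iff.rfl
    have hXe : Real.exp (2 * LL X) = X ^ (1 / 100 : ℝ) := by
      rw [Real.rpow_def_of_pos hX0]
      congr 1
      unfold LL
      ring
    have hWX : (W : ℝ) ≤ X ^ (7 / 5000 : ℝ) :=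
      le_trans (by exact_mod_cast Nat.le_of_dvd (primorial_pos _) (WW_dvd_primorial X S ps))
        (primorial_yy_le' X hX1)
    have hcl : ClassAg X W ps ps t (fun _ => (1 : ℝ)) 1 (fun _ => 5) := by
      intro q b hq _
      rw [mem_QQ] at hq
      have hq0 : 0 < q := hq.1.1
      have hqX : (q : ℝ) ≤ X ^ (1 / 100 : ℝ) := by
        rw [← hXe]
        exact (Nat.le_floor_iff (Real.exp_pos _).le).1 hq.1.2
      have h1 := phi_sum_class X hX4 (W * ps * q) b (Nat.mul_pos (Nat.mul_pos hW0 hpp.pos) hq0) (by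
        push_cast
        calc (W : ℝ) * ps * q ≤ X ^ (7 / 5000 : ℝ) * X ^ (1 / 100 : ℝ) * X ^ (1 / 100 : ℝ) := by gcongr
          _ = X ^ (7 / 5000 + 1 / 100 + 1 / 100 : ℝ) := by
              rw [← Real.rpow_add hX0, ← Real.rpow_add hX0]
          _ ≤ X ^ (1 : ℝ) := Real.rpow_le_rpow_of_exponent_le hX1 (by norm_num)
          _ = X := Real.rpow_one X)
      refine le_trans (le_of_eq ?_) h1
      simp only [mul_one, one_mul]
      congr 2
      push_cast
      rw [mul_assoc, one_div_mul_one_div]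
    have hsA := HA C0 J X ps S le_rfl hpp hPZ hJC t b₀ (fun _ => 1) 1 (fun _ => 5)
      (fun _ => zero_le_one) zero_le_one (fun _ => by norm_num) hcl
    rw [← hP, ← hW] at hsA
    have hsub : ∑ n ∈ F, Phi (n / X) ≤
        ∑ n ∈ ((Icc 1 ⌊3 * X⌋₊).filter (fun n => n ≡ b₀ [MOD W * ps])).filter
          (fun n => ∀ p ∈ P, n % p ∉ OmA t p), Phi (n / X) * (fun _ => (1 : ℝ)) (n : ℤ) := by
      simp only [mul_one]
      rw [← sum_filter_add_sum_filter_not F (fun n : ℕ => X < n)]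
      have e0 : ∑ n ∈ F.filter (fun n : ℕ => ¬ X < n), Phi (n / X) = 0 := by
        apply sum_eq_zero
        intro n hn
        by_contra hc
        exact (mem_filter.1 hn).2 (Phi_supp X hX0 n hc)
      rw [e0, add_zero]
      apply sum_le_sum_of_subset_of_nonneg
      · intro n hn
        rw [mem_filter, hF, mem_filter] at hn
        obtain ⟨⟨hn1, hn2, hn3, hn4, hn5⟩, hn6⟩ := hn
        rw [mem_filter, mem_filter]
        refine ⟨⟨hn1, ?_⟩, ?_⟩
        · rw [← hb₀ n]
          refine ⟨hn2, ?_⟩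
          intro p hp
          rw [mem_singleton] at hp
          rw [hp]
          exact (hdv ps n hpp.pos).2 hn3
        · intro p hp hmem
          have hpz := mem_PZ.1 hp
          obtain ⟨l, hl⟩ := (mod_mem_OmA t p n hpz.1.pos).1 hmem
          fin_cases l
          · have h2 : p ∣ n := by simpa [ht] using hl
            have h3 := (Nat.prime_dvd_prime_iff_eq hpz.1 hn4).1 h2
            have h4 : (2 ^ 2 ^ J : ℕ) ≤ ⌊Real.exp (2 * LL X)⌋₊ :=
              le_trans (Nat.le_self_pow (by positivity) _) hJC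
            have h5 : (n : ℝ) ≤ X ^ (1 / 100 : ℝ) := by
              rw [← hXe]
              refine (Nat.le_floor_iff (Real.exp_pos _).le).1 ?_
              rw [← h3]
              exact hpz.2.1.trans h4
            have h6 : X ^ (1 / 100 : ℝ) ≤ X := by
              calc X ^ (1 / 100 : ℝ) ≤ X ^ (1 : ℝ) := Real.rpow_le_rpow_of_exponent_le hX1 (by norm_num)
                _ = X := Real.rpow_one X
            linarith
          · exact hn5 p hp (by simpa [ht] using hl)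
      · intro n _ _
        exact LSBV.Phi_nonneg _
    have hOA : ∀ p ∈ P, 0 ≤ 1 - ((OmA t p).card : ℝ) * (1 / (p : ℝ)) := by
        intro p hp
        have hpz := mem_PZ.1 hp
        have hp0 : (0 : ℝ) < p := by exact_mod_cast hpz.1.pos
        have h1 : (OmA t p).card ≤ p := by
          have : OmA t p ⊆ range p := by
            intro a ha
            unfold OmA at ha
            rw [mem_image] at ha
            obtain ⟨l, _, rfl⟩ := ha
            exact mem_range.2 (dres_lt _ _ _ hpz.1.pos)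
          have := card_le_card this
          rwa [card_range] at this
        have h2 : ((OmA t p).card : ℝ) ≤ p := by exact_mod_cast h1
        rw [sub_nonneg, mul_one_div, div_le_one hp0]
        exact h2
    have hOA0 : 0 ≤ ∏ p ∈ P, (1 - ((OmA t p).card : ℝ) * (1 / (p : ℝ))) := prod_nonneg hOA
    have hprod : ∏ p ∈ P, (1 - ((OmA t p).card : ℝ) * (1 / (p : ℝ))) ≤
        (∏ p ∈ P, (1 - 1 / (p : ℝ))) * PG := by
      rw [hPG, ← prod_mul_distrib]
      apply Finset.prod_le_prod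
      · exact hOA
      · intro p hp
        have hpz := mem_PZ.1 hp
        rw [dens_id t 0 p hpz.1]
        apply mul_le_mul_of_nonneg_left _ (fac_nn hpz.1).1
        have hp2 : (2 : ℝ) ≤ p := by exact_mod_cast hpz.1.two_le
        have hp1 : (0 : ℝ) < (p : ℝ) - 1 := by linarith
        have hpW : ¬ p ∣ W := fun hd => hpz.2.2.1 ((prime_dvd_WW hpz.1).1 hd)
        have hpps : p ≠ ps := hpz.2.2.2
        have hv0 : 0 ≤ 1 / ((p : ℝ) - 1) := by positivity
        unfold gh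
        by_cases h1 : p ∣ h
        · rw [if_pos (Or.inr (Or.inr h1))]
          have : 0 ≤ ((OmB t 0 p).card : ℝ) * (1 / ((p : ℝ) - 1)) := by positivity
          linarith
        · rw [if_neg (by push Not; exact ⟨hpW, hpps, h1⟩)]
          have h2 : 1 ≤ (OmB t 0 p).card := by
            apply card_pos.2
            refine ⟨dres p (t 0) (t 1), ?_⟩
            unfold OmB
            rw [mem_erase, mem_image]
            refine ⟨?_, 1, mem_univ _, rfl⟩
            intro h0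
            apply h1
            have := (hdv p 0 hpz.1.pos).1 (by
              rw [Nat.zero_mod]
              rw [ht0, ht1] at h0
              exact h0.symm)
            simpa using this
          have h3 : (1 : ℝ) ≤ ((OmB t 0 p).card : ℝ) := by exact_mod_cast h2
          have := mul_le_mul_of_nonneg_right h3 hv0
          linarith
    -- Mertens
    have hzr : X ^ δ ≤ ((2 ^ 2 ^ J : ℕ) : ℝ) := by push_cast; exact hJδ
    have hyJ : yy X ≤ 2 ^ 2 ^ J := by
      have h1 : (yy X : ℝ) ≤ L / 1000 := Nat.floor_le (by positivity)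
      have h2 : (yy X : ℝ) ≤ ((2 ^ 2 ^ J : ℕ) : ℝ) := by linarith
      exact_mod_cast h2
    have hlz : δ * L ≤ Real.log ((2 ^ 2 ^ J : ℕ) : ℝ) := by
      rw [← Real.log_rpow hX0]
      exact Real.log_le_log (by positivity) hzr
    have hup := Hup X S ps J hJ1 hyJ
    rw [← hP, ← hW] at hup
    set PU := ∏ p ∈ P, (1 - 1 / (p : ℝ)) with hPU
    have hPU0 : 0 ≤ PU := prod_nonneg fun p hp => (fac_nn (mem_PZ.1 hp).1).1
    have hPUle : PU ≤ W / W.totient * (CM / (δ * L)) := by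
      rw [div_mul_eq_mul_div, le_div_iff₀ hφ0]
      calc PU * W.totient = W.totient * PU := by ring
        _ ≤ W * (CM / Real.log ((2 ^ 2 ^ J : ℕ) : ℝ)) := hup
        _ ≤ W * (CM / (δ * L)) := by gcongr
    obtain ⟨hM0, hM3⟩ := MPhi_triv X hX0.le
    have hmain : 2 * L * ((1 + (1 / 2 : ℝ) ^ C0) * (1 * (MPhi X * (1 / ((W : ℝ) * ps))) *
        ∏ p ∈ P, (1 - ((OmA t p).card : ℝ) * (1 / (p : ℝ))))) ≤
        2400 * CM / δ / ps * (LPhi X / W.totient * PG) := by
      have e1 : (1 + (1 / 2 : ℝ) ^ C0) ≤ 2 := by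
        have := pow_le_one₀ (show (0 : ℝ) ≤ 1 / 2 by norm_num) (show (1 / 2 : ℝ) ≤ 1 by norm_num) (n := C0)
        linarith
      have e2 : ∏ p ∈ P, (1 - ((OmA t p).card : ℝ) * (1 / (p : ℝ))) ≤
          W / W.totient * (CM / (δ * L)) * PG := hprod.trans (mul_le_mul_of_nonneg_right hPUle hPG0)
      have e3 : MPhi X ≤ 600 * LPhi X := by linarith
      calc _ ≤ 2 * L * (2 * (1 * ((600 * LPhi X) * (1 / ((W : ℝ) * ps))) *
            (W / W.totient * (CM / (δ * L)) * PG))) := by gcongr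
        _ = _ := by field_simp; ring
    have htot : tot 2 X W ps (fun _ => 5) ≤ 5 * X ^ (1 / 20 : ℝ) := by
      unfold tot
      rw [hXe]
      have e1 : ∀ q ∈ QQ W ps ⌊X ^ (1 / 100 : ℝ)⌋₊, (q.divisors.card : ℝ) ^ (2 * 2) * 5 ≤
          5 * X ^ (1 / 25 : ℝ) := by
        intro q hq
        rw [mem_QQ] at hq
        have h1 : (q.divisors.card : ℝ) ≤ X ^ (1 / 100 : ℝ) := by
          have h2 : (q.divisors.card : ℝ) ≤ q := by exact_mod_cast Nat.card_divisors_le_self q
          exact h2.trans ((Nat.le_floor_iff (by positivity)).1 hq.1.2)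
        have h3 : (q.divisors.card : ℝ) ^ (2 * 2) ≤ (X ^ (1 / 100 : ℝ)) ^ (2 * 2) :=
          pow_le_pow_left₀ (Nat.cast_nonneg _) h1 _
        have h4 : (X ^ (1 / 100 : ℝ)) ^ (2 * 2) = X ^ (1 / 25 : ℝ) := by
          rw [← Real.rpow_natCast, ← Real.rpow_mul hX0.le]
          norm_num
        rw [h4] at h3
        linarith
      refine (sum_le_sum e1).trans ?_
      rw [sum_const, nsmul_eq_mul]
      have e2 : ((QQ W ps ⌊X ^ (1 / 100 : ℝ)⌋₊).card : ℝ) ≤ X ^ (1 / 100 : ℝ) := by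
        have : (QQ W ps ⌊X ^ (1 / 100 : ℝ)⌋₊).card ≤ ⌊X ^ (1 / 100 : ℝ)⌋₊ := by
          refine (card_filter_le _ _).trans ?_
          rw [Nat.card_Icc]
          omega
        exact le_trans (by exact_mod_cast this) (Nat.floor_le (by positivity))
      calc ((QQ W ps ⌊X ^ (1 / 100 : ℝ)⌋₊).card : ℝ) * (5 * X ^ (1 / 25 : ℝ)) ≤
          X ^ (1 / 100 : ℝ) * (5 * X ^ (1 / 25 : ℝ)) := by gcongr
        _ = 5 * (X ^ (1 / 100 : ℝ) * X ^ (1 / 25 : ℝ)) := by ring
        _ = 5 * X ^ (1 / 20 : ℝ) := by rw [← Real.rpow_add hX0]; norm_num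
    have htot0 : 0 ≤ tot 2 X W ps (fun _ => 5) := by
      unfold tot
      exact sum_nonneg fun q _ => by positivity
    have herr : 2 * L * (((J : ℝ) + 2) * tot 2 X W ps (fun _ => 5)) ≤ X ^ (199 / 200 : ℝ) := by
      calc 2 * L * (((J : ℝ) + 2) * tot 2 X W ps (fun _ => 5)) ≤ 2 * L * ((2 * L) * (5 * X ^ (1 / 20 : ℝ))) := by
            gcongr
        _ = (20 * L ^ 2) * X ^ (1 / 20 : ℝ) := by ring
        _ ≤ X ^ (1 / 1000 : ℝ) * X ^ (1 / 20 : ℝ) := by gcongr
        _ = X ^ (1 / 1000 + 1 / 20 : ℝ) := by rw [← Real.rpow_add hX0]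
        _ ≤ _ := Real.rpow_le_rpow_of_exponent_le hX1 (by norm_num)
    have h9 := hsub.trans hsA
    have h10 := mul_le_mul_of_nonneg_left h9 (show 0 ≤ 2 * L by positivity)
    rw [mul_add] at h10
    linarith
  · -- trivial
    push Not at hpsX
    have hcount : ∑ n ∈ F, Phi (n / X) ≤ 4 * X / ps + 1 := by
      have e1 : ∑ n ∈ F, Phi (n / X) ≤ (F.card : ℝ) := by
        calc ∑ n ∈ F, Phi (n / X) ≤ ∑ n ∈ F, (1 : ℝ) := sum_le_sum fun n _ => LSBV.Phi_le_one _
          _ = _ := by rw [sum_const]; simp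
      refine e1.trans ?_
      have e2 : F.card ≤ (⌊3 * X⌋₊ + h) / ps := by
        have h1 : F.card ≤ ((Ioc 0 (⌊3 * X⌋₊ + h)).filter (fun m => ps ∣ m)).card := by
          apply card_le_card_of_injOn (fun n => n + h)
          · intro n hn
            rw [mem_coe, hF, mem_filter, mem_Icc] at hn
            rw [mem_coe, mem_filter, mem_Ioc]
            refine ⟨⟨?_, ?_⟩, hn.2.2.1⟩
            · show 0 < n + h
              omega
            · show n + h ≤ ⌊3 * X⌋₊ + h
              omega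
          · intro a _ b _ hab
            have : a + h = b + h := hab
            omega
        rwa [Nat.Ioc_filter_dvd_card_eq_div] at h1
      have e3 : (((⌊3 * X⌋₊ + h) / ps : ℕ) : ℝ) ≤ ((⌊3 * X⌋₊ + h : ℕ) : ℝ) / ps := Nat.cast_div_le
      have e4 : ((⌊3 * X⌋₊ + h : ℕ) : ℝ) ≤ 4 * X := by
        push_cast
        have h1 : (⌊3 * X⌋₊ : ℝ) ≤ 3 * X := Nat.floor_le (by linarith)
        have h2 : L ^ 2 ≤ X := by
          have h3 : L ^ 3 / 6 ≤ Real.exp L := by
            have := Real.pow_div_factorial_le_exp L hL0.le 3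
            simpa [Nat.factorial] using this
          rw [show Real.exp L = X from Real.exp_log hX0] at h3
          nlinarith [sq_nonneg L]
        linarith
      have e5 : (F.card : ℝ) ≤ 4 * X / ps := by
        calc (F.card : ℝ) ≤ (((⌊3 * X⌋₊ + h) / ps : ℕ) : ℝ) := by exact_mod_cast e2
          _ ≤ _ := e3
          _ ≤ 4 * X / ps := by gcongr
      linarith
    have hRHS : 0 ≤ 2400 * CM / δ / ps * (LPhi X / W.totient * PG) := by positivity
    have e6 : 4 * X / ps + 1 ≤ 5 * X ^ (99 / 100 : ℝ) := by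
      have h1 : 4 * X / ps ≤ 4 * X / X ^ (1 / 100 : ℝ) := by gcongr
      have h2 : 4 * X / X ^ (1 / 100 : ℝ) = 4 * X ^ (99 / 100 : ℝ) := by
        rw [div_eq_iff (by positivity), mul_assoc, ← Real.rpow_add hX0]
        norm_num
      have h3 : 1 ≤ X ^ (99 / 100 : ℝ) := Real.one_le_rpow hX1 (by norm_num)
      linarith
    have e7 : 2 * L * (5 * X ^ (99 / 100 : ℝ)) ≤ X ^ (199 / 200 : ℝ) := by
      calc 2 * L * (5 * X ^ (99 / 100 : ℝ)) = (10 * L) * X ^ (99 / 100 : ℝ) := by ring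
        _ ≤ (20 * L ^ 2) * X ^ (99 / 100 : ℝ) := by
            apply mul_le_mul_of_nonneg_right _ (by positivity)
            nlinarith
        _ ≤ X ^ (1 / 1000 : ℝ) * X ^ (99 / 100 : ℝ) := by gcongr
        _ = X ^ (1 / 1000 + 99 / 100 : ℝ) := by rw [← Real.rpow_add hX0]
        _ ≤ _ := Real.rpow_le_rpow_of_exponent_le hX1 (by norm_num)
    have e8 : 2 * L * ∑ n ∈ F, Phi (n / X) ≤ 2 * L * (5 * X ^ (99 / 100 : ℝ)) :=
      mul_le_mul_of_nonneg_left (hcount.trans e6) (by positivity)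
    linarith

end Pool.Agent.J4H73.CH
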