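import Pool.Agent.Y882.KW.Core3

/-! The weighted linear sieve on rough numbers, in the form of universal weights, with the constants. -/

set_option autoImplicit false

open Finset

namespace Pool.Agent.J4H73.CH

open Pool.Agent.W23.DC Pool.Agent.Y882 Pool.Agent.Y882.KW

open Classical in
/-- the weighted linear sieve: universal weights -/
theorem lswS (A0 : ℝ) (F f : ℝ → ℝ) (hSF : SF A0 F f) (τ ζ υ a b : ℝ) (hζ : 0 < ζ) (h2 : 2 * ζ < τ) (h4 : τ ≤ 4 * ζ) (hτ : τ ≤ 1)
    (hζυ : ζ ≤ υ) (hυτ : υ < τ) (ha : 0 ≤ a) (hb : 0 ≤ b) (hab : b * υ ≤ a)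
    (hJ : ∫ x in ζ..υ, (a - b * x) / (τ - x) / x < Real.log (τ / ζ - 1) / τ) :
    ∃ F0 : ℝ, 0 < F0 ∧ ∀ θ ε₁ : ℝ, 0 < θ → 0 < ε₁ → ε₁ ≤ ζ → ε₁ ≤ τ - υ →
      ∃ η : ℝ, 0 < η ∧
      ∀ (Y : ℕ), 2 ≤ Y → ∃ cU cL : Finset ℕ → ℝ, (∀ T, |cU T| ≤ 1 ∧ |cL T| ≤ 1 + a) ∧
        (∀ T ⊆ pr Y ε₁ υ, (cU T ≠ 0 ∨ cL T ≠ 0) → ((∏ p ∈ T, p : ℕ) : ℝ) ≤ (Y : ℝ) ^ τ) ∧
        (∀ N : ℕ, VV (pr Y ε₁ υ) cL (fun p => if p ∣ N then 1 else 0) ≤ WB Y ε₁ ζ υ a b N ∧
          (if ∀ p ∈ pr Y ε₁ ζ, ¬ p ∣ N then 1 else 0) ≤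
            VV (pr Y ε₁ υ) cU (fun p => if p ∣ N then 1 else 0)) ∧
        ∀ g : ℕ → ℝ, (∀ p ∈ pr Y ε₁ υ, 0 ≤ g p) → Mer (pr Y ε₁ υ) (tt Y) g ε₁ υ η →
          ε₁ * (A0 * (Real.log (τ / ζ - 1) / τ - ∫ x in ζ..υ, (a - b * x) / (τ - x) / x) - θ) ≤
            VV (pr Y ε₁ υ) cL g ∧ VV (pr Y ε₁ υ) cU g ≤ ε₁ * F0 := by
  have hA0 := hSF.pos
  have hτ0 : 0 < τ := by linarith
  set s : ℝ := τ / ζ with hs
  have hs2 : 2 < s := by rw [hs, lt_div_iff₀ hζ]; exact h2
  have hs4 : s ≤ 4 := by rw [hs, div_le_iff₀ hζ]; exact h4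
  have hF : 1 ≤ F s := hSF.F1 s (by linarith)
  set c₂ : ℝ := Real.log (s - 1) / τ - ∫ x in ζ..υ, (a - b * x) / (τ - x) / x with hc₂
  have hc₂0 : 0 < c₂ := by rw [hc₂]; linarith
  refine ⟨F s / ζ + 1, by positivity, ?_⟩
  intro θ' ε₁ hθ' hε₁ hεζ hετ
  set θ : ℝ := min (θ' / A0) c₂ with hθ
  have hθ0 : 0 < θ := lt_min (by positivity) hc₂0
  have hθ1 : A0 * θ ≤ θ' := by
    have := min_le_left (θ' / A0) c₂
    rw [← hθ, le_div_iff₀ hA0] at this
    linarith
  have hε1 : ε₁ ≤ 1 := by linarith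
  set Bd : ℝ := Real.log (υ / ζ) + 1 with hBd
  have hlogυ : 0 ≤ Real.log (υ / ζ) := Real.log_nonneg (by rw [le_div_iff₀ hζ]; linarith)
  have hBd0 : 0 < Bd := by linarith
  set η' : ℝ := min ε₁ (ε₁ * A0 * θ / (4 * (1 + a * Bd))) with hη'
  have hη'0 : 0 < η' := lt_min hε₁ (by positivity)
  have hη'1 : η' ≤ ε₁ := min_le_left _ _
  have hη'2 : η' * (1 + a * Bd) ≤ ε₁ * A0 * θ / 4 := by
    have h := min_le_right ε₁ (ε₁ * A0 * θ / (4 * (1 + a * Bd)))
    rw [← hη', le_div_iff₀ (by positivity)] at h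
    linarith
  obtain ⟨K, hK⟩ := exists_nat_ge (τ / ε₁)
  have hKτ : τ ≤ (K + 2) * ε₁ := by
    rw [div_le_iff₀ hε₁] at hK
    nlinarith
  obtain ⟨η₁, hη₁, H⟩ := Pool.Agent.W505.DC.MT Pool.Agent.W505.DC.MI A0 F f hSF ε₁
    η' K hε₁ hε1 hη'0
  obtain ⟨η₂, hη₂, H2⟩ := mid τ ζ υ a b hζ hζυ hυτ hτ (θ / 4) (by positivity) ε₁ hε₁ hεζ
  refine ⟨min (min η₁ η₂) 1, lt_min (lt_min hη₁ hη₂) one_pos, ?_⟩
  intro Y hY
  have hY2 : (2 : ℝ) ≤ Y := by exact_mod_cast hY
  have hlY : 0 < Real.log Y := Real.log_pos (by linarith)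
  set P := pr Y ε₁ ζ with hP
  set R := pr Y ζ υ with hR
  have hmem : ∀ u v : ℝ, ∀ p ∈ pr Y u v, p.Prime ∧ u ≤ tt Y p ∧ tt Y p < v := by
    intro u v p hp
    unfold pr at hp
    rw [mem_filter] at hp
    exact hp.2
  have hPR : P ∪ R = pr Y ε₁ υ := by
    ext p
    rw [hP, hR]
    unfold pr
    rw [mem_union, mem_filter, mem_filter, mem_filter]
    constructor
    · rintro (⟨h1, h2, h3, h4⟩ | ⟨h1, h2, h3, h4⟩)
      · exact ⟨h1, h2, h3, h4.trans_le hζυ⟩
      · exact ⟨h1, h2, hεζ.trans h3, h4⟩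
    · rintro ⟨h1, h2, h3, h4⟩
      rcases lt_or_ge (tt Y p) ζ with h | h
      · exact Or.inl ⟨h1, h2, h3, h⟩
      · exact Or.inr ⟨h1, h2, h, h4⟩
  have hd : Disjoint P R := by
    rw [disjoint_left]
    intro p hp hp'
    have h1 := hmem _ _ p hp
    have h2 := hmem _ _ p hp'
    linarith [h1.2.2, h2.2.1]
  have hsiz : Siz P (tt Y) := by
    refine ⟨fun p hp => (hmem _ _ p hp).1, fun p hp => lt_of_lt_of_le hε₁ (hmem _ _ p hp).2.1, ?_⟩
    intro p hp q hq
    have hp0 : (0 : ℝ) < p := by exact_mod_cast (hmem _ _ p hp).1.pos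
    unfold tt
    rw [div_lt_div_iff_of_pos_right hlY, Real.log_lt_log_iff hp0
      (by exact_mod_cast (hmem _ _ q hq).1.pos)]
    exact Nat.cast_lt
  have ht0 : ∀ p, 0 ≤ tt Y p := by
    intro p
    unfold tt
    exact div_nonneg (Real.log_natCast_nonneg p) hlY.le
  set ta : ℕ → ℝ := fun q => τ - tt Y q with hta
  set za : ℕ → ℝ := fun q => min ζ (ta q) with hza
  have htaR : ∀ q ∈ R, ε₁ ≤ ta q ∧ 0 < ta q ∧ ta q ≤ 3 * za q ∧ ε₁ ≤ za q ∧ za q ≤ ta q ∧
      za q ≤ ζ ∧ ta q ≤ τ := by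
    intro q hq
    have h1 := (hmem _ _ q hq).2
    have h3 : ta q = τ - tt Y q := rfl
    have h5 : ε₁ ≤ ta q := by rw [h3]; linarith
    refine ⟨h5, by linarith, ?_, le_min hεζ h5, min_le_right _ _, min_le_left _ _,
      by rw [h3]; linarith [ht0 q]⟩
    rcases le_total ζ (ta q) with h | h
    · have : za q = ζ := min_eq_left h
      rw [this, h3]
      linarith
    · have : za q = ta q := min_eq_right h
      rw [this]
      linarith
  have hwR : ∀ q ∈ R, 0 ≤ a - b * tt Y q ∧ a - b * tt Y q ≤ a := by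
    intro q hq
    have h1 := (hmem _ _ q hq).2
    constructor
    · have : b * tt Y q ≤ b * υ := mul_le_mul_of_nonneg_left h1.2.le hb
      linarith
    · have : 0 ≤ b * tt Y q := mul_nonneg hb (ht0 q)
      linarith
  set cU : Finset ℕ → ℝ := fun T => if T ⊆ P then lc P (tt Y) K true τ ζ T else 0 with hcU
  set cL1 : Finset ℕ → ℝ := fun T => if T ⊆ P then lc P (tt Y) K false τ ζ T else 0 with hcL1
  set cq : ℕ → Finset ℕ → ℝ := fun q T => if q ∈ T ∧ T.erase q ⊆ P then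
    (a - b * tt Y q) * lc P (tt Y) K true (ta q) (za q) (T.erase q) else 0 with hcq
  have hVU : ∀ g : ℕ → ℝ, VV (pr Y ε₁ υ) cU g = MM P (tt Y) g K true τ ζ := by
    intro g
    rw [← hPR, hcU, VV_part P R (lc P (tt Y) K true τ ζ) g,
      lc_V _ _ hsiz K true τ ζ hτ0.le (fun _ => h2.le)]
  have hVL1 : ∀ g : ℕ → ℝ, VV (pr Y ε₁ υ) cL1 g = VV P (lc P (tt Y) K false τ ζ) g := by
    intro g
    rw [← hPR, hcL1, VV_part P R (lc P (tt Y) K false τ ζ) g]
  have hVq : ∀ q ∈ R, ∀ g : ℕ → ℝ, VV (pr Y ε₁ υ) (cq q) g =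
      g q * ((a - b * tt Y q) * VV P (lc P (tt Y) K true (ta q) (za q)) g) := by
    intro q hq g
    rw [← hPR, hcq]
    rw [VV_one P R hd q hq (fun U => (a - b * tt Y q) * lc P (tt Y) K true (ta q) (za q) U) g]
    congr 1
    unfold VV
    rw [mul_sum]
    apply sum_congr rfl
    intro T _
    ring
  refine ⟨cU, fun T => cL1 T - ∑ q ∈ R, cq q T, ?_, ?_, ?_, ?_⟩
  · intro T
    have h1 : |cU T| ≤ 1 := by
      simp only [hcU]
      split_ifs
      · exact lc_le _ _ hsiz K true τ ζ hτ0.le (fun _ => h2.le) T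
      · simp
    have h3 : |cL1 T| ≤ 1 := by
      simp only [hcL1]
      split_ifs
      · exact lc_le _ _ hsiz K false τ ζ hτ0.le (fun _ => h2.le) T
      · simp
    refine ⟨h1, ?_⟩
    have h5 : |∑ q ∈ R, cq q T| ≤ a := by
      by_cases hex : ∃ q ∈ R, q ∈ T ∧ T.erase q ⊆ P
      · obtain ⟨q, hq, hqT, hqP⟩ := hex
        rw [sum_eq_single q]
        · simp only [hcq]
          rw [if_pos ⟨hqT, hqP⟩, abs_mul, abs_of_nonneg (hwR q hq).1]
          calc (a - b * tt Y q) * |lc P (tt Y) K true (ta q) (za q) (T.erase q)| ≤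
              a * 1 := by
                apply mul_le_mul (hwR q hq).2 _ (abs_nonneg _) ha
                exact lc_le _ _ hsiz K true _ _ (htaR q hq).2.1.le (fun h => by simp at h) _
            _ = a := mul_one a
        · intro q' hq' hne
          simp only [hcq]
          rw [if_neg]
          rintro ⟨h6, -⟩
          have h7 : q' ∈ T.erase q := mem_erase.2 ⟨hne, h6⟩
          exact (disjoint_left.1 hd) (hqP h7) hq'
        · intro h; exact absurd hq h
      · push Not at hex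
        rw [sum_eq_zero]
        · rw [abs_zero]; exact ha
        · intro q hq
          simp only [hcq]
          rw [if_neg]
          rintro ⟨h6, h7⟩
          exact hex q hq h6 h7
    calc |cL1 T - ∑ q ∈ R, cq q T| ≤ |cL1 T| + |∑ q ∈ R, cq q T| := abs_sub _ _
      _ ≤ 1 + a := by linarith
  · intro T hT hne
    -- size of the products of subsets of `P`
    have hsize : ∀ (U : Finset ℕ) (b' : Bool) (τ₁ ζ₁ : ℝ), U ⊆ P → 0 ≤ τ₁ →
        (b' = false → 2 * ζ₁ ≤ τ₁) → lc P (tt Y) K b' τ₁ ζ₁ U ≠ 0 →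
        ∑ p ∈ U, tt Y p ≤ τ₁ := by
      intro U b' τ₁ ζ₁ hU hτ₁ hb' hne'
      have hE := lc_EE _ _ hsiz K b' τ₁ ζ₁ hτ₁ hb' U hne'
      have h5 := EE_sz _ _ hsiz ht0 τ₁ ζ₁ hτ₁ _ hE
      unfold sz at h5
      rwa [Nat.primeFactors_prod (fun p hp => (hmem _ _ p (hU hp)).1)] at h5
    have hTp : ∀ p ∈ T, p.Prime := fun p hp => (hmem _ _ p (hT hp)).1
    have hfin : ∑ p ∈ T, tt Y p ≤ τ := by
      rcases hne with h | h
      · simp only [hcU] at h
        split_ifs at h with h'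
        · exact hsize T true τ ζ h' hτ0.le (fun _ => h2.le) h
        · exact absurd rfl h
      · by_cases h1 : cL1 T = 0
        · have h3 : ∑ q ∈ R, cq q T ≠ 0 := by
            intro h5
            apply h
            show cL1 T - ∑ q ∈ R, cq q T = 0
            rw [h1, h5, sub_zero]
          obtain ⟨q, hq, hq2⟩ := exists_ne_zero_of_sum_ne_zero h3
          simp only [hcq] at hq2
          split_ifs at hq2 with h6
          · have h7 := right_ne_zero_of_mul hq2
            have h8 := hsize (T.erase q) true (ta q) (za q) h6.2 (htaR q hq).2.1.le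
              (fun h => by simp at h) h7
            rw [← add_sum_erase _ _ h6.1]
            have h9 : ta q = τ - tt Y q := rfl
            rw [h9] at h8
            linarith
          · exact absurd rfl hq2
        · simp only [hcL1] at h1
          split_ifs at h1 with h'
          · exact hsize T false τ ζ h' hτ0.le (fun _ => h2.le) h1
          · exact absurd rfl h1
    unfold tt at hfin
    rw [← sum_div, div_le_iff₀ hlY] at hfin
    have hp0 : ∀ p ∈ T, (p : ℝ) ≠ 0 := by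
      intro p hp
      have := (hTp p hp).ne_zero
      exact_mod_cast this
    have h6 : Real.log ((∏ p ∈ T, p : ℕ) : ℝ) = ∑ p ∈ T, Real.log p := by
      push_cast
      rw [Real.log_prod hp0]
    rw [← h6] at hfin
    have hpos : (0 : ℝ) < ((∏ p ∈ T, p : ℕ) : ℝ) := by
      have : 0 < ∏ p ∈ T, p := prod_pos fun p hp => (hTp p hp).pos
      exact_mod_cast this
    rw [← Real.log_le_log_iff hpos (by positivity), Real.log_rpow (by linarith)]
    exact hfin
  · intro N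
    set ind : ℕ → ℝ := fun p => if p ∣ N then 1 else 0 with hind
    have hup : (if ∀ p ∈ P, ¬ p ∣ N then (1 : ℝ) else 0) ≤ VV (pr Y ε₁ υ) cU ind := by
      rw [← hPR, hcU, VV_part P R (lc P (tt Y) K true τ ζ) ind]
      exact lc_ind_up P (tt Y) hsiz K τ ζ hτ0.le N
    refine ⟨?_, hup⟩
    rw [VV_sub, VV_sum, hVL1]
    have h1 := (lc_ind P (tt Y) hsiz K τ ζ hτ0.le h2.le (fun p hp => (hmem _ _ p hp).2.2) N).1
    unfold WB
    rw [← hP, ← hR, mul_sub, mul_one, mul_sum]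
    apply sub_le_sub h1
    apply sum_le_sum
    intro q hq
    rw [hVq q hq]
    have h3 := lc_ind_up P (tt Y) hsiz K (ta q) (za q) (htaR q hq).2.1.le N
    have h5 : (0 : ℝ) ≤ if q ∣ N then 1 else 0 := by split_ifs <;> norm_num
    calc (if ∀ p ∈ P, ¬ p ∣ N then (1 : ℝ) else 0) * ((a - b * tt Y q) * (if q ∣ N then 1 else 0)) =
        (if q ∣ N then 1 else 0) * ((a - b * tt Y q) * (if ∀ p ∈ P, ¬ p ∣ N then (1 : ℝ) else 0)) := by
          ring
      _ ≤ ind q * ((a - b * tt Y q) * VV P (lc P (tt Y) K true (ta q) (za q)) ind) := by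
          apply mul_le_mul_of_nonneg_left _ h5
          exact mul_le_mul_of_nonneg_left h3 (hwR q hq).1
  · intro g hg hM
    have hgP : ∀ p ∈ P, 0 ≤ g p := fun p hp => hg p (by rw [← hPR]; exact mem_union_left _ hp)
    have hgR : ∀ p ∈ R, 0 ≤ g p := fun p hp => hg p (by rw [← hPR]; exact mem_union_right _ hp)
    have hM1 : Mer P (tt Y) g ε₁ ζ η₁ := by
      intro x y hx hxy hy
      have h1 := hM x y hx hxy (hy.trans hζυ)
      have h3 : P.filter (fun p => x ≤ tt Y p ∧ tt Y p < y) =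
          (pr Y ε₁ υ).filter (fun p => x ≤ tt Y p ∧ tt Y p < y) := by
        ext p
        rw [mem_filter, mem_filter, ← hPR, mem_union]
        constructor
        · rintro ⟨h5, h6⟩
          exact ⟨Or.inl h5, h6⟩
        · rintro ⟨h5 | h5, h6⟩
          · exact ⟨h5, h6⟩
          · have := (hmem _ _ p h5).2.1
            exfalso
            linarith [h6.2]
      rw [h3]
      exact h1.trans ((min_le_left _ _).trans (min_le_left _ _))
    have hM2 : Mer (pr Y ε₁ υ) (tt Y) g ε₁ υ η₂ := fun x y hx hxy hy =>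
      (hM x y hx hxy hy).trans ((min_le_left _ _).trans (min_le_right _ _))
    have hPε : ∀ p ∈ P, ε₁ ≤ tt Y p := fun p hp => (hmem _ _ p hp).2.1
    have h7 := H P (tt Y) g ζ (by linarith) hgP hPε hM1 K le_rfl
      τ ζ hKτ hεζ le_rfl (by linarith) hτ
    have hRf : (pr Y ε₁ υ).filter (fun p => ζ ≤ tt Y p ∧ tt Y p < υ) = R := by
      ext p
      rw [mem_filter, ← hPR, mem_union]
      constructor
      · rintro ⟨h5 | h5, h6⟩
        · have := (hmem _ _ p h5).2.2
          exfalso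
          linarith [h6.1]
        · exact h5
      · intro h5
        exact ⟨Or.inr h5, (hmem _ _ p h5).2⟩
    constructor
    · rw [VV_sub, VV_sum, hVL1, lc_V _ _ hsiz K false τ ζ hτ0.le (fun _ => h2.le)]
      have h8 := h7.2 h2.le
      rw [← hs, hSF.f4 s hs2.le hs4] at h8
      have e1 : ε₁ / ζ * (A0 * Real.log (s - 1) / s) = ε₁ * A0 * (Real.log (s - 1) / τ) := by
        rw [hs]
        field_simp
      rw [e1] at h8
      have h9 : ∑ q ∈ R, VV (pr Y ε₁ υ) (cq q) g ≤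
          ε₁ * A0 * (∑ q ∈ R, g q * ((a - b * tt Y q) / (τ - tt Y q))) + η' * (a * ∑ q ∈ R, g q) := by
        rw [mul_sum, mul_sum, mul_sum, ← sum_add_distrib]
        apply sum_le_sum
        intro q hq
        rw [hVq q hq, lc_V _ _ hsiz K true (ta q) (za q) (htaR q hq).2.1.le
          (fun h => by simp at h)]
        obtain ⟨t1, t2, t3, t4, t5, t6, t7⟩ := htaR q hq
        have h10 := (H P (tt Y) g ζ (by linarith) hgP hPε hM1 K le_rfl
          (ta q) (za q) (by linarith) t4 t6 t5 (by linarith)).1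
        have hz0 : 0 < za q := by linarith
        rw [hSF.F3 (ta q / za q) (by rw [le_div_iff₀ hz0]; linarith)
          (by rw [div_le_iff₀ hz0]; exact t3)] at h10
        have e2 : ε₁ / za q * (A0 / (ta q / za q)) = ε₁ * A0 / ta q := by
          field_simp
        rw [e2] at h10
        have hw := hwR q hq
        have hgq := hgR q hq
        calc g q * ((a - b * tt Y q) * MM P (tt Y) g K true (ta q) (za q)) ≤
            g q * ((a - b * tt Y q) * (ε₁ * A0 / ta q + η')) := by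
              apply mul_le_mul_of_nonneg_left _ hgq
              exact mul_le_mul_of_nonneg_left h10 hw.1
          _ = ε₁ * A0 * (g q * ((a - b * tt Y q) / ta q)) + (a - b * tt Y q) * (g q * η') := by ring
          _ ≤ ε₁ * A0 * (g q * ((a - b * tt Y q) / (τ - tt Y q))) + η' * (a * g q) := by
              have : (a - b * tt Y q) * (g q * η') ≤ a * (g q * η') :=
                mul_le_mul_of_nonneg_right hw.2 (by positivity)
              have e3 : ta q = τ - tt Y q := rfl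
              rw [e3]
              linarith
      have h11 := H2 (pr Y ε₁ υ) (tt Y) g hg hM2
      rw [hRf] at h11
      have h12 : ∑ q ∈ R, g q ≤ Bd := by
        have h13 := hM ζ υ hεζ hζυ le_rfl
        rw [hRf, abs_le] at h13
        have h14 : min (min η₁ η₂) 1 ≤ 1 := min_le_right _ _
        linarith [h13.2]
      have h15 : ε₁ * A0 * (∑ q ∈ R, g q * ((a - b * tt Y q) / (τ - tt Y q))) ≤
          ε₁ * A0 * ((∫ x in ζ..υ, (a - b * x) / (τ - x) / x) + θ / 4) :=
        mul_le_mul_of_nonneg_left h11 (by positivity)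
      have h16 : η' * (a * ∑ q ∈ R, g q) ≤ η' * (a * Bd) := by
        apply mul_le_mul_of_nonneg_left _ hη'0.le
        exact mul_le_mul_of_nonneg_left h12 ha
      have h17 : ε₁ * A0 * (Real.log (s - 1) / τ) =
          ε₁ * A0 * c₂ + ε₁ * A0 * (∫ x in ζ..υ, (a - b * x) / (τ - x) / x) := by
        rw [hc₂]; ring
      have h18 : ε₁ * (A0 * θ) ≤ ε₁ * θ' := mul_le_mul_of_nonneg_left hθ1 hε₁.le
      have h19 : ε₁ * (A0 * c₂ - θ') = ε₁ * A0 * c₂ - ε₁ * θ' := by ring
      rw [h19]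
      have h20 : 0 < ε₁ * (A0 * θ) := by positivity
      linarith
    · rw [hVU]
      have h9 := h7.1
      rw [← hs] at h9
      calc MM P (tt Y) g K true τ ζ ≤ ε₁ / ζ * F s + η' := h9
        _ ≤ ε₁ / ζ * F s + ε₁ := by linarith
        _ = ε₁ * (F s / ζ + 1) := by ring

end Pool.Agent.J4H73.CH
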