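import Pool.Agent.J4H73.CH.Wsum
import Pool.Agent.H378R2.M7e

/-! The weighted sum over the primes. -/

set_option autoImplicit false

open Finset Filter

namespace Pool.Agent.J4H73.CH

open Pool.Agent.H378R2 Pool.Agent.H378R2.LSBV Pool.Agent.N610.AP Pool.Agent.Y882
open Pool.Agent.J4H73.BV

/-- the density of the shifted primes -/
noncomputable def gh (W ps h : ℕ) (p : ℕ) : ℝ :=
  if p ∣ W ∨ p = ps ∨ p ∣ h then 0 else 1 / ((p : ℝ) - 1)

theorem VV_congr (P : Finset ℕ) (c : Finset ℕ → ℝ) (h h' : ℕ → ℝ) (hh : ∀ p ∈ P, h p = h' p) :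
    VV P c h = VV P c h' := by
  unfold VV
  apply sum_congr rfl
  intro T hT
  rw [mem_powerset] at hT
  congr 1
  exact prod_congr rfl fun p hp => hh p (hT hp)

open Classical in
theorem mainP (A : ℕ) : ∀ᶠ X : ℝ in atTop, ∀ (ps : ℕ) (S : Finset ℕ), (ps = 1 ∨ ps.Prime) →
    ∑ p ∈ pairs X ps ⌊X ^ (497 / 1000 : ℝ)⌋₊ S, LSBV.wt A p.2 * TT X (p.1 * p.2) ≤
      X / (Real.log X) ^ (2 ^ (A + 1) + A + 1) →
    ∀ (h r0 : ℕ), r0.Coprime (WW X S ps) → (r0 + h).Coprime (WW X S ps) →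
    ∀ P : Finset ℕ, (∀ p ∈ P, p.Prime) → ∀ (c : Finset ℕ → ℝ) (C : ℝ), (∀ T, |c T| ≤ C) →
    (∀ T ⊆ P, c T ≠ 0 → ((∏ p ∈ T, p : ℕ) : ℝ) ≤ X ^ (497 / 1000 : ℝ)) →
    |∑ n ∈ (Icc 1 ⌊3 * X⌋₊).filter (fun n => n ≡ r0 [MOD WW X S ps]),
        Phi (n / X) * ArithmeticFunction.vonMangoldt n *
          VV P c (fun p => if p ≠ ps ∧ p ∣ n + h then 1 else 0) -
      LPhi X / (Nat.totient (WW X S ps) : ℝ) * VV P c (gh (WW X S ps) ps h)| ≤
      C * (X / ((Nat.totient (WW X S ps) : ℝ) * (Real.log X) ^ A) +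
        X ^ (497 / 1000 : ℝ) * Real.log (3 * X)) := by
  filter_upwards [EPhi_sum A, eventually_ge_atTop 4] with X hEs hX4
  intro ps S hps hpairs h r0 hr0 hr1 P hP c C hC hcQ
  set W := WW X S ps with hW
  have hW0 : 0 < W := WW_pos X S ps
  have hX1 : 1 ≤ X := by linarith
  have hC0 : 0 ≤ C := (abs_nonneg _).trans (hC ∅)
  have hann : ∀ n : ℕ, 0 ≤ Phi (n / X) * ArithmeticFunction.vonMangoldt n := fun n =>
    mul_nonneg (LSBV.Phi_nonneg _) ArithmeticFunction.vonMangoldt_nonneg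
  have hlog : 0 ≤ Real.log (3 * X) := Real.log_nonneg (by linarith)
  have hdv : ∀ p n : ℕ, 0 < p → (n % p = dres p 0 h ↔ p ∣ n + h) := by
    intro p n hp
    rw [mod_eq_dres p 0 h n hp]
    have e : (n : ℤ) + (h : ℤ) - ((0 : ℕ) : ℤ) = ((n + h : ℕ) : ℤ) := by push_cast; ring
    rw [e]
    exact_mod_cast Iff.rfl
  have key := wsum W ps hW0 hps (Icc 1 ⌊3 * X⌋₊) (fun n => Phi (n / X) * ArithmeticFunction.vonMangoldt n)
    (LPhi X) r0 P hP (fun p => dres p 0 h) (fun p hp => dres_lt p 0 h (hP p hp).pos) (by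
      intro p hp hpW h1
      rw [hdv p r0 (hP p hp).pos] at h1
      have h2 := Nat.dvd_gcd h1 hpW
      rw [hr1] at h2
      exact (hP p hp).one_lt.ne' (Nat.dvd_one.1 h2)) hr0 ⌊X ^ (497 / 1000 : ℝ)⌋₊ c C hC
    (fun T hT h => Nat.le_floor (hcQ T hT h)) (Real.log (3 * X))
    (X / ((Nat.totient W : ℝ) * (Real.log X) ^ A)) hlog (fun n _ => hann n) (by
      intro p hp _ _
      have h1 := sum_ncPhi X hX1 p (hP p hp).one_lt.le
      rw [(hP p hp).primeFactors, card_singleton] at h1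
      have h2 : (Icc 1 ⌊3 * X⌋₊).filter (fun n => p ∣ n) =
          (Icc 1 ⌊3 * X⌋₊).filter (fun n => ¬ n.Coprime p) := by
        apply filter_congr
        intro n _
        rw [Nat.coprime_comm, Nat.Prime.coprime_iff_not_dvd (hP p hp), not_not]
      rw [h2]
      simpa using h1) (by
      intro b hb
      refine le_trans ?_ (hEs ps S hpairs b hb)
      apply sum_le_sum
      intro q hq
      rw [mem_QQ] at hq
      rw [EPhi_eq, mul_one_div]
      apply le_mul_of_one_le_left (abs_nonneg _)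
      apply one_le_pow₀
      have : 0 < q.divisors.card := card_pos.2 ⟨1, Nat.one_mem_divisors.2 (by omega)⟩
      exact_mod_cast this)
  have e1 : VV P c (gd W ps (fun p => dres p 0 h)) = VV P c (gh W ps h) := by
    apply VV_congr
    intro p hp
    unfold gd gh
    have : dres p 0 h = 0 ↔ p ∣ h := by
      have h1 := hdv p 0 (hP p hp).pos
      rw [Nat.zero_mod, zero_add] at h1
      rw [← h1]
      exact eq_comm
    simp only [this]
  have e2 : ∀ n : ℕ, VV P c (fun p => if p ≠ ps ∧ n % p = dres p 0 h then (1 : ℝ) else 0) =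
      VV P c (fun p => if p ≠ ps ∧ p ∣ n + h then 1 else 0) := by
    intro n
    apply VV_congr
    intro p hp
    simp only [hdv p n (hP p hp).pos]
  rw [e1] at key
  simp_rw [e2] at key
  refine key.trans ?_
  apply mul_le_mul_of_nonneg_left _ hC0
  apply add_le_add_right
  apply mul_le_mul_of_nonneg_right _ hlog
  exact Nat.floor_le (by positivity)

end Pool.Agent.J4H73.CH
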