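import Pool.Agent.J4H73.BV.Lam
import Pool.Agent.N610.AP.Crt
import Pool.Agent.Y882.KW.Core3

/-! The sum over a residue class, weighted by a combination of divisibility conditions. -/

set_option autoImplicit false

open Finset Filter

namespace Pool.Agent.J4H73.CH

open Pool.Agent.H378R2 Pool.Agent.H378R2.LSBV Pool.Agent.N610.AP Pool.Agent.Y882

/-- the density -/
noncomputable def gd (W ps : ℕ) (ρ : ℕ → ℕ) (p : ℕ) : ℝ :=
  if p ∣ W ∨ p = ps ∨ ρ p = 0 then 0 else 1 / ((p : ℝ) - 1)

open Classical in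
theorem wsum (W ps : ℕ) (hW0 : 0 < W) (hps : ps = 1 ∨ ps.Prime) (A : Finset ℕ) (a : ℕ → ℝ) (M : ℝ)
    (r0 : ℕ) (P : Finset ℕ) (hP : ∀ p ∈ P, p.Prime) (ρ : ℕ → ℕ) (hρ : ∀ p ∈ P, ρ p < p)
    (hW : ∀ p ∈ P, p ∣ W → r0 % p ≠ ρ p) (hr0 : r0.Coprime W)
    (Q : ℕ) (c : Finset ℕ → ℝ) (C : ℝ) (hC : ∀ T, |c T| ≤ C)
    (hcQ : ∀ T ⊆ P, c T ≠ 0 → ∏ p ∈ T, p ≤ Q) (Bd B : ℝ) (hBd : 0 ≤ Bd)
    (ha : ∀ n ∈ A, 0 ≤ a n) (h0 : ∀ p ∈ P, ρ p = 0 → ¬ p ∣ W → ∑ n ∈ A.filter (fun n => p ∣ n), a n ≤ Bd)
    (hE : ∀ b : ℕ → ℕ, (∀ q, 1 ≤ q → (b q).Coprime (W * q)) → ∑ q ∈ QQ W ps Q,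
      |∑ n ∈ A.filter (fun n => n ≡ b q [MOD W * q]), a n - M / (Nat.totient (W * q) : ℝ)| ≤ B) :
    |∑ n ∈ A.filter (fun n => n ≡ r0 [MOD W]), a n *
        VV P c (fun p => if p ≠ ps ∧ n % p = ρ p then 1 else 0) -
      M / (Nat.totient W : ℝ) * VV P c (gd W ps ρ)| ≤ C * (B + Q * Bd) := by
  have hC0 : 0 ≤ C := (abs_nonneg _).trans (hC ∅)
  -- the sums
  set S : Finset ℕ → ℝ := fun T => ∑ n ∈ A.filter (fun n => n ≡ r0 [MOD W] ∧ ∀ p ∈ T, p ≠ ps ∧ n % p = ρ p), a n
    with hS
  have e1 : ∑ n ∈ A.filter (fun n => n ≡ r0 [MOD W]), a n *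
        VV P c (fun p => if p ≠ ps ∧ n % p = ρ p then 1 else 0) = ∑ T ∈ P.powerset, c T * S T := by
    unfold VV
    simp_rw [mul_sum]
    rw [sum_comm]
    apply sum_congr rfl
    intro T _
    simp only [hS]
    rw [mul_sum, sum_filter, sum_filter]
    apply sum_congr rfl
    intro n _
    by_cases h1 : n ≡ r0 [MOD W]
    · rw [if_pos h1, Finset.prod_ite_zero]
      by_cases h2 : ∀ p ∈ T, p ≠ ps ∧ n % p = ρ p
      · rw [if_pos h2, if_pos (show n ≡ r0 [MOD W] ∧ ∀ p ∈ T, p ≠ ps ∧ n % p = ρ p from ⟨h1, h2⟩)]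
        simp
        ring
      · rw [if_neg h2, if_neg (show ¬ (n ≡ r0 [MOD W] ∧ ∀ p ∈ T, p ≠ ps ∧ n % p = ρ p) from
          fun h => h2 h.2)]
        simp
    · rw [if_neg h1, if_neg (fun h => h1 h.1)]
  have e2 : M / (Nat.totient W : ℝ) * VV P c (gd W ps ρ) =
      ∑ T ∈ P.powerset, c T * (M / (Nat.totient W : ℝ) * ∏ p ∈ T, gd W ps ρ p) := by
    unfold VV
    rw [mul_sum]
    apply sum_congr rfl
    intro T _
    ring
  rw [e1, e2, ← sum_sub_distrib]
  refine (abs_sum_le_sum_abs _ _).trans ?_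
  -- the good sets
  set G : Finset ℕ → Prop := fun T => ∀ p ∈ T, p.Prime ∧ ¬ p ∣ W ∧ p ≠ ps ∧ ρ p ≠ 0 ∧ ρ p < p with hG
  have hb : ∀ T : Finset ℕ, ∃ b : ℕ, G T → ((∀ n : ℕ, (n ≡ r0 [MOD W] ∧ ∀ p ∈ T, n % p = ρ p) ↔
      n ≡ b [MOD W * ∏ p ∈ T, p]) ∧ b.Coprime (W * ∏ p ∈ T, p)) := by
    intro T
    by_cases hT : G T
    · obtain ⟨b', hb'⟩ := crt_class W r0 T ρ (fun p hp => ⟨(hT p hp).1, (hT p hp).2.1⟩)
        (fun p hp => (hT p hp).2.2.2.2)
      obtain ⟨hb1, hb2⟩ := (hb' b').2 (Nat.ModEq.refl _)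
      refine ⟨b', fun _ => ⟨hb', ?_⟩⟩
      rw [Nat.coprime_mul_iff_right]
      constructor
      · have h1 : Nat.gcd b' W = Nat.gcd r0 W := hb1.gcd_eq
        show Nat.gcd b' W = 1
        rw [h1]
        exact hr0
      · rw [Nat.coprime_prod_right_iff]
        intro p hp
        rw [Nat.coprime_comm, Nat.Prime.coprime_iff_not_dvd (hT p hp).1]
        intro hd
        apply (hT p hp).2.2.2.1
        rw [← hb2 p hp]
        exact Nat.mod_eq_zero_of_dvd hd
    · exact ⟨0, fun h => absurd h hT⟩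
  choose b hb using hb
  set bq : ℕ → ℕ := fun q => if G q.primeFactors ∧ Squarefree q then b q.primeFactors else 1 with hbq
  have hbq1 : ∀ q, 1 ≤ q → (bq q).Coprime (W * q) := by
    intro q hq
    simp only [hbq]
    split_ifs with h
    · have h1 := (hb _ h.1).2
      rwa [Nat.prod_primeFactors_of_squarefree h.2] at h1
    · exact Nat.coprime_one_left _
  have hB := hE bq hbq1
  -- the terms
  set Eq : ℕ → ℝ := fun q => |∑ n ∈ A.filter (fun n => n ≡ bq q [MOD W * q]), a n -
    M / (Nat.totient (W * q) : ℝ)| with hEq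
  have hpf : ∀ T : Finset ℕ, (∀ p ∈ T, p.Prime) → (∏ p ∈ T, p).primeFactors = T :=
    fun T hT => Nat.primeFactors_prod fun p hp => hT p hp
  have hterm : ∀ T ∈ P.powerset, |c T * S T - c T * (M / (Nat.totient W : ℝ) * ∏ p ∈ T, gd W ps ρ p)| ≤
      C * ((if G T ∧ c T ≠ 0 then Eq (∏ p ∈ T, p) else 0) + (if c T ≠ 0 then Bd else 0)) := by
    intro T hT
    rw [mem_powerset] at hT
    rw [← mul_sub, abs_mul]
    by_cases hc : c T = 0
    · rw [hc, abs_zero, zero_mul]
      simp
    rw [if_pos hc]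
    apply mul_le_mul (hC T) _ (abs_nonneg _) hC0
    by_cases hGT : G T
    · rw [if_pos ⟨hGT, hc⟩]
      have h1 : S T = ∑ n ∈ A.filter (fun n => n ≡ b T [MOD W * ∏ p ∈ T, p]), a n := by
        simp only [hS]
        apply sum_congr _ (fun _ _ => rfl)
        apply filter_congr
        intro n _
        rw [← (hb T hGT).1 n]
        constructor
        · rintro ⟨h2, h3⟩
          exact ⟨h2, fun p hp => (h3 p hp).2⟩
        · rintro ⟨h2, h3⟩
          exact ⟨h2, fun p hp => ⟨(hGT p hp).2.2.1, h3 p hp⟩⟩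
      have h2 : ∏ p ∈ T, gd W ps ρ p = 1 / (Nat.totient (∏ p ∈ T, p) : ℝ) := by
        rw [totient_primes T (fun p hp => (hGT p hp).1), one_div, ← Finset.prod_inv_distrib]
        apply prod_congr rfl
        intro p hp
        unfold gd
        rw [if_neg, one_div]
        push Not
        exact ⟨(hGT p hp).2.1, (hGT p hp).2.2.1, (hGT p hp).2.2.2.1⟩
      have h3 : bq (∏ p ∈ T, p) = b T := by
        simp only [hbq]
        rw [hpf T (fun p hp => (hGT p hp).1), if_pos ⟨hGT, prod_primes_sqfree T fun p hp => (hGT p hp).1⟩]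
      have h4 : (W * ∏ p ∈ T, p).totient = W.totient * (∏ p ∈ T, p).totient := by
        apply Nat.totient_mul
        rw [Nat.coprime_prod_right_iff]
        intro p hp
        rw [Nat.coprime_comm, Nat.Prime.coprime_iff_not_dvd (hGT p hp).1]
        exact (hGT p hp).2.1
      have h5 : Eq (∏ p ∈ T, p) = |S T - M / (Nat.totient W : ℝ) * ∏ p ∈ T, gd W ps ρ p| := by
        simp only [hEq]
        rw [h3, h1, h2, h4]
        congr 1
        push_cast
        rw [div_mul_div_comm, mul_one]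
      rw [h5]
      linarith
    · rw [if_neg (fun h => hGT h.1), zero_add]
      simp only [hG] at hGT
      push Not at hGT
      obtain ⟨p, hp, hpc⟩ := hGT
      have hpP := hT hp
      have hpp := hP p hpP
      have hg0 : gd W ps ρ p = 0 := by
        unfold gd
        rw [if_pos]
        by_contra hcon
        push Not at hcon
        have := hpc hpp hcon.1 hcon.2.1 hcon.2.2
        have := hρ p hpP
        omega
      rw [prod_eq_zero hp hg0, mul_zero, sub_zero]
      have hSnn : 0 ≤ S T := sum_nonneg fun n hn => ha n (mem_filter.1 hn).1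
      rw [abs_of_nonneg hSnn]
      by_cases h1 : p ∣ W
      · have : S T = 0 := by
          simp only [hS]
          rw [sum_eq_zero]
          intro n hn
          rw [mem_filter] at hn
          exfalso
          apply hW p hpP h1
          rw [← (hn.2.2 p hp).2]
          exact (hn.2.1.of_dvd h1).symm
        rw [this]; exact hBd
      · by_cases h2 : p = ps
        · have : S T = 0 := by
            simp only [hS]
            rw [sum_eq_zero]
            intro n hn
            rw [mem_filter] at hn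
            exact absurd h2 (hn.2.2 p hp).1
          rw [this]; exact hBd
        · have h3 : ρ p = 0 := by
            by_contra h3
            have := hpc hpp h1 h2 h3
            have := hρ p hpP
            omega
          refine le_trans ?_ (h0 p hpP h3 h1)
          simp only [hS]
          apply sum_le_sum_of_subset_of_nonneg
          · intro n hn
            rw [mem_filter] at hn ⊢
            refine ⟨hn.1, Nat.dvd_of_mod_eq_zero ?_⟩
            rw [(hn.2.2 p hp).2, h3]
          · intro n hn _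
            exact ha n (mem_filter.1 hn).1
  refine (sum_le_sum hterm).trans ?_
  rw [← mul_sum]
  apply mul_le_mul_of_nonneg_left _ hC0
  rw [sum_add_distrib]
  have hEq0 : ∀ q, 0 ≤ Eq q := fun q => abs_nonneg _
  apply add_le_add
  · refine le_trans ?_ hB
    rw [← sum_filter, ← sum_image (f := Eq) (g := fun T : Finset ℕ => ∏ p ∈ T, p)]
    · apply sum_le_sum_of_subset_of_nonneg
      · intro q hq
        rw [mem_image] at hq
        obtain ⟨T, hT, rfl⟩ := hq
        rw [mem_filter, mem_powerset] at hT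
        obtain ⟨h1, h2, h3⟩ := hT
        rw [mem_QQ]
        refine ⟨⟨prod_pos fun p hp => (h2 p hp).1.pos, hcQ T h1 h3⟩,
          prod_primes_sqfree T fun p hp => (h2 p hp).1, ?_⟩
        rw [Nat.coprime_prod_left_iff]
        intro p hp
        obtain ⟨h4, h5, h6, _⟩ := h2 p hp
        rw [Nat.Prime.coprime_iff_not_dvd h4]
        intro hd
        rcases (Nat.Prime.dvd_mul h4).1 hd with hd | hd
        · exact h5 hd
        · rcases hps with h | h
          · rw [h] at hd
            exact h4.one_lt.ne' (Nat.dvd_one.1 hd)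
          · exact h6 ((Nat.prime_dvd_prime_iff_eq h4 h).1 hd)
      · intro q _ _
        exact hEq0 q
    · intro T hT1 T' hT2 he'
      rw [mem_coe, mem_filter] at hT1 hT2
      have e1 := hpf T (fun p hp => (hT1.2.1 p hp).1)
      have e2 := hpf T' (fun p hp => (hT2.2.1 p hp).1)
      rw [← e1, ← e2]
      exact congrArg Nat.primeFactors he'
  · rw [← sum_filter, sum_const, nsmul_eq_mul]
    apply mul_le_mul_of_nonneg_right _ hBd
    have h1 : ((P.powerset).filter (fun T => c T ≠ 0)).card ≤ (Icc 1 Q).card := by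
      apply card_le_card_of_injOn (fun T : Finset ℕ => ∏ p ∈ T, p)
      · intro T hT
        rw [mem_coe, mem_filter, mem_powerset] at hT
        rw [mem_coe, mem_Icc]
        exact ⟨prod_pos fun p hp => (hP p (hT.1 hp)).pos, hcQ T hT.1 hT.2⟩
      · intro T hT1 T' hT2 he'
        rw [mem_coe, mem_filter, mem_powerset] at hT1 hT2
        have e1 := hpf T (fun p hp => hP p (hT1.1 hp))
        have e2 := hpf T' (fun p hp => hP p (hT2.1 hp))
        rw [← e1, ← e2]
        exact congrArg Nat.primeFactors he'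
    rw [Nat.card_Icc] at h1
    exact_mod_cast h1

end Pool.Agent.J4H73.CH
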